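import Mathlib

set_option autoImplicit false

open Set Filter Topology

namespace Pool.Agent.Helper56.EZ

/-! ### Hyperbolic groups and their Gromov boundary -/

/-- Word length of `g` with respect to a subset `S` of the group. -/
noncomputable def wordLength {G : Type} [Group G] (S : Set G) (g : G) : ℕ :=
  sInf {n : ℕ | ∃ l : List G, l.length = n ∧ (∀ a ∈ l, a ∈ S ∨ a⁻¹ ∈ S) ∧ l.prod = g}

/-- Word metric: distance of the vertices `x`, `y` in the Cayley graph. -/
noncomputable def wordDist {G : Type} [Group G] (S : Set G) (x y : G) : ℝ :=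
  wordLength S (x⁻¹ * y)

/-- Gromov product of `x` and `y` based at `w` for the word metric. -/
noncomputable def gromovProduct {G : Type} [Group G] (S : Set G) (w x y : G) : ℝ :=
  (wordDist S x w + wordDist S y w - wordDist S x y) / 2

/-- Gromov hyperbolicity (four point condition) of the word metric. -/
def IsGromovHyperbolic {G : Type} [Group G] (S : Set G) : Prop :=
  ∃ δ : ℝ, ∀ w x y z : G,
    min (gromovProduct S w x y) (gromovProduct S w y z) - δ ≤ gromovProduct S w x z

/-- A finite generating set of `G`. -/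
abbrev GenSet (G : Type) [Group G] : Type :=
  {S : Finset G // Subgroup.closure (S : Set G) = ⊤}

/-- Sequences in `G` that converge at infinity. -/
def ConvergesAtInfinity {G : Type} [Group G] (S : GenSet G) (u : ℕ → G) : Prop :=
  ∀ N : ℝ, ∃ n₀ : ℕ, ∀ i ≥ n₀, ∀ j ≥ n₀, N ≤ gromovProduct (S.1 : Set G) 1 (u i) (u j)

/-- Two sequences converging at infinity are equivalent. -/
def EquivAtInfinity {G : Type} [Group G] (S : GenSet G)
    (u v : {u : ℕ → G // ConvergesAtInfinity S u}) : Prop :=
  ∀ N : ℝ, ∃ n₀ : ℕ, ∀ i ≥ n₀, ∀ j ≥ n₀, N ≤ gromovProduct (S.1 : Set G) 1 (u.1 i) (v.1 j)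

/-- The Gromov boundary of `G` (computed with the generating set `S`): classes of sequences
converging at infinity. -/
def GromovBoundary {G : Type} [Group G] (S : GenSet G) : Type :=
  Quot (EquivAtInfinity S)

/-- Basic neighbourhood of the boundary point `p`: points `q` such that `p`, `q` are
represented by sequences whose mutual Gromov product is eventually at least `r`. -/
def boundaryNhd {G : Type} [Group G] (S : GenSet G) (p : GromovBoundary S) (r : ℝ) :
    Set (GromovBoundary S) :=
  {q | ∃ u v : {u : ℕ → G // ConvergesAtInfinity S u},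
    Quot.mk (EquivAtInfinity S) u = p ∧ Quot.mk (EquivAtInfinity S) v = q ∧
    ∃ n₀ : ℕ, ∀ i ≥ n₀, ∀ j ≥ n₀, r ≤ gromovProduct (S.1 : Set G) 1 (u.1 i) (v.1 j)}

/-- The topology of the Gromov boundary. -/
instance {G : Type} [Group G] (S : GenSet G) : TopologicalSpace (GromovBoundary S) where
  IsOpen U := ∀ p ∈ U, ∃ r : ℝ, boundaryNhd S p r ⊆ U
  isOpen_univ := fun _ _ => ⟨0, subset_univ _⟩
  isOpen_inter := by
    rintro U V hU hV p ⟨hpU, hpV⟩
    obtain ⟨r, hr⟩ := hU p hpU
    obtain ⟨s, hs⟩ := hV p hpV
    refine ⟨max r s, ?_⟩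
    rintro q ⟨u, v, hu, hv, n₀, h⟩
    exact ⟨hr ⟨u, v, hu, hv, n₀, fun i hi j hj => (le_max_left _ _).trans (h i hi j hj)⟩,
      hs ⟨u, v, hu, hv, n₀, fun i hi j hj => (le_max_right _ _).trans (h i hi j hj)⟩⟩
  isOpen_sUnion := by
    rintro 𝒰 h𝒰 p ⟨U, hU, hp⟩
    obtain ⟨r, hr⟩ := h𝒰 U hU p hp
    exact ⟨r, hr.trans (subset_sUnion_of_mem hU)⟩

section wordMetric

variable {G : Type} [Group G]

theorem wordLength_le_of_list (S : Set G) (l : List G) (hl : ∀ a ∈ l, a ∈ S ∨ a⁻¹ ∈ S) :
    wordLength S l.prod ≤ l.length :=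
  Nat.sInf_le ⟨l, rfl, hl, rfl⟩

theorem exists_list_of_mem_closure (S : Set G) {g : G} (hg : g ∈ Subgroup.closure S) :
    ∃ l : List G, (∀ a ∈ l, a ∈ S ∨ a⁻¹ ∈ S) ∧ l.prod = g := by
  have hg' : g ∈ Submonoid.closure (S ∪ S⁻¹) := by
    rw [← Subgroup.closure_toSubmonoid]; exact hg
  obtain ⟨l, hl, hprod⟩ := Submonoid.exists_list_of_mem_closure hg'
  exact ⟨l, fun a ha => hl a ha, hprod⟩

theorem exists_list_length (S : Set G) (hS : Subgroup.closure S = ⊤) (g : G) :
    ∃ l : List G, l.length = wordLength S g ∧ (∀ a ∈ l, a ∈ S ∨ a⁻¹ ∈ S) ∧ l.prod = g := by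
  have hne : {n : ℕ | ∃ l : List G, l.length = n ∧ (∀ a ∈ l, a ∈ S ∨ a⁻¹ ∈ S) ∧
      l.prod = g}.Nonempty := by
    obtain ⟨l, hl, hp⟩ := exists_list_of_mem_closure S (g := g) (by rw [hS]; trivial)
    exact ⟨l.length, l, rfl, hl, hp⟩
  exact Nat.sInf_mem hne

theorem wordLength_one (S : Set G) : wordLength S (1 : G) = 0 := by
  have := wordLength_le_of_list S ([] : List G) (by simp)
  simpa using this

theorem wordLength_mul_le (S : Set G) (hS : Subgroup.closure S = ⊤) (g h : G) :
    wordLength S (g * h) ≤ wordLength S g + wordLength S h := by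
  obtain ⟨l, hl, hl', rfl⟩ := exists_list_length S hS g
  obtain ⟨m, hm, hm', rfl⟩ := exists_list_length S hS h
  rw [← List.prod_append, ← hl, ← hm, ← List.length_append]
  apply wordLength_le_of_list
  intro a ha
  rcases List.mem_append.1 ha with h | h
  · exact hl' a h
  · exact hm' a h

theorem wordLength_inv_le (S : Set G) (hS : Subgroup.closure S = ⊤) (g : G) :
    wordLength S g⁻¹ ≤ wordLength S g := by
  obtain ⟨l, hl, hl', rfl⟩ := exists_list_length S hS g
  rw [List.prod_inv_reverse, ← hl]
  have := wordLength_le_of_list S (l.map (fun x => x⁻¹)).reverse (by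
    intro a ha
    rw [List.mem_reverse, List.mem_map] at ha
    obtain ⟨b, hb, rfl⟩ := ha
    rw [inv_inv]
    exact (hl' b hb).symm)
  simpa using this

theorem wordLength_inv (S : Set G) (hS : Subgroup.closure S = ⊤) (g : G) :
    wordLength S g⁻¹ = wordLength S g :=
  le_antisymm (wordLength_inv_le S hS g) (by
    have := wordLength_inv_le S hS g⁻¹
    rwa [inv_inv] at this)

theorem eq_one_of_wordLength_eq_zero (S : Set G) (hS : Subgroup.closure S = ⊤) {g : G}
    (h : wordLength S g = 0) : g = 1 := by
  obtain ⟨l, hl, hl', rfl⟩ := exists_list_length S hS g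
  rw [h, List.length_eq_zero_iff] at hl
  rw [hl]; rfl

/-- From the identity one reaches `g` by a path with `wordLength S g` edges. -/
theorem wordDist_nonneg (S : Set G) (x y : G) : 0 ≤ wordDist S x y := by
  unfold wordDist; positivity

theorem wordDist_self (S : Set G) (x : G) : wordDist S x x = 0 := by
  simp [wordDist, wordLength_one]

theorem wordDist_comm (S : Set G) (hS : Subgroup.closure S = ⊤) (x y : G) :
    wordDist S x y = wordDist S y x := by
  unfold wordDist
  rw [← wordLength_inv S hS]
  simp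

theorem wordDist_triangle (S : Set G) (hS : Subgroup.closure S = ⊤) (x y z : G) :
    wordDist S x z ≤ wordDist S x y + wordDist S y z := by
  unfold wordDist
  have := wordLength_mul_le S hS (x⁻¹ * y) (y⁻¹ * z)
  rw [show x⁻¹ * y * (y⁻¹ * z) = x⁻¹ * z by group] at this
  exact_mod_cast this

theorem wordDist_mul_left (S : Set G) (g x y : G) :
    wordDist S (g * x) (g * y) = wordDist S x y := by
  unfold wordDist
  rw [show (g * x)⁻¹ * (g * y) = x⁻¹ * y by group]

theorem gromovProduct_mul_left (S : Set G) (g w x y : G) :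
    gromovProduct S (g * w) (g * x) (g * y) = gromovProduct S w x y := by
  unfold gromovProduct
  simp only [wordDist_mul_left]

theorem gromovProduct_comm (S : Set G) (hS : Subgroup.closure S = ⊤) (w x y : G) :
    gromovProduct S w x y = gromovProduct S w y x := by
  unfold gromovProduct
  rw [wordDist_comm S hS x y]
  ring

theorem gromovProduct_nonneg (S : Set G) (hS : Subgroup.closure S = ⊤) (w x y : G) :
    0 ≤ gromovProduct S w x y := by
  unfold gromovProduct
  have h1 := wordDist_triangle S hS x w y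
  have h2 := wordDist_comm S hS w y
  linarith

/-- Changing the base point changes the Gromov product by at most the distance. -/
theorem gromovProduct_base (S : Set G) (hS : Subgroup.closure S = ⊤) (w w' x y : G) :
    gromovProduct S w x y ≤ gromovProduct S w' x y + wordDist S w w' := by
  unfold gromovProduct
  have h1 := wordDist_triangle S hS x w' w
  have h2 := wordDist_triangle S hS y w' w
  have h3 := wordDist_comm S hS w w'
  linarith

theorem convergesAtInfinity_mul (S : GenSet G) (g : G) {u : ℕ → G}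
    (hu : ConvergesAtInfinity S u) : ConvergesAtInfinity S (fun n => g * u n) := by
  intro N
  obtain ⟨n₀, h⟩ := hu (N + wordDist (S.1 : Set G) 1 g⁻¹)
  refine ⟨n₀, fun i hi j hj => ?_⟩
  have h1 := h i hi j hj
  have h2 := gromovProduct_base (S.1 : Set G) S.2 1 g⁻¹ (u i) (u j)
  have h3 := gromovProduct_mul_left (S.1 : Set G) g g⁻¹ (u i) (u j)
  rw [mul_inv_cancel] at h3
  show N ≤ gromovProduct (S.1 : Set G) 1 (g * u i) (g * u j)
  rw [h3]
  linarith

theorem equivAtInfinity_mul (S : GenSet G) (g : G)
    (u v : {u : ℕ → G // ConvergesAtInfinity S u}) (h : EquivAtInfinity S u v) :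
    EquivAtInfinity S ⟨fun n => g * u.1 n, convergesAtInfinity_mul S g u.2⟩
      ⟨fun n => g * v.1 n, convergesAtInfinity_mul S g v.2⟩ := by
  intro N
  obtain ⟨n₀, h⟩ := h (N + wordDist (S.1 : Set G) 1 g⁻¹)
  refine ⟨n₀, fun i hi j hj => ?_⟩
  have h1 := h i hi j hj
  have h2 := gromovProduct_base (S.1 : Set G) S.2 1 g⁻¹ (u.1 i) (v.1 j)
  have h3 := gromovProduct_mul_left (S.1 : Set G) g g⁻¹ (u.1 i) (v.1 j)
  rw [mul_inv_cancel] at h3
  show N ≤ gromovProduct (S.1 : Set G) 1 (g * u.1 i) (g * v.1 j)
  rw [h3]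
  linarith

end wordMetric

/-- The natural action of `G` on its Gromov boundary: `g • [u] = [g * u]`. -/
def GromovBoundary.act {G : Type} [Group G] {S : GenSet G} (g : G) (p : GromovBoundary S) :
    GromovBoundary S :=
  Quot.map (fun u : {u : ℕ → G // ConvergesAtInfinity S u} =>
    ⟨fun n => g * u.1 n, convergesAtInfinity_mul S g u.2⟩)
    (fun u v h => equivAtInfinity_mul S g u v h) p

/-- A group is hyperbolic if it has a finite generating set whose word metric is Gromov
hyperbolic. -/
def IsHyperbolicGroup (G : Type) [Group G] : Prop :=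
  ∃ S : GenSet G, IsGromovHyperbolic (S.1 : Set G)

/-! ### `EZ`-structures -/

/-- Euclidean retracts: compact spaces that embed in some Euclidean space as a retract. -/
def IsEuclideanRetract (X : Type) [TopologicalSpace X] : Prop :=
  CompactSpace X ∧ ∃ (n : ℕ) (i : X → EuclideanSpace ℝ (Fin n)), Topology.IsEmbedding i ∧
    ∃ r : EuclideanSpace ℝ (Fin n) → X, Continuous r ∧ ∀ x, r (i x) = x

/-- `Z`-sets: closed subsets `Z` such that `U \ Z ↪ U` is a homotopy equivalence for every
open `U`. -/
def IsZSet {X : Type} [TopologicalSpace X] (Z : Set X) : Prop :=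
  IsClosed Z ∧ ∀ U : Set X, IsOpen U →
    ∃ e : ContinuousMap.HomotopyEquiv (U \ Z : Set X) U, ∀ x, (e.toFun x : X) = x

/-- An `EZ`-structure on the group `G`. Here `carrier` is the compactified space and `bdry`
is the `EZ`-boundary. -/
structure EZStructure (G : Type) [Group G] where
  /-- the compact space -/
  carrier : Type
  [metric : MetricSpace carrier]
  [action : MulAction G carrier]
  /-- `G` acts by homeomorphisms -/
  [cont : ContinuousConstSMul G carrier]
  /-- the boundary -/
  bdry : Set carrier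
  isER : IsEuclideanRetract carrier
  isZSet : IsZSet bdry
  smul_mem : ∀ (g : G) (x : carrier), g • x ∈ bdry ↔ x ∈ bdry
  /-- the action on the complement of the boundary is a covering space action -/
  covering : ∀ x ∉ bdry, ∃ U : Set carrier, IsOpen U ∧ x ∈ U ∧ Disjoint U bdry ∧
    ∀ g h : G, g ≠ h → Disjoint ((fun y => g • y) '' U) ((fun y => h • y) '' U)
  /-- the quotient of the complement of the boundary is compact -/
  cocompact : CompactSpace (Quot (fun x y : (bdryᶜ : Set carrier) =>
    ∃ g : G, (y : carrier) = g • (x : carrier)))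
  /-- translates of compact sets form a null family -/
  null : ∀ K : Set carrier, IsCompact K → K ⊆ bdryᶜ → ∀ ε : ℝ, 0 < ε →
    {g : G | ε < Metric.diam ((fun y => g • y) '' K)}.Finite

attribute [instance] EZStructure.metric EZStructure.action EZStructure.cont

/-- The action of `G` on the boundary of an `EZ`-structure. -/
def EZStructure.act {G : Type} [Group G] (E : EZStructure G) (g : G) (z : E.bdry) : E.bdry :=
  ⟨g • z.1, (E.smul_mem g z.1).2 z.2⟩

end Pool.Agent.Helper56.EZ
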