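import Mathlib

set_option autoImplicit false

open Matrix

namespace Pool.Agent.Helper56.EZ

/-- The matrix of the quaternion `x + y i + z j + w k` in the quaternion algebra
`(3, 7)` over `ℚ`, split over `ℝ` with `i = diag(√3, -√3)`. -/
noncomputable def quatMat (x y z w : ℤ) : Matrix (Fin 2) (Fin 2) ℝ :=
  !![(x : ℝ) + y * √3, (z : ℝ) + w * √3; 7 * ((z : ℝ) - w * √3), (x : ℝ) - y * √3]

theorem quatMat_det (x y z w : ℤ) :
    (quatMat x y z w).det = ((x ^ 2 - 3 * y ^ 2 - 7 * z ^ 2 + 21 * w ^ 2 : ℤ) : ℝ) := by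
  have h3 : √3 * √3 = (3 : ℝ) := Real.mul_self_sqrt (by norm_num)
  simp only [quatMat, Matrix.det_fin_two_of]
  push_cast
  linear_combination (-(y : ℝ) ^ 2 + 7 * (w : ℝ) ^ 2) * h3

theorem quatMat_mul (x y z w x' y' z' w' : ℤ) :
    quatMat x y z w * quatMat x' y' z' w' =
      quatMat (x * x' + 3 * y * y' + 7 * z * z' - 21 * w * w')
        (x * y' + y * x' - 7 * z * w' + 7 * w * z')
        (x * z' + 3 * y * w' + z * x' - 3 * w * y')
        (x * w' + y * z' - z * y' + w * x') := by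
  have h3 : √3 * √3 = (3 : ℝ) := Real.mul_self_sqrt (by norm_num)
  ext i j
  fin_cases i <;> fin_cases j <;>
    simp [quatMat, Matrix.mul_apply, Fin.sum_univ_two]
  · linear_combination ((y : ℝ) * y' - 7 * w * w') * h3
  · linear_combination ((y : ℝ) * w' - w * y') * h3
  · linear_combination (7 * (y : ℝ) * w' - 7 * w * y') * h3
  · linear_combination ((y : ℝ) * y' - 7 * w * w') * h3

theorem quatMat_inj {x y z w x' y' z' w' : ℤ}
    (h : quatMat x y z w = quatMat x' y' z' w') : x = x' ∧ y = y' ∧ z = z' ∧ w = w' := by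
  have h3 : (0 : ℝ) < √3 := Real.sqrt_pos.2 (by norm_num)
  have h00 : (x : ℝ) + y * √3 = x' + y' * √3 := by
    simpa [quatMat] using congrFun (congrFun h 0) 0
  have h01 : (z : ℝ) + w * √3 = z' + w' * √3 := by
    simpa [quatMat] using congrFun (congrFun h 0) 1
  have h10 : (z : ℝ) - w * √3 = z' - w' * √3 := by
    simpa [quatMat] using congrFun (congrFun h 1) 0
  have h11 : (x : ℝ) - y * √3 = x' - y' * √3 := by
    simpa [quatMat] using congrFun (congrFun h 1) 1
  refine ⟨?_, ?_, ?_, ?_⟩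
  · exact_mod_cast (by linarith : (x : ℝ) = x')
  · have : (y : ℝ) * √3 = y' * √3 := by linarith
    exact_mod_cast mul_right_cancel₀ h3.ne' this
  · exact_mod_cast (by linarith : (z : ℝ) = z')
  · have : (w : ℝ) * √3 = w' * √3 := by linarith
    exact_mod_cast mul_right_cancel₀ h3.ne' this

theorem three_dvd_z {x y z w : ℤ} (hx : x % 3 = 1)
    (h : x ^ 2 - 3 * y ^ 2 - 7 * z ^ 2 + 21 * w ^ 2 = 1) : z % 3 = 0 := by
  have h1 : (x ^ 2 - 3 * y ^ 2 - 7 * z ^ 2 + 21 * w ^ 2) % 3 = (x ^ 2 - z ^ 2) % 3 := by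
    have : x ^ 2 - 3 * y ^ 2 - 7 * z ^ 2 + 21 * w ^ 2 =
        x ^ 2 - z ^ 2 + 3 * (-y ^ 2 - 2 * z ^ 2 + 7 * w ^ 2) := by ring
    rw [this]; omega
  rw [h] at h1
  have h2 : (x ^ 2 - z ^ 2) % 3 = ((x % 3) ^ 2 - (z % 3) ^ 2) % 3 := by
    simp [Int.sub_emod, pow_two, Int.mul_emod]
  rw [h2, hx] at h1
  have h3 : z % 3 = 0 ∨ z % 3 = 1 ∨ z % 3 = 2 := by omega
  rcases h3 with h3 | h3 | h3
  · exact h3
  · rw [h3] at h1; norm_num at h1
  · rw [h3] at h1; norm_num at h1

/-- The group of quaternions `x + y i + z j + w k` with integer coordinates, norm one and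
`x ≡ 1 mod 3`, as a subgroup of `SL(2, ℝ)`. -/
noncomputable def quatGroup : Subgroup (SpecialLinearGroup (Fin 2) ℝ) where
  carrier := {A | ∃ x y z w : ℤ, x % 3 = 1 ∧ (A : Matrix (Fin 2) (Fin 2) ℝ) = quatMat x y z w}
  one_mem' := by
    refine ⟨1, 0, 0, 0, by norm_num, ?_⟩
    ext i j
    fin_cases i <;> fin_cases j <;> simp [quatMat]
  mul_mem' := by
    rintro A B ⟨x, y, z, w, hx, hA⟩ ⟨x', y', z', w', hx', hB⟩
    have hdA : x ^ 2 - 3 * y ^ 2 - 7 * z ^ 2 + 21 * w ^ 2 = 1 := by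
      have := A.det_coe
      rw [hA, quatMat_det] at this
      exact_mod_cast this
    have hz := three_dvd_z hx hdA
    refine ⟨x * x' + 3 * y * y' + 7 * z * z' - 21 * w * w',
      x * y' + y * x' - 7 * z * w' + 7 * w * z',
      x * z' + 3 * y * w' + z * x' - 3 * w * y',
      x * w' + y * z' - z * y' + w * x', ?_, ?_⟩
    · have h1 : (x * x' + 3 * y * y' + 7 * z * z' - 21 * w * w') =
          x * x' + 7 * (z * z') + 3 * (y * y' - 7 * (w * w')) := by ring
      have h2 : (x * x') % 3 = 1 := by rw [Int.mul_emod, hx, hx']; norm_num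
      have h3 : (z * z') % 3 = 0 := by rw [Int.mul_emod, hz]; simp
      rw [h1]
      omega
    · rw [← quatMat_mul, ← hA, ← hB]
      exact Matrix.SpecialLinearGroup.coe_mul A B
  inv_mem' := by
    rintro A ⟨x, y, z, w, hx, hA⟩
    refine ⟨x, -y, -z, -w, hx, ?_⟩
    have h1 : ((A⁻¹ : SpecialLinearGroup (Fin 2) ℝ) : Matrix (Fin 2) (Fin 2) ℝ) =
        (A : Matrix (Fin 2) (Fin 2) ℝ).adjugate := Matrix.SpecialLinearGroup.coe_inv A
    have h2 : (A : Matrix (Fin 2) (Fin 2) ℝ).adjugate = quatMat x (-y) (-z) (-w) := by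
      rw [hA]
      ext i j
      fin_cases i <;> fin_cases j <;>
        simp only [quatMat, Matrix.adjugate_fin_two, Fin.zero_eta, Fin.mk_one, Fin.isValue,
          of_apply, cons_val', cons_val_zero, cons_val_one, cons_val_fin_one, Int.cast_neg] <;>
        ring
    exact h1.trans h2

theorem mem_quatGroup {A : SpecialLinearGroup (Fin 2) ℝ} :
    A ∈ quatGroup ↔ ∃ x y z w : ℤ, x % 3 = 1 ∧
      (A : Matrix (Fin 2) (Fin 2) ℝ) = quatMat x y z w := Iff.rfl

end Pool.Agent.Helper56.EZ
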