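import Pool.Agent.Helper56.EZ.SFun2

set_option autoImplicit false

open Set Filter Topology

namespace Pool.Agent.Helper56.EZ

/-- Data for the blow up construction: a discrete cocompact torsion free subgroup of
`SL(2, ℝ)` in which every upper triangular element is diagonal, with weights. -/
structure FData where
  /-- the group -/
  Γ : Subgroup SL2
  fin : ∀ R : ℝ, {k : Γ | SL2.nrm (k : SL2) ≤ R}.Finite
  stab : ∀ k ∈ Γ, k.1 1 0 = 0 → k.1 0 1 = 0
  coc : ∃ M : ℝ, ∀ A : SL2, ∃ k ∈ Γ, (k * A).nrm ≤ M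
  tr : ∀ k ∈ Γ, k ≠ 1 → 4 < (k.1 0 0 + k.1 1 1) ^ 2
  /-- weights -/
  c : Γ → ℝ
  c_pos : ∀ h, 0 < c h
  c_sum : Summable c
  c_tsum : ∑' h, c h ≤ 1 / 2
  cs_sum : Summable fun h => c h * slopeC ((h : SL2)⁻¹)
  cs_tsum : ∑' h, c h * slopeC ((h : SL2)⁻¹) ≤ 1 / 2

namespace FData

variable (F : FData)

/-- the map of the disc to the product -/
noncomputable def iota (ζ : ℂ) : ℂ × (F.Γ → ℝ) := (ζ, fun h => ss ((h : SL2)⁻¹) ζ)

theorem continuousOn_iota : ContinuousOn F.iota (Metric.ball 0 1) := by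
  apply continuousOn_id.prodMk
  rw [continuousOn_pi]
  intro h
  exact continuousOn_ss _

/-- the compactified space -/
def Xhat : Set (ℂ × (F.Γ → ℝ)) := closure (F.iota '' Metric.ball 0 1)

theorem Xhat_subset : F.Xhat ⊆ Metric.closedBall 0 1 ×ˢ (Set.univ.pi fun _ => Icc 0 1) := by
  apply closure_minimal
  · rintro _ ⟨ζ, hζ, rfl⟩
    exact ⟨Metric.ball_subset_closedBall hζ, fun h _ => ss_mem_Icc _ _⟩
  · exact Metric.isClosed_closedBall.prod (isClosed_set_pi fun _ _ => isClosed_Icc)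

theorem isCompact_Xhat : IsCompact F.Xhat :=
  ((isCompact_closedBall _ _).prod (isCompact_univ_pi fun _ => isCompact_Icc)).of_isClosed_subset
    isClosed_closure F.Xhat_subset

theorem norm_le {x : ℂ × (F.Γ → ℝ)} (hx : x ∈ F.Xhat) : ‖x.1‖ ≤ 1 := by
  simpa using (F.Xhat_subset hx).1

theorem snd_mem {x : ℂ × (F.Γ → ℝ)} (hx : x ∈ F.Xhat) (h : F.Γ) : x.2 h ∈ Icc (0 : ℝ) 1 :=
  (F.Xhat_subset hx).2 h trivial

/-- approximation of the points of `Xhat` -/
theorem approx {x : ℂ × (F.Γ → ℝ)} (hx : x ∈ F.Xhat) :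
    ∃ l : Filter ℂ, l.NeBot ∧ l ≤ 𝓝[Metric.ball 0 1] x.1 ∧
      ∀ h : F.Γ, Tendsto (ss ((h : SL2)⁻¹)) l (𝓝 (x.2 h)) := by
  let l : Filter ℂ := comap F.iota (𝓝 x) ⊓ 𝓟 (Metric.ball 0 1)
  have hne : l.NeBot := by
    rw [Filter.inf_principal_neBot_iff]
    intro U hU
    obtain ⟨V, hV, hVU⟩ := mem_comap.1 hU
    obtain ⟨_, hyV, ⟨ζ, hζ, rfl⟩⟩ := mem_closure_iff_nhds.1 hx V hV
    exact ⟨ζ, hVU hyV, hζ⟩
  have ht : Tendsto F.iota l (𝓝 x) := tendsto_comap.mono_left inf_le_left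
  refine ⟨l, hne, ?_, ?_⟩
  · rw [nhdsWithin]
    apply le_inf
    · have h1 : Tendsto (fun ζ => (F.iota ζ).1) l (𝓝 x.1) := (continuous_fst.tendsto x).comp ht
      exact h1
    · exact inf_le_right
  · intro h
    have h1 : Tendsto (fun ζ => (F.iota ζ).2 h) l (𝓝 (x.2 h)) :=
      (((continuous_apply h).comp continuous_snd).tendsto x).comp ht
    exact h1

theorem iota_mem {ζ : ℂ} (hζ : ‖ζ‖ < 1) : F.iota ζ ∈ F.Xhat :=
  subset_closure ⟨ζ, by simpa using hζ, rfl⟩

theorem eq_iota {x : ℂ × (F.Γ → ℝ)} (hx : x ∈ F.Xhat) (h1 : ‖x.1‖ < 1) : x = F.iota x.1 := by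
  obtain ⟨l, hne, hl, hl'⟩ := F.approx hx
  apply Prod.ext
  · rfl
  · funext h
    have hc : Tendsto (ss ((h : SL2)⁻¹)) (𝓝[Metric.ball 0 1] x.1)
        (𝓝 (ss ((h : SL2)⁻¹) x.1)) := continuousOn_ss _ x.1 (by simpa using h1)
    exact tendsto_nhds_unique (hl' h) (hc.mono_left hl)

/-- at boundary points where the coordinate is continuous -/
theorem tendsto_of_rr {x : ℂ × (F.Γ → ℝ)} (hx : x ∈ F.Xhat) (h1 : ‖x.1‖ = 1) {h : F.Γ}
    (hr : rr ((h : SL2)⁻¹) x.1 ≠ 0) :
    Tendsto (ss ((h : SL2)⁻¹)) (𝓝[Metric.ball 0 1] x.1) (𝓝 (x.2 h)) := by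
  obtain ⟨ℓ, hℓ⟩ := ss_boundary_limit _ h1 hr
  obtain ⟨l, hne, hl, hl'⟩ := F.approx hx
  rwa [tendsto_nhds_unique (hl' h) (hℓ.mono_left hl)]

theorem diag_rel {x : ℂ × (F.Γ → ℝ)} (hx : x ∈ F.Xhat) (h h' : F.Γ)
    (h10 : ((h : SL2)⁻¹ * (h' : SL2)).1 1 0 = 0) :
    x.2 h * (x.2 h' + ((h : SL2)⁻¹ * (h' : SL2)).1 1 1 ^ 2 * (1 - x.2 h')) = x.2 h' := by
  have hmem : (h : SL2)⁻¹ * (h' : SL2) ∈ F.Γ := F.Γ.mul_mem (F.Γ.inv_mem h.2) h'.2
  have h01 := F.stab _ hmem h10
  have hcl : IsClosed {x : ℂ × (F.Γ → ℝ) |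
      x.2 h * (x.2 h' + ((h : SL2)⁻¹ * (h' : SL2)).1 1 1 ^ 2 * (1 - x.2 h')) = x.2 h'} := by
    apply isClosed_eq <;> fun_prop
  have hsub : F.iota '' Metric.ball 0 1 ⊆ {x : ℂ × (F.Γ → ℝ) |
      x.2 h * (x.2 h' + ((h : SL2)⁻¹ * (h' : SL2)).1 1 1 ^ 2 * (1 - x.2 h')) = x.2 h'} := by
    rintro _ ⟨ζ, hζ, rfl⟩
    have := ss_diag ((h : SL2)⁻¹ * (h' : SL2)) ((h' : SL2)⁻¹) h01 h10 (ζ := ζ)
      (by simpa using hζ)
    rw [mul_assoc, mul_inv_cancel, mul_one] at this
    exact this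
  exact closure_minimal hsub hcl hx

theorem rr_zero_diag {ζ : ℂ} (hζ : ‖ζ‖ = 1) {A B : SL2} (hA : rr A ζ = 0) (hB : rr B ζ = 0) :
    (A * B⁻¹).1 1 0 = 0 := by
  have hd := disc_eq B ζ
  have hns : Complex.normSq ζ = 1 := by rw [Complex.normSq_eq_norm_sq, hζ]; norm_num
  rw [hB, hns] at hd
  have hq : qq B ζ = 0 := by
    have : qq B ζ ^ 2 = 0 := by linarith
    exact pow_eq_zero_iff (two_ne_zero) |>.1 this
  have hp : 0 < pp B ζ := by
    have := trace_pos B hζ.le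
    rw [hB] at this
    linarith
  have h1 := rr_mul (A * B⁻¹) B ζ
  rw [mul_assoc, inv_mul_cancel, mul_one, hA, hB, hq] at h1
  have h2 : (A * B⁻¹).1 1 0 ^ 2 * pp B ζ = 0 := by linarith
  have h3 : (A * B⁻¹).1 1 0 ^ 2 = 0 := by
    rcases mul_eq_zero.1 h2 with h | h
    · exact h
    · exact absurd h hp.ne'
  exact pow_eq_zero_iff (two_ne_zero) |>.1 h3

/-- the weighted sum -/
noncomputable def phi (x : ℂ × (F.Γ → ℝ)) : ℝ := ∑' h, F.c h * x.2 h

theorem summable_phi {x : ℂ × (F.Γ → ℝ)} (hx : ∀ h, x.2 h ∈ Icc (0 : ℝ) 1) :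
    Summable fun h => F.c h * x.2 h := by
  apply Summable.of_nonneg_of_le _ _ F.c_sum
  · intro h; exact mul_nonneg (F.c_pos h).le (hx h).1
  · intro h; exact mul_le_of_le_one_right (F.c_pos h).le (hx h).2

theorem phi_mem {x : ℂ × (F.Γ → ℝ)} (hx : ∀ h, x.2 h ∈ Icc (0 : ℝ) 1) :
    F.phi x ∈ Icc (0 : ℝ) (1 / 2) := by
  constructor
  · exact tsum_nonneg fun h => mul_nonneg (F.c_pos h).le (hx h).1
  · exact ((F.summable_phi hx).tsum_le_tsum (fun h => mul_le_of_le_one_right (F.c_pos h).le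
      (hx h).2) F.c_sum).trans F.c_tsum

/-- general dominated convergence for `phi` -/
theorem tendsto_phi {α : Type} {l : Filter α} {f : α → F.Γ → ℝ} {g : F.Γ → ℝ}
    (hf : ∀ a h, f a h ∈ Icc (0 : ℝ) 1) (hl : ∀ h, Tendsto (fun a => f a h) l (𝓝 (g h))) :
    Tendsto (fun a => ∑' h, F.c h * f a h) l (𝓝 (∑' h, F.c h * g h)) := by
  apply tendsto_tsum_of_dominated_convergence F.c_sum
  · intro h; exact (hl h).const_mul _
  · apply Eventually.of_forall
    intro a h
    rw [Real.norm_eq_abs, abs_of_nonneg (mul_nonneg (F.c_pos h).le (hf a h).1)]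
    exact mul_le_of_le_one_right (F.c_pos h).le (hf a h).2

/-- fibres of the first projection are separated by `phi` -/
theorem eq_of_phi_eq {x x' : ℂ × (F.Γ → ℝ)} (hx : x ∈ F.Xhat) (hx' : x' ∈ F.Xhat)
    (h1 : x.1 = x'.1) (h2 : F.phi x = F.phi x') : x = x' := by
  rcases lt_or_eq_of_le (F.norm_le hx) with hlt | heq
  · rw [F.eq_iota hx hlt, F.eq_iota hx' (by rw [← h1]; exact hlt), h1]
  · -- boundary point
    have hgood : ∀ h : F.Γ, rr ((h : SL2)⁻¹) x.1 ≠ 0 → x.2 h = x'.2 h := by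
      intro h hr
      have e1 := F.tendsto_of_rr hx heq hr
      have e2 := F.tendsto_of_rr hx' (by rw [← h1]; exact heq) (by rw [← h1]; exact hr)
      rw [← h1] at e2
      obtain ⟨l, hne, hl, -⟩ := F.approx hx
      have : (𝓝[Metric.ball 0 1] x.1).NeBot := NeBot.mono hne hl
      exact tendsto_nhds_unique e1 e2
    apply Prod.ext h1
    -- sign coherence
    have hsign : (∀ h, x.2 h ≤ x'.2 h) ∨ (∀ h, x'.2 h ≤ x.2 h) := by
      by_cases hbad : ∃ h₀ : F.Γ, rr ((h₀ : SL2)⁻¹) x.1 = 0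
      · obtain ⟨h₀, hh₀⟩ := hbad
        have key : ∀ (y y' : ℂ × (F.Γ → ℝ)), y ∈ F.Xhat → y' ∈ F.Xhat → y.1 = x.1 →
            y'.1 = x.1 → (∀ h : F.Γ, rr ((h : SL2)⁻¹) x.1 ≠ 0 → y.2 h = y'.2 h) →
            y.2 h₀ ≤ y'.2 h₀ → ∀ h, y.2 h ≤ y'.2 h := by
          intro y y' hy hy' hy1 hy1' hg hle h
          by_cases hr : rr ((h : SL2)⁻¹) x.1 = 0
          · have h10 := rr_zero_diag heq hr hh₀
            rw [inv_inv] at h10
            have r1 := F.diag_rel hy h h₀ h10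
            have r2 := F.diag_rel hy' h h₀ h10
            have hmem : (h : SL2)⁻¹ * (h₀ : SL2) ∈ F.Γ := F.Γ.mul_mem (F.Γ.inv_mem h.2) h₀.2
            have h01 := F.stab _ hmem h10
            have hdet := SL2.det_eq ((h : SL2)⁻¹ * (h₀ : SL2))
            rw [h01, h10] at hdet
            set d := ((h : SL2)⁻¹ * (h₀ : SL2)).1 1 1
            have hd : d ≠ 0 := fun h => by rw [h] at hdet; simp at hdet
            have hd2 : 0 < d ^ 2 := by positivity
            have b1 := F.snd_mem hy h₀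
            have b2 := F.snd_mem hy' h₀
            have b3 := F.snd_mem hy h
            have b4 := F.snd_mem hy' h
            set s := y.2 h₀
            set s' := y'.2 h₀
            set t := y.2 h
            set t' := y'.2 h
            -- denominators are positive
            have p1 : 0 < s + d ^ 2 * (1 - s) := by
              rcases lt_or_eq_of_le b1.2 with h | h
              · have := mul_pos hd2 (sub_pos.2 h)
                linarith [b1.1]
              · rw [h]; simp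
            have p2 : 0 < s' + d ^ 2 * (1 - s') := by
              rcases lt_or_eq_of_le b2.2 with h | h
              · have := mul_pos hd2 (sub_pos.2 h)
                linarith [b2.1]
              · rw [h]; simp
            by_contra hcon
            push Not at hcon
            have q1 : t' * ((s + d ^ 2 * (1 - s)) * (s' + d ^ 2 * (1 - s'))) <
                t * ((s + d ^ 2 * (1 - s)) * (s' + d ^ 2 * (1 - s'))) :=
              mul_lt_mul_of_pos_right hcon (mul_pos p1 p2)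
            have q2 : t * ((s + d ^ 2 * (1 - s)) * (s' + d ^ 2 * (1 - s'))) =
                s * (s' + d ^ 2 * (1 - s')) := by
              rw [← mul_assoc, r1]
            have q3 : t' * ((s + d ^ 2 * (1 - s)) * (s' + d ^ 2 * (1 - s'))) =
                s' * (s + d ^ 2 * (1 - s)) := by
              rw [mul_comm (s + d ^ 2 * (1 - s)), ← mul_assoc, r2]
            rw [q2, q3] at q1
            nlinarith
          · exact (hg h hr).le
        rcases le_total (x.2 h₀) (x'.2 h₀) with hle | hle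
        · exact Or.inl (key x x' hx hx' rfl h1.symm hgood hle)
        · exact Or.inr (key x' x hx' hx h1.symm rfl (fun h hr => (hgood h hr).symm) hle)
      · push Not at hbad
        exact Or.inl fun h => (hgood h (hbad h)).le
    have hkey : ∀ y y' : ℂ × (F.Γ → ℝ), y ∈ F.Xhat → y' ∈ F.Xhat → F.phi y = F.phi y' →
        (∀ h, y.2 h ≤ y'.2 h) → y.2 = y'.2 := by
      intro y y' hy hy' hphi hle
      have s1 := F.summable_phi (F.snd_mem hy)
      have s2 := F.summable_phi (F.snd_mem hy')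
      funext h
      by_contra hne
      have hlt : y.2 h < y'.2 h := lt_of_le_of_ne (hle h) hne
      have : F.phi y < F.phi y' :=
        s1.tsum_lt_tsum (fun k => mul_le_mul_of_nonneg_left (hle k) (F.c_pos k).le)
          (mul_lt_mul_of_pos_left hlt (F.c_pos h)) s2
      exact absurd hphi this.ne
    rcases hsign with h | h
    · exact hkey x x' hx hx' h2 h
    · exact (hkey x' x hx' hx h2.symm h).symm

end FData

end Pool.Agent.Helper56.EZ
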