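import Pool.Agent.Helper56.EZ.Blowup

set_option autoImplicit false

open Set Filter Topology

namespace Pool.Agent.Helper56.EZ

namespace FData

variable (F : FData)

/-- the function on the disc -/
noncomputable def ff (ζ : ℂ) : ℝ := ∑' h : F.Γ, F.c h * ss ((h : SL2)⁻¹) ζ

theorem phi_iota (ζ : ℂ) : F.phi (F.iota ζ) = F.ff ζ := rfl

theorem ff_mem (ζ : ℂ) : F.ff ζ ∈ Icc (0 : ℝ) (1 / 2) := by
  rw [← F.phi_iota]
  exact F.phi_mem fun h => ss_mem_Icc _ _

theorem summable_ff (ζ : ℂ) : Summable fun h : F.Γ => F.c h * ss ((h : SL2)⁻¹) ζ :=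
  F.summable_phi (x := F.iota ζ) fun h => ss_mem_Icc _ _

theorem continuousOn_ff : ContinuousOn F.ff (Metric.ball 0 1) := by
  intro ζ hζ
  exact F.tendsto_phi (fun a h => ss_mem_Icc _ _) fun h => continuousOn_ss _ ζ hζ

/-- angular monotonicity -/
theorem ff_slope {ρ : ℝ} (h0 : 0 ≤ ρ) (h1 : ρ < 1) {α β : ℝ} (hαβ : α ≤ β) :
    -(β - α) / 2 ≤ F.ff (pt ρ β) - F.ff (pt ρ α) := by
  have hterm : ∀ h : F.Γ, -(F.c h * slopeC ((h : SL2)⁻¹)) * (β - α) ≤
      F.c h * ss ((h : SL2)⁻¹) (pt ρ β) - F.c h * ss ((h : SL2)⁻¹) (pt ρ α) := by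
    intro h
    have hm := ss_slope ((h : SL2)⁻¹) h0 h1 hαβ
    have hm' : ss ((h : SL2)⁻¹) (pt ρ α) + slopeC ((h : SL2)⁻¹) * α ≤
      ss ((h : SL2)⁻¹) (pt ρ β) + slopeC ((h : SL2)⁻¹) * β := hm
    have := mul_le_mul_of_nonneg_left hm' (F.c_pos h).le
    linarith
  have hs1 : Summable fun h : F.Γ => -(F.c h * slopeC ((h : SL2)⁻¹)) * (β - α) :=
    F.cs_sum.neg.mul_right _
  have hs2 := (F.summable_ff (pt ρ β)).sub (F.summable_ff (pt ρ α))
  have h3 := hs1.tsum_le_tsum hterm hs2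
  rw [(F.summable_ff (pt ρ β)).tsum_sub (F.summable_ff (pt ρ α)), tsum_mul_right,
    tsum_neg] at h3
  have h4 := F.cs_tsum
  have h5 : -(β - α) / 2 ≤ -(∑' h, F.c h * slopeC ((h : SL2)⁻¹)) * (β - α) := by
    nlinarith
  exact h5.trans h3

/-- points of the circle at which all the coordinates are continuous -/
def Good (η : ℂ) : Prop := ∀ h : F.Γ, rr ((h : SL2)⁻¹) η ≠ 0

theorem good_limit {η : ℂ} (hη : ‖η‖ = 1) (hg : F.Good η) :
    ∃ ℓ : ℝ, Tendsto F.ff (𝓝[Metric.ball 0 1] η) (𝓝 ℓ) := by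
  choose ℓ hℓ using fun h : F.Γ => ss_boundary_limit _ hη (hg h)
  exact ⟨_, F.tendsto_phi (fun a h => ss_mem_Icc _ _) hℓ⟩

theorem countable_Γ : Countable F.Γ := by
  have h1 : (Set.univ : Set F.Γ) = ⋃ n : ℕ, {k : F.Γ | SL2.nrm (k : SL2) ≤ n} := by
    symm
    rw [eq_univ_iff_forall]
    intro k
    obtain ⟨n, hn⟩ := exists_nat_ge (SL2.nrm (k : SL2))
    exact mem_iUnion.2 ⟨n, hn⟩
  rw [← Set.countable_univ_iff, h1]
  exact Set.countable_iUnion fun n => (F.fin n).countable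

theorem pt_add_two_pi (ρ θ : ℝ) : pt ρ (θ + 2 * Real.pi) = pt ρ θ := by
  simp [pt, Real.cos_add_two_pi, Real.sin_add_two_pi]

theorem rr_pt_one (A : SL2) (θ : ℝ) :
    rr A (pt 1 θ) = 2 * (A.1 1 0 * Real.cos (θ / 2) + A.1 1 1 * Real.sin (θ / 2)) ^ 2 := by
  have h1 : Real.cos θ = 2 * Real.cos (θ / 2) ^ 2 - 1 := by
    rw [← Real.cos_two_mul]; congr 1; ring
  have h2 : Real.sin θ = 2 * Real.sin (θ / 2) * Real.cos (θ / 2) := by
    rw [← Real.sin_two_mul]; congr 1; ring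
  have h3 := Real.sin_sq_add_cos_sq (θ / 2)
  simp only [rr, pt, one_mul]
  rw [h1, h2]
  linear_combination (2 * A.1 1 1 ^ 2) * (-h3)

/-- between any two angles there is a good one -/
theorem exists_good {α β : ℝ} (h : α < β) : ∃ γ, α < γ ∧ γ < β ∧ F.Good (pt 1 γ) := by
  have hcount : ∀ A : SL2, {θ : ℝ | rr A (pt 1 θ) = 0}.Countable := by
    intro A
    -- nonconstant analytic function has countably many zeros
    set c := A.1 1 0
    set d := A.1 1 1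
    have hcd : c ≠ 0 ∨ d ≠ 0 := by
      by_contra hcon
      push Not at hcon
      have := A.det_eq
      rw [show A.1 1 0 = 0 from hcon.1, show A.1 1 1 = 0 from hcon.2] at this
      simp at this
    have hcdpos : 0 < c ^ 2 + d ^ 2 := by
      rcases hcd with h | h <;> positivity
    -- write `(c, d)` in polar form
    obtain ⟨φ, hφ⟩ : ∃ φ : ℝ, c = √(c ^ 2 + d ^ 2) * Real.cos φ ∧
        d = √(c ^ 2 + d ^ 2) * Real.sin φ := by
      refine ⟨Complex.arg ⟨c, d⟩, ?_⟩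
      have hz : (⟨c, d⟩ : ℂ) ≠ 0 := by
        intro h
        have h1 : c = 0 := congrArg Complex.re h
        have h2 : d = 0 := congrArg Complex.im h
        rcases hcd with h | h
        · exact h h1
        · exact h h2
      have hn : ‖(⟨c, d⟩ : ℂ)‖ = √(c ^ 2 + d ^ 2) := by
        rw [Complex.norm_def, Complex.normSq_mk]; congr 1; ring
      constructor
      · rw [Complex.cos_arg hz, hn]
        have : √(c ^ 2 + d ^ 2) ≠ 0 := (Real.sqrt_pos.2 hcdpos).ne'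
        field_simp
      · rw [Complex.sin_arg, hn]
        have : √(c ^ 2 + d ^ 2) ≠ 0 := (Real.sqrt_pos.2 hcdpos).ne'
        field_simp
    have hsub : {θ : ℝ | rr A (pt 1 θ) = 0} ⊆
        Set.range (fun n : ℤ => (2 * n + 1 : ℝ) * Real.pi + 2 * φ) := by
      intro θ hθ
      have h1 : rr A (pt 1 θ) = 0 := hθ
      rw [rr_pt_one] at h1
      have h2 : c * Real.cos (θ / 2) + d * Real.sin (θ / 2) = 0 := by
        have : (c * Real.cos (θ / 2) + d * Real.sin (θ / 2)) ^ 2 = 0 := by linarith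
        exact pow_eq_zero_iff two_ne_zero |>.1 this
      have h3 : √(c ^ 2 + d ^ 2) * Real.cos (θ / 2 - φ) = 0 := by
        rw [Real.cos_sub]
        linear_combination h2 - Real.cos (θ / 2) * hφ.1 - Real.sin (θ / 2) * hφ.2
      have h4 : Real.cos (θ / 2 - φ) = 0 := by
        rcases mul_eq_zero.1 h3 with h | h
        · exact absurd h (Real.sqrt_pos.2 hcdpos).ne'
        · exact h
      rw [Real.cos_eq_zero_iff] at h4
      obtain ⟨n, hn⟩ := h4
      refine ⟨n, ?_⟩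
      have h5 : (2 * (n : ℝ) + 1) * Real.pi + 2 * φ = θ := by linarith
      exact h5
    exact (Set.countable_range _).mono hsub
  have := F.countable_Γ
  have hbad : (⋃ h : F.Γ, {θ : ℝ | rr ((h : SL2)⁻¹) (pt 1 θ) = 0}).Countable :=
    Set.countable_iUnion fun h => hcount _
  obtain ⟨γ, hγ, h1, h2⟩ := (hbad.dense_compl ℝ).exists_between h
  refine ⟨γ, h1, h2, fun k hk => hγ ?_⟩
  exact mem_iUnion.2 ⟨k, hk⟩

theorem tendsto_phi_approx {x : ℂ × (F.Γ → ℝ)} {l : Filter ℂ}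
    (hl' : ∀ h : F.Γ, Tendsto (ss ((h : SL2)⁻¹)) l (𝓝 (x.2 h))) :
    Tendsto F.ff l (𝓝 (F.phi x)) :=
  F.tendsto_phi (fun a h => ss_mem_Icc _ _) hl'

/-- the local angle -/
noncomputable def ang (α : ℝ) (ζ : ℂ) : ℝ := α + Complex.arg (ζ * pt 1 (-α))

theorem pt_mul (ρ ρ' θ θ' : ℝ) : pt ρ θ * pt ρ' θ' = pt (ρ * ρ') (θ + θ') := by
  apply Complex.ext
  · simp only [pt, Complex.mul_re, Real.cos_add]; ring
  · simp only [pt, Complex.mul_im, Real.sin_add]; ring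

theorem pt_one_zero : pt 1 0 = 1 := by
  apply Complex.ext <;> simp [pt]

theorem eq_pt_arg (z : ℂ) : z = pt ‖z‖ (Complex.arg z) := by
  rw [pt_eq]
  exact (Complex.norm_mul_exp_arg_mul_I z).symm

theorem pt_ang (α : ℝ) (ζ : ℂ) : pt ‖ζ‖ (ang α ζ) = ζ := by
  have h1 : ζ * pt 1 (-α) = pt ‖ζ‖ (Complex.arg (ζ * pt 1 (-α))) := by
    conv_lhs => rw [eq_pt_arg (ζ * pt 1 (-α))]
    rw [norm_mul, norm_pt zero_le_one, mul_one]
  have h2 : pt ‖ζ‖ (ang α ζ) = pt ‖ζ‖ (Complex.arg (ζ * pt 1 (-α))) * pt 1 α := by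
    rw [pt_mul, mul_one]; congr 1; unfold ang; ring
  rw [h2, ← h1, mul_assoc, pt_mul]
  simp [pt_one_zero]

theorem tendsto_ang (α : ℝ) : Tendsto (ang α) (𝓝 (pt 1 α)) (𝓝 α) := by
  have h1 : ContinuousAt (fun ζ : ℂ => Complex.arg (ζ * pt 1 (-α))) (pt 1 α) := by
    apply ContinuousAt.comp (g := Complex.arg) (f := fun ζ : ℂ => ζ * pt 1 (-α))
    · apply Complex.continuousAt_arg
      rw [pt_mul]
      simp [pt_one_zero]
    · fun_prop
  have h2 := h1.tendsto.const_add α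
  have h3 : α + Complex.arg (pt 1 α * pt 1 (-α)) = α := by
    rw [pt_mul]; simp [pt_one_zero]
  rw [h3] at h2
  exact h2

/-- comparison at the boundary, left of a good angle -/
theorem compare_left {x : ℂ × (F.Γ → ℝ)} (hx : x ∈ F.Xhat) {α γ : ℝ} (hα : x.1 = pt 1 α)
    (hαγ : α < γ) {ℓ : ℝ} (hℓ : Tendsto F.ff (𝓝[Metric.ball 0 1] (pt 1 γ)) (𝓝 ℓ)) :
    -(γ - α) / 2 ≤ ℓ - F.phi x := by
  obtain ⟨l, hne, hl, hl'⟩ := F.approx hx
  have e1 := F.tendsto_phi_approx hl'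
  have hnorm : Tendsto (fun ζ : ℂ => ‖ζ‖) l (𝓝 1) := by
    have := (continuous_norm.tendsto x.1).mono_left (hl.trans nhdsWithin_le_nhds)
    rwa [hα, norm_pt zero_le_one] at this
  have hball : ∀ᶠ ζ in l, ‖ζ‖ < 1 := by
    have : Metric.ball (0 : ℂ) 1 ∈ l := hl self_mem_nhdsWithin
    filter_upwards [this] with ζ hζ
    simpa using hζ
  have hang : Tendsto (ang α) l (𝓝 α) := by
    have := tendsto_ang α
    rw [← hα] at this
    exact this.mono_left (hl.trans nhdsWithin_le_nhds)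
  have e2 : Tendsto (fun ζ : ℂ => F.ff (pt ‖ζ‖ γ)) l (𝓝 ℓ) := by
    apply hℓ.comp
    rw [tendsto_nhdsWithin_iff]
    constructor
    · have : Continuous fun ρ : ℝ => pt ρ γ := by
        simp only [pt_eq]; fun_prop
      exact (this.tendsto 1).comp hnorm
    · filter_upwards [hball] with ζ hζ
      rw [mem_ball_zero_iff, norm_pt (norm_nonneg _)]
      exact hζ
  have e3 : Tendsto (fun ζ : ℂ => -(γ - ang α ζ) / 2) l (𝓝 (-(γ - α) / 2)) :=
    ((tendsto_const_nhds.sub hang).neg).div_const 2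
  apply le_of_tendsto_of_tendsto e3 (e2.sub e1)
  filter_upwards [hball, hang.eventually (gt_mem_nhds hαγ)] with ζ h1 h2
  have := F.ff_slope (norm_nonneg ζ) h1 h2.le
  rwa [pt_ang] at this

theorem compare_right {x : ℂ × (F.Γ → ℝ)} (hx : x ∈ F.Xhat) {β γ : ℝ} (hβ : x.1 = pt 1 β)
    (hγβ : γ < β) {ℓ : ℝ} (hℓ : Tendsto F.ff (𝓝[Metric.ball 0 1] (pt 1 γ)) (𝓝 ℓ)) :
    -(β - γ) / 2 ≤ F.phi x - ℓ := by
  obtain ⟨l, hne, hl, hl'⟩ := F.approx hx
  have e1 := F.tendsto_phi_approx hl'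
  have hnorm : Tendsto (fun ζ : ℂ => ‖ζ‖) l (𝓝 1) := by
    have := (continuous_norm.tendsto x.1).mono_left (hl.trans nhdsWithin_le_nhds)
    rwa [hβ, norm_pt zero_le_one] at this
  have hball : ∀ᶠ ζ in l, ‖ζ‖ < 1 := by
    have : Metric.ball (0 : ℂ) 1 ∈ l := hl self_mem_nhdsWithin
    filter_upwards [this] with ζ hζ
    simpa using hζ
  have hang : Tendsto (ang β) l (𝓝 β) := by
    have := tendsto_ang β
    rw [← hβ] at this
    exact this.mono_left (hl.trans nhdsWithin_le_nhds)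
  have e2 : Tendsto (fun ζ : ℂ => F.ff (pt ‖ζ‖ γ)) l (𝓝 ℓ) := by
    apply hℓ.comp
    rw [tendsto_nhdsWithin_iff]
    constructor
    · have : Continuous fun ρ : ℝ => pt ρ γ := by
        simp only [pt_eq]; fun_prop
      exact (this.tendsto 1).comp hnorm
    · filter_upwards [hball] with ζ hζ
      rw [mem_ball_zero_iff, norm_pt (norm_nonneg _)]
      exact hζ
  have e3 : Tendsto (fun ζ : ℂ => -(ang β ζ - γ) / 2) l (𝓝 (-(β - γ) / 2)) :=
    ((hang.sub tendsto_const_nhds).neg).div_const 2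
  apply le_of_tendsto_of_tendsto e3 (e1.sub e2)
  filter_upwards [hball, hang.eventually (lt_mem_nhds hγβ)] with ζ h1 h2
  have := F.ff_slope (norm_nonneg ζ) h1 h2.le
  rwa [pt_ang] at this

/-- strict monotonicity of the new angle -/
theorem angle_lt {x x' : ℂ × (F.Γ → ℝ)} (hx : x ∈ F.Xhat) (hx' : x' ∈ F.Xhat) {ρ α β : ℝ}
    (hρ : 0 ≤ ρ) (hα : x.1 = pt ρ α) (hβ : x'.1 = pt ρ β) (hαβ : α < β) :
    α + F.phi x < β + F.phi x' := by
  have hρ1 : ρ ≤ 1 := by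
    have := F.norm_le hx
    rwa [hα, norm_pt hρ] at this
  rcases lt_or_eq_of_le hρ1 with hlt | heq
  · have e1 := F.eq_iota hx (by rw [hα, norm_pt hρ]; exact hlt)
    have e2 := F.eq_iota hx' (by rw [hβ, norm_pt hρ]; exact hlt)
    have h3 := F.ff_slope hρ hlt hαβ.le
    rw [e1, e2, phi_iota, phi_iota, hα, hβ]
    linarith
  · subst heq
    obtain ⟨γ, h1, h2, hg⟩ := F.exists_good hαβ
    obtain ⟨ℓ, hℓ⟩ := F.good_limit (norm_pt zero_le_one γ) hg
    have h3 := F.compare_left hx hα h1 hℓ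
    have h4 := F.compare_right hx' hβ h2 hℓ
    linarith

end FData

end Pool.Agent.Helper56.EZ
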