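import Pool.Agent.Helper56.EZ.Blowup2

set_option autoImplicit false

open Set Filter Topology

namespace Pool.Agent.Helper56.EZ

theorem continuous_pt : Continuous fun q : ℝ × ℝ => pt q.1 q.2 := by
  simp only [pt_eq]; fun_prop

theorem pt_add_int (ρ θ : ℝ) (n : ℤ) : pt ρ (θ + 2 * Real.pi * n) = pt ρ θ := by
  have h1 : Real.cos (θ + 2 * Real.pi * n) = Real.cos θ := by
    have := Real.cos_add_int_mul_two_pi θ n
    rwa [show (n : ℝ) * (2 * Real.pi) = 2 * Real.pi * n by ring] at this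
  have h2 : Real.sin (θ + 2 * Real.pi * n) = Real.sin θ := by
    have := Real.sin_add_int_mul_two_pi θ n
    rwa [show (n : ℝ) * (2 * Real.pi) = 2 * Real.pi * n by ring] at this
  simp only [pt, h1, h2]

theorem pt_eq_iff {ρ α β : ℝ} (hρ : 0 < ρ) (h : pt ρ α = pt ρ β) :
    ∃ n : ℤ, α = β + 2 * Real.pi * n := by
  rw [pt_eq, pt_eq] at h
  have h1 : (ρ : ℂ) ≠ 0 := by exact_mod_cast hρ.ne'
  have h2 := mul_left_cancel₀ h1 h
  rw [Complex.exp_eq_exp_iff_exists_int] at h2
  obtain ⟨n, hn⟩ := h2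
  refine ⟨n, ?_⟩
  have h3 : ((α : ℂ)) = β + 2 * Real.pi * n := by
    apply mul_right_cancel₀ Complex.I_ne_zero
    rw [hn]; ring
  exact_mod_cast h3

namespace FData

variable (F : FData)

/-- the map to the disc -/
noncomputable def psi (x : ℂ × (F.Γ → ℝ)) : ℂ := x.1 * pt 1 (F.phi x)

theorem norm_psi (x : ℂ × (F.Γ → ℝ)) : ‖F.psi x‖ = ‖x.1‖ := by
  rw [psi, norm_mul, norm_pt zero_le_one, mul_one]

theorem continuousOn_phi : ContinuousOn F.phi F.Xhat := by
  unfold phi
  apply continuousOn_tsum (u := F.c)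
  · intro h; fun_prop
  · exact F.c_sum
  · intro h x hx
    have := F.snd_mem hx h
    rw [Real.norm_eq_abs, abs_of_nonneg (mul_nonneg (F.c_pos h).le this.1)]
    exact mul_le_of_le_one_right (F.c_pos h).le this.2

theorem continuousOn_psi : ContinuousOn F.psi F.Xhat := by
  apply continuousOn_fst.mul
  have : Continuous fun θ : ℝ => pt 1 θ := by
    simp only [pt_eq]; fun_prop
  exact this.comp_continuousOn F.continuousOn_phi

theorem psi_injOn : Set.InjOn F.psi F.Xhat := by
  intro x hx x' hx' h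
  have hn : ‖x.1‖ = ‖x'.1‖ := by rw [← F.norm_psi, ← F.norm_psi, h]
  rcases (norm_nonneg x.1).eq_or_lt with h0 | h0
  · have h1 : x.1 = 0 := norm_eq_zero.1 h0.symm
    have h2 : x'.1 = 0 := norm_eq_zero.1 (hn ▸ h0.symm)
    rw [F.eq_iota hx (by rw [h1]; simp), F.eq_iota hx' (by rw [h2]; simp), h1, h2]
  · set ρ := ‖x.1‖ with hρ
    set α := Complex.arg x.1
    have e1 : x.1 = pt ρ α := eq_pt_arg x.1
    have e2 : x'.1 = pt ρ (Complex.arg x'.1) := by rw [hn]; exact eq_pt_arg x'.1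
    have h1 : pt ρ (α + F.phi x) = pt ρ (Complex.arg x'.1 + F.phi x') := by
      have : F.psi x = F.psi x' := h
      unfold psi at this
      rwa [e1, pt_mul, mul_one, e2, pt_mul, mul_one] at this
    obtain ⟨n, hn'⟩ := pt_eq_iff h0 h1
    set β := Complex.arg x'.1 + 2 * Real.pi * n with hβ
    have e3 : x'.1 = pt ρ β := by rw [hβ, pt_add_int]; exact e2
    have h2 : α + F.phi x = β + F.phi x' := by rw [hn']; ring
    rcases lt_trichotomy α β with hlt | heq | hgt
    · exact absurd h2 (F.angle_lt hx hx' h0.le e1 e3 hlt).ne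
    · apply F.eq_of_phi_eq hx hx'
      · rw [e1, e3, heq]
      · rw [heq] at h2; exact add_left_cancel h2
    · exact absurd h2.symm (F.angle_lt hx' hx h0.le e3 e1 hgt).ne

theorem psi_image : F.psi '' F.Xhat = Metric.closedBall 0 1 := by
  apply Subset.antisymm
  · rintro _ ⟨x, hx, rfl⟩
    rw [mem_closedBall_zero_iff, F.norm_psi]
    exact F.norm_le hx
  · have hcl : IsClosed (F.psi '' F.Xhat) :=
      (F.isCompact_Xhat.image_of_continuousOn F.continuousOn_psi).isClosed
    rw [← closure_ball (0 : ℂ) one_ne_zero]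
    apply closure_minimal _ hcl
    intro z hz
    rw [mem_ball_zero_iff] at hz
    set ρ := ‖z‖ with hρ
    set τ := Complex.arg z
    have hz' : z = pt ρ τ := eq_pt_arg z
    have hcont : Continuous fun θ : ℝ => θ + F.ff (pt ρ θ) := by
      apply continuous_id.add
      have h1 : ContinuousOn (fun θ : ℝ => F.ff (pt ρ θ)) Set.univ := by
        apply F.continuousOn_ff.comp
        · have : Continuous fun θ : ℝ => pt ρ θ := by simp only [pt_eq]; fun_prop
          exact this.continuousOn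
        · intro θ _
          rw [mem_ball_zero_iff, norm_pt (norm_nonneg z)]
          exact hz
      exact continuousOn_univ.1 h1
    obtain ⟨θ, -, hθ⟩ : τ ∈ (fun θ : ℝ => θ + F.ff (pt ρ θ)) '' Icc (τ - 1 / 2) τ := by
      apply intermediate_value_Icc (by linarith) hcont.continuousOn
      have h1 := F.ff_mem (pt ρ (τ - 1 / 2))
      have h2 := F.ff_mem (pt ρ τ)
      exact ⟨by linarith [h1.2], by linarith [h2.1]⟩
    have hn : ‖pt ρ θ‖ < 1 := by rw [norm_pt (norm_nonneg z)]; exact hz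
    refine ⟨F.iota (pt ρ θ), F.iota_mem hn, ?_⟩
    rw [psi, phi_iota]
    show pt ρ θ * pt 1 (F.ff (pt ρ θ)) = z
    rw [pt_mul, mul_one, hz']
    exact congrArg (pt ρ) hθ

/-- the compactified space as a type -/
def Car : Type := F.Xhat

instance : TopologicalSpace F.Car := inferInstanceAs (TopologicalSpace F.Xhat)

instance : CompactSpace F.Car := isCompact_iff_compactSpace.1 F.isCompact_Xhat

/-- the bijection onto the closed disc -/
noncomputable def psiEquiv : F.Car ≃ Metric.closedBall (0 : ℂ) 1 :=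
  Equiv.ofBijective (fun x : F.Xhat => ⟨F.psi x.1, by
      rw [← F.psi_image]; exact ⟨x.1, x.2, rfl⟩⟩) (by
    constructor
    · intro x x' h
      exact Subtype.ext (F.psi_injOn x.2 x'.2 (congrArg Subtype.val h))
    · intro z
      have hz : (z : ℂ) ∈ F.psi '' F.Xhat := by rw [F.psi_image]; exact z.2
      obtain ⟨x, hx, hxz⟩ := hz
      exact ⟨⟨x, hx⟩, Subtype.ext hxz⟩)

theorem psiEquiv_apply (x : F.Car) : ((F.psiEquiv x : Metric.closedBall (0 : ℂ) 1) : ℂ) =
    F.psi x.1 := rfl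

theorem continuous_psiEquiv : Continuous F.psiEquiv := by
  apply Continuous.subtype_mk
  exact continuousOn_iff_continuous_domRestrict.1 F.continuousOn_psi

/-- the homeomorphism onto the closed disc -/
noncomputable def psiHomeo : F.Car ≃ₜ Metric.closedBall (0 : ℂ) 1 :=
  F.continuous_psiEquiv.homeoOfEquivCompactToT2

theorem psiHomeo_apply (x : F.Car) : ((F.psiHomeo x : Metric.closedBall (0 : ℂ) 1) : ℂ) =
    F.psi x.1 := rfl

noncomputable instance instMetric : MetricSpace F.Car :=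
  F.psiHomeo.isEmbedding.comapMetricSpace F.psiHomeo

theorem dist_eq (x y : F.Car) : dist x y = dist (F.psi x.1) (F.psi y.1) := rfl

theorem top_eq : (inferInstance : TopologicalSpace F.Car) =
    (F.instMetric.toPseudoMetricSpace.toUniformSpace.toTopologicalSpace) := rfl

/-- the boundary -/
def Bdry : Set F.Car := {x | ‖x.1.1‖ = 1}

theorem bdry_eq : F.Bdry =
    {x : F.Car | ‖((F.psiHomeo x : Metric.closedBall (0 : ℂ) 1) : ℂ)‖ = 1} := by
  ext x
  show ‖x.1.1‖ = 1 ↔ ‖F.psi x.1‖ = 1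
  rw [F.norm_psi]

/-- action on the product -/
noncomputable def actP (k : F.Γ) (x : ℂ × (F.Γ → ℝ)) : ℂ × (F.Γ → ℝ) :=
  (mob (k : SL2) x.1, fun h => x.2 (k⁻¹ * h))

theorem actP_iota (k : F.Γ) {ζ : ℂ} (hζ : ‖ζ‖ < 1) :
    F.actP k (F.iota ζ) = F.iota (mob (k : SL2) ζ) := by
  apply Prod.ext
  · rfl
  · funext h
    show ss (((k⁻¹ * h : F.Γ) : SL2)⁻¹) ζ = ss ((h : SL2)⁻¹) (mob (k : SL2) ζ)
    rw [ss_mob _ _ hζ]
    congr 1
    push_cast
    group

theorem continuousOn_actP (k : F.Γ) : ContinuousOn (F.actP k) F.Xhat := by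
  have h1 : ContinuousOn (fun x : ℂ × (F.Γ → ℝ) => mob (k : SL2) x.1) F.Xhat := by
    apply (continuousOn_mob (k : SL2)).comp continuousOn_fst
    intro x hx
    rw [mem_closedBall_zero_iff]
    exact F.norm_le hx
  have h2 : Continuous (fun x : ℂ × (F.Γ → ℝ) => fun h : F.Γ => x.2 (k⁻¹ * h)) := by fun_prop
  exact h1.prodMk h2.continuousOn

theorem actP_mem (k : F.Γ) {x : ℂ × (F.Γ → ℝ)} (hx : x ∈ F.Xhat) : F.actP k x ∈ F.Xhat := by
  have hm : MapsTo (F.actP k) (F.iota '' Metric.ball 0 1) (F.iota '' Metric.ball 0 1) := by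
    rintro _ ⟨ζ, hζ, rfl⟩
    rw [mem_ball_zero_iff] at hζ
    refine ⟨mob (k : SL2) ζ, ?_, (F.actP_iota k hζ).symm⟩
    rw [mem_ball_zero_iff]
    exact norm_mob_lt _ hζ
  exact hm.closure_of_continuousOn (F.continuousOn_actP k) hx

noncomputable instance : MulAction F.Γ F.Car where
  smul k x := ⟨F.actP k x.1, F.actP_mem k x.2⟩
  one_smul x := by
    apply Subtype.ext
    apply Prod.ext
    · show mob ((1 : F.Γ) : SL2) x.1.1 = x.1.1
      rw [Subgroup.coe_one, mob_one]
    · funext h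
      show x.1.2 ((1 : F.Γ)⁻¹ * h) = x.1.2 h
      simp
  mul_smul k k' x := by
    apply Subtype.ext
    apply Prod.ext
    · show mob ((k * k' : F.Γ) : SL2) x.1.1 = mob (k : SL2) (mob (k' : SL2) x.1.1)
      rw [Subgroup.coe_mul, mob_mul _ _ (F.norm_le x.2)]
    · funext h
      show x.1.2 ((k * k')⁻¹ * h) = x.1.2 (k'⁻¹ * (k⁻¹ * h))
      rw [mul_inv_rev, mul_assoc]

theorem smul_val (k : F.Γ) (x : F.Car) : (k • x).1 = F.actP k x.1 := rfl

theorem smul_fst (k : F.Γ) (x : F.Car) : (k • x).1.1 = mob (k : SL2) x.1.1 := rfl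

theorem smul_snd (k : F.Γ) (x : F.Car) (h : F.Γ) : (k • x).1.2 h = x.1.2 (k⁻¹ * h) := rfl

instance : ContinuousConstSMul F.Γ F.Car where
  continuous_const_smul k := by
    show Continuous fun x : F.Xhat => (⟨F.actP k x.1, F.actP_mem k x.2⟩ : F.Xhat)
    apply Continuous.subtype_mk
    exact continuousOn_iff_continuous_domRestrict.1 (F.continuousOn_actP k)

theorem smul_mem_bdry (k : F.Γ) (x : F.Car) : k • x ∈ F.Bdry ↔ x ∈ F.Bdry := by
  have h : ∀ (k : F.Γ) (x : F.Car), x ∈ F.Bdry → k • x ∈ F.Bdry := by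
    intro k x hx
    exact norm_mob_eq _ hx
  refine ⟨fun hx => ?_, h k x⟩
  have := h k⁻¹ _ hx
  rwa [inv_smul_smul] at this

end FData

end Pool.Agent.Helper56.EZ
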