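import Pool.Agent.Helper56.EZ.Blowup3

set_option autoImplicit false

open Set Filter Topology

namespace Pool.Agent.Helper56.EZ

/-- elements of trace larger than two in absolute value have no fixed point in the disc -/
theorem mob_ne_self (A : SL2) (hA : 4 < (A.1 0 0 + A.1 1 1) ^ 2) {ζ : ℂ} (hζ : ‖ζ‖ < 1) :
    mob A ζ ≠ ζ := by
  intro h
  have hT := trace_pos A hζ.le
  have hD := disc_pos hζ
  have e1 : (pp A ζ - rr A ζ) / (pp A ζ + rr A ζ) = ζ.re := congrArg Complex.re h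
  have e2 : 2 * qq A ζ / (pp A ζ + rr A ζ) = ζ.im := congrArg Complex.im h
  rw [div_eq_iff hT.ne'] at e1 e2
  have h1 := disc_eq A ζ
  have hns : Complex.normSq ζ = ζ.re ^ 2 + ζ.im ^ 2 := by rw [Complex.normSq_apply]; ring
  set T := pp A ζ + rr A ζ with hTdef
  have hp : pp A ζ = T * (1 + ζ.re) / 2 := by linarith
  have hr : rr A ζ = T * (1 - ζ.re) / 2 := by linarith
  have hq : qq A ζ = T * ζ.im / 2 := by linarith
  have h2 : (T ^ 2 / 4 - 1) * (1 - Complex.normSq ζ) = 0 := by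
    rw [hp, hr, hq] at h1
    rw [hns] at h1 ⊢
    linear_combination h1
  have h3 : T ^ 2 / 4 - 1 = 0 := by
    rcases mul_eq_zero.1 h2 with h | h
    · exact h
    · exact absurd h hD.ne'
  have h4 : T = 2 := by nlinarith
  have h5 := displacement A 1 ζ
  rw [mul_one, pp_one, qq_one, rr_one] at h5
  rw [hp, hr, hq, h4] at h5
  unfold bb at h5
  rw [hns] at hD
  nlinarith [sq_nonneg (A.1 1 0 * (1 + ζ.re) + (A.1 1 1 - A.1 0 0) * ζ.im
    - A.1 0 1 * (1 - ζ.re))]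

/-- if a matrix maps a point of the disc of radius `ρ` into this disc then its entries are
bounded -/
theorem nrm_sq_le (A : SL2) {ρ : ℝ} (hρ : ρ < 1) {ζ : ℂ} (h1 : ‖ζ‖ ≤ ρ)
    (h2 : ‖mob A ζ‖ ≤ ρ) : A.nrm ^ 2 * ((1 - ρ) ^ 2 * (1 - ρ ^ 2)) ≤ 4 := by
  have h0 : 0 ≤ ρ := (norm_nonneg _).trans h1
  have hT := trace_ge A ζ
  have e := one_sub_normSq_mob A (h1.trans hρ.le)
  have hTp := trace_pos A (h1.trans hρ.le)
  set T := pp A ζ + rr A ζ
  rw [Complex.normSq_eq_norm_sq, Complex.normSq_eq_norm_sq] at e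
  have h3 : (1 - ‖mob A ζ‖ ^ 2) * T ^ 2 = 4 * (1 - ‖ζ‖ ^ 2) := by
    rw [e]; field_simp
  have h4 : 1 - ρ ^ 2 ≤ 1 - ‖mob A ζ‖ ^ 2 := by nlinarith [norm_nonneg (mob A ζ)]
  have h5 : A.nrm * (1 - ρ) ≤ T := by
    have := mul_le_mul_of_nonneg_left (sub_le_sub_left h1 1) A.nrm_pos.le
    linarith
  have h6 : 0 ≤ A.nrm * (1 - ρ) := mul_nonneg A.nrm_pos.le (by linarith)
  have h7 : (A.nrm * (1 - ρ)) ^ 2 ≤ T ^ 2 := pow_le_pow_left₀ h6 h5 2
  have h8 : 0 ≤ 1 - ρ ^ 2 := by nlinarith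
  have h9 : (A.nrm * (1 - ρ)) ^ 2 * (1 - ρ ^ 2) ≤ T ^ 2 * (1 - ‖mob A ζ‖ ^ 2) :=
    mul_le_mul h7 h4 h8 (by positivity)
  have h10 : 4 * (1 - ‖ζ‖ ^ 2) ≤ 4 := by nlinarith [norm_nonneg ζ]
  nlinarith

/-- the action of a matrix contracts -/
theorem dist_mob_sq_le (A : SL2) {ρ : ℝ} (hρ : ρ < 1) {ζ ζ' : ℂ} (h1 : ‖ζ‖ ≤ ρ)
    (h2 : ‖ζ'‖ ≤ ρ) : ‖mob A ζ - mob A ζ'‖ ≤ 4 / (A.nrm * (1 - ρ)) := by
  have h0 : 0 ≤ ρ := (norm_nonneg _).trans h1
  have hpos : 0 < A.nrm * (1 - ρ) := mul_pos A.nrm_pos (by linarith)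
  have hT : A.nrm * (1 - ρ) ≤ pp A ζ + rr A ζ := by
    have := mul_le_mul_of_nonneg_left (sub_le_sub_left h1 1) A.nrm_pos.le
    linarith [trace_ge A ζ]
  have hT' : A.nrm * (1 - ρ) ≤ pp A ζ' + rr A ζ' := by
    have := mul_le_mul_of_nonneg_left (sub_le_sub_left h2 1) A.nrm_pos.le
    linarith [trace_ge A ζ']
  have hm1 := norm_mob_le A (h1.trans hρ.le)
  have hm2 := norm_mob_le A (h2.trans hρ.le)
  have hb := bb_inv A ζ ζ'
  have e1 := mob_re A ζ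
  have e2 := mob_im A ζ
  have e1' := mob_re A ζ'
  have e2' := mob_im A ζ'
  set P := mob A ζ
  set P' := mob A ζ'
  set T := pp A ζ + rr A ζ with hTd
  set T' := pp A ζ' + rr A ζ' with hTd'
  have hTp : 0 < T := lt_of_lt_of_le hpos hT
  have hTp' : 0 < T' := lt_of_lt_of_le hpos hT'
  have key : (1 - P.re * P'.re - P.im * P'.im) * (T * T') =
      4 * (1 - ζ.re * ζ'.re - ζ.im * ζ'.im) := by
    rw [← hb]
    have f1 : P.re * T = pp A ζ - rr A ζ := by rw [e1]; field_simp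
    have f2 : P.im * T = 2 * qq A ζ := by rw [e2]; field_simp
    have f1' : P'.re * T' = pp A ζ' - rr A ζ' := by rw [e1']; field_simp
    have f2' : P'.im * T' = 2 * qq A ζ' := by rw [e2']; field_simp
    have : (1 - P.re * P'.re - P.im * P'.im) * (T * T') =
      T * T' - (P.re * T) * (P'.re * T') - (P.im * T) * (P'.im * T') := by ring
    rw [this, f1, f2, f1', f2', hTd, hTd']
    unfold bb
    ring
  have hn1 : ‖P‖ ^ 2 = P.re ^ 2 + P.im ^ 2 := by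
    rw [← Complex.normSq_eq_norm_sq, Complex.normSq_apply]; ring
  have hn2 : ‖P'‖ ^ 2 = P'.re ^ 2 + P'.im ^ 2 := by
    rw [← Complex.normSq_eq_norm_sq, Complex.normSq_apply]; ring
  have hn3 : ‖P - P'‖ ^ 2 = (P.re - P'.re) ^ 2 + (P.im - P'.im) ^ 2 := by
    rw [← Complex.normSq_eq_norm_sq, Complex.normSq_apply, Complex.sub_re, Complex.sub_im]; ring
  have hm1' : ‖P‖ ^ 2 ≤ 1 := pow_le_one₀ (norm_nonneg P) hm1
  have hm2' : ‖P'‖ ^ 2 ≤ 1 := pow_le_one₀ (norm_nonneg P') hm2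
  have hz : 1 - ζ.re * ζ'.re - ζ.im * ζ'.im ≤ 2 := by
    have k1 : ‖ζ‖ ^ 2 = ζ.re ^ 2 + ζ.im ^ 2 := by
      rw [← Complex.normSq_eq_norm_sq, Complex.normSq_apply]; ring
    have k2 : ‖ζ'‖ ^ 2 = ζ'.re ^ 2 + ζ'.im ^ 2 := by
      rw [← Complex.normSq_eq_norm_sq, Complex.normSq_apply]; ring
    have k3 : ‖ζ‖ ^ 2 ≤ 1 := pow_le_one₀ (norm_nonneg ζ) (h1.trans hρ.le)
    have k4 : ‖ζ'‖ ^ 2 ≤ 1 := pow_le_one₀ (norm_nonneg ζ') (h2.trans hρ.le)
    have k5 : (ζ.re + ζ'.re) ^ 2 + (ζ.im + ζ'.im) ^ 2 = (ζ.re ^ 2 + ζ.im ^ 2) +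
      (ζ'.re ^ 2 + ζ'.im ^ 2) + 2 * (ζ.re * ζ'.re + ζ.im * ζ'.im) := by ring
    have k6 : 0 ≤ (ζ.re + ζ'.re) ^ 2 + (ζ.im + ζ'.im) ^ 2 := by positivity
    rw [k5, ← k1, ← k2] at k6
    linarith
  have h3 : ‖P - P'‖ ^ 2 ≤ 2 * (1 - P.re * P'.re - P.im * P'.im) := by
    have k : (P.re - P'.re) ^ 2 + (P.im - P'.im) ^ 2 = (P.re ^ 2 + P.im ^ 2) +
      (P'.re ^ 2 + P'.im ^ 2) - 2 * (P.re * P'.re + P.im * P'.im) := by ring
    rw [hn3, k, ← hn1, ← hn2]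
    linarith
  have h4 : (A.nrm * (1 - ρ)) * (A.nrm * (1 - ρ)) ≤ T * T' := mul_le_mul hT hT' hpos.le hTp.le
  have hnn : 0 ≤ 1 - P.re * P'.re - P.im * P'.im := by
    have := sq_nonneg ‖P - P'‖
    linarith
  have h5 : ‖P - P'‖ ^ 2 * (A.nrm * (1 - ρ)) ^ 2 ≤ 16 := by
    have k4 : (1 - P.re * P'.re - P.im * P'.im) * ((A.nrm * (1 - ρ)) * (A.nrm * (1 - ρ))) ≤
      (1 - P.re * P'.re - P.im * P'.im) * (T * T') := mul_le_mul_of_nonneg_left h4 hnn
    have k5 : 0 ≤ (A.nrm * (1 - ρ)) ^ 2 := sq_nonneg _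
    have k6 := mul_le_mul_of_nonneg_right h3 k5
    rw [key] at k4
    have k7 : 2 * (1 - P.re * P'.re - P.im * P'.im) * (A.nrm * (1 - ρ)) ^ 2 =
      2 * ((1 - P.re * P'.re - P.im * P'.im) * ((A.nrm * (1 - ρ)) * (A.nrm * (1 - ρ)))) := by ring
    rw [k7] at k6
    linarith
  rw [le_div_iff₀ hpos]
  have h6 : (‖P - P'‖ * (A.nrm * (1 - ρ))) ^ 2 ≤ 4 ^ 2 := by rw [mul_pow]; linarith
  exact abs_le_of_sq_le_sq' h6 (by norm_num) |>.2

/-- transitivity of `SL(2, ℝ)` on the disc -/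
theorem exists_mob_zero {ζ : ℂ} (hζ : ‖ζ‖ < 1) : ∃ A : SL2, mob A 0 = ζ := by
  have hD := disc_pos hζ
  have hns : Complex.normSq ζ = ζ.re ^ 2 + ζ.im ^ 2 := by rw [Complex.normSq_apply]; ring
  set X := ζ.re with hX
  set Y := ζ.im with hY
  have hX1 : 0 < 1 + X := by
    rw [hns] at hD
    nlinarith [sq_nonneg Y, sq_nonneg (X - 1)]
  set s := √(1 - Complex.normSq ζ) with hs
  have hs0 : 0 < s := Real.sqrt_pos.2 hD
  have hs2 : s ^ 2 = 1 - (X ^ 2 + Y ^ 2) := by rw [hs, Real.sq_sqrt hD.le, hns]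
  set a := √((1 + X) / s) with ha
  have ha0 : 0 < a := Real.sqrt_pos.2 (by positivity)
  have ha2 : a ^ 2 = (1 + X) / s := Real.sq_sqrt (by positivity)
  let A : SL2 := ⟨!![a, 0; Y / (s * a), 1 / a], by
    rw [Matrix.det_fin_two_of]; field_simp; ring⟩
  refine ⟨A, ?_⟩
  have A00 : A.1 0 0 = a := rfl
  have A01 : A.1 0 1 = 0 := rfl
  have A10 : A.1 1 0 = Y / (s * a) := rfl
  have A11 : A.1 1 1 = 1 / a := rfl
  have hp : pp A 0 = (1 + X) / s := by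
    unfold pp
    rw [A00, A01, ← ha2]; simp
  have hq : qq A 0 = Y / s := by
    unfold qq
    rw [A00, A01, A10, A11]; simp; field_simp
  have hr : rr A 0 = (1 - X) / s := by
    unfold rr
    rw [A10, A11]
    simp only [Complex.zero_re, Complex.zero_im, add_zero, mul_one, mul_zero, sub_zero]
    rw [div_pow, mul_pow, div_pow, ha2]
    field_simp
    rw [hs2]; ring
  apply Complex.ext
  · rw [mob_re, hp, hr]
    field_simp
    ring
  · rw [mob_im, hp, hr, hq]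
    field_simp
    ring

theorem normSq_mob_zero (A : SL2) : 1 - Complex.normSq (mob A 0) = 4 / A.nrm ^ 2 := by
  rw [one_sub_normSq_mob A (by simp)]
  have : pp A 0 + rr A 0 = A.nrm := by
    simp [pp, rr, SL2.nrm]; ring
  rw [this]; simp

theorem norm_pt_sub_le (a b : ℝ) : ‖pt 1 a - pt 1 b‖ ≤ |a - b| := by
  have h1 : ‖pt 1 a - pt 1 b‖ ^ 2 = 2 - 2 * Real.cos (a - b) := by
    rw [← Complex.normSq_eq_norm_sq, Complex.normSq_apply, Real.cos_sub]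
    simp only [pt, Complex.sub_re, Complex.sub_im]
    have h2 := Real.sin_sq_add_cos_sq a
    have h3 := Real.sin_sq_add_cos_sq b
    linear_combination h2 + h3
  have h2 := Real.one_sub_sq_div_two_le_cos (x := a - b)
  apply abs_le_of_sq_le_sq' _ (abs_nonneg _) |>.2
  rw [h1, sq_abs]
  linarith

namespace FData

variable (F : FData)

theorem notMem_bdry {x : F.Car} (hx : x ∉ F.Bdry) : ‖x.1.1‖ < 1 :=
  lt_of_le_of_ne (F.norm_le x.2) hx

/-- the inclusion of the open disc -/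
noncomputable def inc (ζ : ℂ) (hζ : ‖ζ‖ < 1) : F.Car := ⟨F.iota ζ, F.iota_mem hζ⟩

theorem eq_inc {x : F.Car} (hx : ‖x.1.1‖ < 1) : x = F.inc x.1.1 hx :=
  Subtype.ext (F.eq_iota x.2 hx)

theorem continuous_fst : Continuous fun x : F.Car => x.1.1 := by
  show Continuous fun x : F.Xhat => x.1.1
  fun_prop

theorem ext_fst {x y : F.Car} (hx : ‖x.1.1‖ < 1) (h : x.1.1 = y.1.1) : x = y := by
  have hy : ‖y.1.1‖ < 1 := h ▸ hx
  apply Subtype.ext
  rw [F.eq_iota x.2 hx, F.eq_iota y.2 hy, h]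

theorem covering : ∀ x ∉ F.Bdry, ∃ U : Set F.Car, IsOpen U ∧ x ∈ U ∧ Disjoint U F.Bdry ∧
    ∀ g h : F.Γ, g ≠ h → Disjoint ((fun y => g • y) '' U) ((fun y => h • y) '' U) := by
  intro x hx
  have hx1 := F.notMem_bdry hx
  set ζ := x.1.1 with hζ
  set ρ := (1 + ‖ζ‖) / 2 with hρ
  have hρ1 : ρ < 1 := by rw [hρ]; linarith
  have hρ0 : ‖ζ‖ < ρ := by rw [hρ]; linarith
  have hρp : 0 ≤ ρ := (norm_nonneg _).trans hρ0.le
  set δ := (1 - ρ) ^ 2 * (1 - ρ ^ 2) with hδ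
  have hδ0 : 0 < δ := by
    have h1 : 0 < 1 - ρ := by linarith
    have h2 : 0 < 1 - ρ ^ 2 := by nlinarith
    positivity
  -- the relevant finite set
  have hfin : {k : F.Γ | SL2.nrm (k : SL2) ^ 2 * δ ≤ 4}.Finite := by
    apply (F.fin (4 / δ + 1)).subset
    intro k hk
    have hk' : SL2.nrm (k : SL2) ^ 2 * δ ≤ 4 := hk
    have h1 : SL2.nrm (k : SL2) ^ 2 ≤ 4 / δ := by rwa [le_div_iff₀ hδ0]
    have h2 := SL2.two_le_nrm (k : SL2)
    show SL2.nrm (k : SL2) ≤ 4 / δ + 1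
    nlinarith
  -- separating neighbourhoods
  have hsep : ∀ k : F.Γ, k ≠ 1 → ∃ V : Set F.Car, IsOpen V ∧ x ∈ V ∧
      ∀ y ∈ V, k • y ∉ V := by
    intro k hk
    have hne : k • x ≠ x := by
      intro h
      have h1 : mob (k : SL2) ζ = ζ := congrArg (fun y : F.Car => y.1.1) h
      refine mob_ne_self (k : SL2) (F.tr k k.2 ?_) hx1 h1
      intro h2
      exact hk (Subtype.ext h2)
    obtain ⟨V₁, V₂, h1, h2, h3, h4, h5⟩ := t2_separation hne
    refine ⟨V₂ ∩ (fun y => k • y) ⁻¹' V₁, h2.inter (h1.preimage (continuous_const_smul k)),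
      ⟨h4, h3⟩, ?_⟩
    rintro y ⟨-, hy⟩ ⟨hy2, -⟩
    exact Set.disjoint_left.1 h5 hy hy2
  choose! V hV1 hV2 hV3 using hsep
  have hfin' : ({k : F.Γ | SL2.nrm (k : SL2) ^ 2 * δ ≤ 4} \ {1}).Finite := hfin.sdiff
  refine ⟨{y : F.Car | ‖y.1.1‖ < ρ} ∩ ⋂ k ∈ ({k : F.Γ | SL2.nrm (k : SL2) ^ 2 * δ ≤ 4} \ {1}),
    V k, ?_, ?_, ?_, ?_⟩
  · apply IsOpen.inter
    · exact isOpen_lt F.continuous_fst.norm continuous_const
    · exact hfin'.isOpen_biInter fun k hk => hV1 k hk.2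
  · refine ⟨hρ0, ?_⟩
    rw [mem_iInter₂]
    exact fun k hk => hV2 k hk.2
  · rw [Set.disjoint_left]
    rintro y ⟨hy, -⟩ hy2
    have h1 : ‖y.1.1‖ < ρ := hy
    have h2 : ‖y.1.1‖ = 1 := hy2
    linarith
  · intro g h hgh
    rw [Set.disjoint_left]
    rintro _ ⟨y, ⟨hy1, hy2⟩, rfl⟩ ⟨y', ⟨hy1', hy2'⟩, he⟩
    have he' : h • y' = g • y := he
    have hk : (h⁻¹ * g) • y = y' := by
      rw [mul_smul, ← he', inv_smul_smul]
    have hne : h⁻¹ * g ≠ 1 := by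
      intro h1
      exact hgh (inv_mul_eq_one.1 h1).symm
    have hmem : (h⁻¹ * g) ∈ ({k : F.Γ | SL2.nrm (k : SL2) ^ 2 * δ ≤ 4} \ {1}) := by
      refine ⟨?_, hne⟩
      have h1 : ‖y.1.1‖ < ρ := hy1
      have h2 : ‖y'.1.1‖ < ρ := hy1'
      rw [← hk] at h2
      exact nrm_sq_le _ hρ1 h1.le h2.le
    rw [mem_iInter₂] at hy2 hy2'
    have := hV3 _ hne y (hy2 _ hmem)
    rw [hk] at this
    exact this (hy2' _ hmem)

theorem cocompact : CompactSpace (Quot (fun x y : (F.Bdryᶜ : Set F.Car) =>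
    ∃ g : F.Γ, (y : F.Car) = g • (x : F.Car))) := by
  obtain ⟨M, hM⟩ := F.coc
  set r : (F.Bdryᶜ : Set F.Car) → (F.Bdryᶜ : Set F.Car) → Prop :=
    fun x y => ∃ g : F.Γ, (y : F.Car) = g • (x : F.Car)
  have hM2 : 2 ≤ M := by
    obtain ⟨k, -, hk⟩ := hM 1
    exact (SL2.two_le_nrm _).trans hk
  set R := 1 - 4 / M ^ 2 with hR
  have hR1 : R < 1 := by
    have : 0 < 4 / M ^ 2 := by positivity
    linarith
  -- the compact set
  let K : Set F.Car := {x | ‖x.1.1‖ ^ 2 ≤ R}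
  have hK : IsCompact K := by
    apply IsClosed.isCompact
    exact isClosed_le (F.continuous_fst.norm.pow 2) continuous_const
  have hKsub : ∀ x ∈ K, x ∈ F.Bdryᶜ := by
    intro x hx hx2
    have h1 : ‖x.1.1‖ ^ 2 ≤ R := hx
    have h2 : ‖x.1.1‖ = 1 := hx2
    rw [h2] at h1
    linarith
  have : CompactSpace K := isCompact_iff_compactSpace.1 hK
  let f : K → Quot r := fun x => Quot.mk r ⟨x.1, hKsub x.1 x.2⟩
  have hf : Continuous f := by
    apply continuous_quot_mk.comp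
    exact Continuous.subtype_mk continuous_subtype_val _
  have hsurj : Function.Surjective f := by
    intro q
    obtain ⟨⟨x, hx⟩, rfl⟩ := Quot.exists_rep q
    have hx1 := F.notMem_bdry hx
    obtain ⟨A, hA⟩ := exists_mob_zero hx1
    obtain ⟨k, hk, hkM⟩ := hM A
    set g : F.Γ := ⟨k, hk⟩
    have hmem : g • x ∈ K := by
      show ‖(g • x).1.1‖ ^ 2 ≤ R
      have h1 : (g • x).1.1 = mob (k * A) 0 := by
        rw [mob_mul _ _ (by simp), hA]; rfl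
      have h2 := normSq_mob_zero (k * A)
      rw [h1, ← Complex.normSq_eq_norm_sq, hR]
      have h3 := SL2.nrm_pos (k * A)
      have h4 : 4 / M ^ 2 ≤ 4 / (k * A).nrm ^ 2 := by
        apply div_le_div_of_nonneg_left (by norm_num) (by positivity)
        exact pow_le_pow_left₀ h3.le hkM 2
      linarith
    refine ⟨⟨g • x, hmem⟩, ?_⟩
    show Quot.mk r _ = Quot.mk r _
    symm
    apply Quot.sound
    exact ⟨g, rfl⟩
  exact hsurj.compactSpace hf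

/-- differences of `phi` on translates -/
theorem phi_smul_sub (g : F.Γ) {ζ ζ' : ℂ} (hζ : ‖ζ‖ < 1) (hζ' : ‖ζ'‖ < 1) (ε : ℝ) (hε : 0 ≤ ε)
    (H : Finset F.Γ)
    (hH : ∀ h ∈ H, |ss ((h : SL2)⁻¹ * (g : SL2)) ζ - ss ((h : SL2)⁻¹ * (g : SL2)) ζ'| ≤ ε) :
    |F.ff (mob (g : SL2) ζ) - F.ff (mob (g : SL2) ζ')| ≤
      ε + ∑' h : F.Γ, (if h ∈ H then 0 else F.c h) := by
  classical
  have s1 := F.summable_ff (mob (g : SL2) ζ)
  have s2 := F.summable_ff (mob (g : SL2) ζ')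
  have s3 : Summable fun h : F.Γ => if h ∈ H then 0 else F.c h := by
    apply Summable.of_nonneg_of_le _ _ F.c_sum
    · intro h; split_ifs
      · exact le_rfl
      · exact (F.c_pos h).le
    · intro h; split_ifs
      · exact (F.c_pos h).le
      · exact le_rfl
  have s4 : Summable fun h : F.Γ => F.c h * ε + (if h ∈ H then 0 else F.c h) :=
    (F.c_sum.mul_right ε).add s3
  unfold ff
  rw [← s1.tsum_sub s2]
  have hb : ∀ h : F.Γ, |F.c h * ss ((h : SL2)⁻¹) (mob (g : SL2) ζ) -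
      F.c h * ss ((h : SL2)⁻¹) (mob (g : SL2) ζ')| ≤
      F.c h * ε + (if h ∈ H then 0 else F.c h) := by
    intro h
    rw [ss_mob _ _ hζ, ss_mob _ _ hζ', ← mul_sub, abs_mul, abs_of_pos (F.c_pos h)]
    split_ifs with hh
    · rw [add_zero]
      exact mul_le_mul_of_nonneg_left (hH h hh) (F.c_pos h).le
    · have h1 := ss_mem_Icc ((h : SL2)⁻¹ * (g : SL2)) ζ
      have h2 := ss_mem_Icc ((h : SL2)⁻¹ * (g : SL2)) ζ'
      have h3 : |ss ((h : SL2)⁻¹ * (g : SL2)) ζ - ss ((h : SL2)⁻¹ * (g : SL2)) ζ'| ≤ 1 := by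
        rw [abs_le]; constructor <;> linarith [h1.1, h1.2, h2.1, h2.2]
      have h4 := mul_le_mul_of_nonneg_left h3 (F.c_pos h).le
      have h5 : 0 ≤ F.c h * ε := mul_nonneg (F.c_pos h).le hε
      linarith
  have h1 := norm_tsum_le_tsum_norm (f := fun h : F.Γ =>
    F.c h * ss ((h : SL2)⁻¹) (mob (g : SL2) ζ) - F.c h * ss ((h : SL2)⁻¹) (mob (g : SL2) ζ'))
    (Summable.of_nonneg_of_le (fun h => norm_nonneg _) (fun h => hb h) s4)
  have h2 := Summable.tsum_le_tsum (fun h => hb h)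
    (Summable.of_nonneg_of_le (fun h => abs_nonneg _) (fun h => hb h) s4) s4
  refine h1.trans (h2.trans ?_)
  rw [(F.c_sum.mul_right ε).tsum_add s3, tsum_mul_right]
  have h3 := F.c_tsum
  nlinarith

theorem null : ∀ K : Set F.Car, IsCompact K → K ⊆ F.Bdryᶜ → ∀ ε : ℝ, 0 < ε →
    {g : F.Γ | ε < Metric.diam ((fun y => g • y) '' K)}.Finite := by
  classical
  intro K hK hKb ε hε
  rcases K.eq_empty_or_nonempty with hemp | hne
  · subst hemp
    simp only [image_empty, Metric.diam_empty]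
    rw [show {g : F.Γ | ε < 0} = ∅ by
      ext g; simp; exact hε.le]
    exact Set.finite_empty
  -- radius
  obtain ⟨x₀, hx₀, hmax⟩ := hK.exists_isMaxOn hne F.continuous_fst.norm.continuousOn
  set ρ := ‖x₀.1.1‖ with hρ
  have hρ1 : ρ < 1 := F.notMem_bdry (hKb hx₀)
  have hρ0 : 0 ≤ ρ := norm_nonneg _
  have hKρ : ∀ x ∈ K, ‖x.1.1‖ ≤ ρ := fun x hx => hmax hx
  have hD0 : 0 < 1 - ρ ^ 2 := by nlinarith
  -- the Higson estimate
  obtain ⟨M, hM⟩ := ss_higson (2 / (1 - ρ ^ 2)) (ε / 4) (by positivity)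
  -- the finite set of weights
  obtain ⟨H, hH⟩ : ∃ H : Finset F.Γ, ∑' h : F.Γ, (if h ∈ H then 0 else F.c h) ≤ ε / 4 := by
    have h1 := tendsto_tsum_compl_atTop_zero F.c
    have h2 := h1.eventually (gt_mem_nhds (show (0 : ℝ) < ε / 4 by positivity))
    obtain ⟨H, hH⟩ := h2.exists
    refine ⟨H, ?_⟩
    have h3 : ∑' h : F.Γ, (if h ∈ H then 0 else F.c h) = ∑' a : {x // x ∉ H}, F.c a := by
      have e : ∑' a : {x // x ∉ H}, F.c a = ∑' x, ({x | x ∉ H} : Set F.Γ).indicator F.c x :=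
        tsum_subtype ({x | x ∉ H} : Set F.Γ) F.c
      rw [e]
      congr 1
      funext h
      by_cases hh : h ∈ H <;> simp [hh]
    rw [h3]
    exact hH.le
  -- exceptional elements
  have hfin1 : (⋃ h ∈ H, {g : F.Γ | SL2.nrm ((h : SL2)⁻¹ * (g : SL2)) ≤ |M| / (1 - ρ)}).Finite := by
    apply Set.Finite.biUnion H.finite_toSet
    intro h _
    have : {g : F.Γ | SL2.nrm ((h : SL2)⁻¹ * (g : SL2)) ≤ |M| / (1 - ρ)} =
        (fun g : F.Γ => h⁻¹ * g) ⁻¹' {k : F.Γ | SL2.nrm (k : SL2) ≤ |M| / (1 - ρ)} := by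
      ext g
      simp
    rw [this]
    exact (F.fin _).preimage (mul_right_injective h⁻¹).injOn
  have hfin2 : {g : F.Γ | SL2.nrm (g : SL2) ≤ 8 / (ε * (1 - ρ))}.Finite := F.fin _
  apply (hfin1.union hfin2).subset
  intro g hg
  by_contra hcon
  rw [mem_union, not_or] at hcon
  obtain ⟨hc1, hc2⟩ := hcon
  have hc2' : 8 / (ε * (1 - ρ)) < SL2.nrm (g : SL2) := not_le.1 hc2
  have hc1' : ∀ h ∈ H, |M| / (1 - ρ) < SL2.nrm ((h : SL2)⁻¹ * (g : SL2)) := by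
    intro h hh
    by_contra hcc
    exact hc1 (mem_iUnion₂.2 ⟨h, hh, not_lt.1 hcc⟩)
  have hg' : ε < Metric.diam ((fun y => g • y) '' K) := hg
  apply absurd hg'
  rw [not_lt]
  apply Metric.diam_le_of_forall_dist_le hε.le
  rintro _ ⟨x, hx, rfl⟩ _ ⟨y, hy, rfl⟩
  have hx1 := F.notMem_bdry (hKb hx)
  have hy1 := F.notMem_bdry (hKb hy)
  have hxρ := hKρ x hx
  have hyρ := hKρ y hy
  have h1ρ : 0 < 1 - ρ := by linarith
  set ζ := x.1.1 with hζ
  set ζ' := y.1.1 with hζ'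
  have ex : (g • x).1 = F.iota (mob (g : SL2) ζ) := by
    rw [F.smul_val, F.eq_iota x.2 hx1, F.actP_iota g hx1]
  have ey : (g • y).1 = F.iota (mob (g : SL2) ζ') := by
    rw [F.smul_val, F.eq_iota y.2 hy1, F.actP_iota g hy1]
  show dist (g • x) (g • y) ≤ ε
  rw [F.dist_eq, ex, ey, psi, psi, phi_iota, phi_iota, _root_.dist_eq_norm]
  show ‖mob (g : SL2) ζ * pt 1 (F.ff (mob (g : SL2) ζ)) -
    mob (g : SL2) ζ' * pt 1 (F.ff (mob (g : SL2) ζ'))‖ ≤ ε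
  have hnum := F.phi_smul_sub g hx1 hy1 (ε / 4) (by positivity) H (by
    intro h hh
    apply hM _ _ _ hx1 hy1
    · -- condition on the points
      have hDx : 1 - ρ ^ 2 ≤ 1 - Complex.normSq ζ := by
        rw [Complex.normSq_eq_norm_sq]; nlinarith [norm_nonneg ζ]
      have hDy : 1 - ρ ^ 2 ≤ 1 - Complex.normSq ζ' := by
        rw [Complex.normSq_eq_norm_sq]; nlinarith [norm_nonneg ζ']
      have h1 : √(1 - ρ ^ 2) ≤ √(1 - Complex.normSq ζ) := Real.sqrt_le_sqrt hDx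
      have h2 : √(1 - ρ ^ 2) ≤ √(1 - Complex.normSq ζ') := Real.sqrt_le_sqrt hDy
      have h3 : √(1 - ρ ^ 2) * √(1 - ρ ^ 2) ≤
          √(1 - Complex.normSq ζ) * √(1 - Complex.normSq ζ') :=
        mul_le_mul h1 h2 (Real.sqrt_nonneg _) (Real.sqrt_nonneg _)
      rw [Real.mul_self_sqrt hD0.le] at h3
      have h4 : 2 ≤ 2 / (1 - ρ ^ 2) *
          (√(1 - Complex.normSq ζ) * √(1 - Complex.normSq ζ')) := by
        rw [div_mul_eq_mul_div, le_div_iff₀ hD0]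
        linarith
      refine le_trans ?_ h4
      have k1 : ‖ζ‖ ^ 2 = ζ.re ^ 2 + ζ.im ^ 2 := by
        rw [← Complex.normSq_eq_norm_sq, Complex.normSq_apply]; ring
      have k2 : ‖ζ'‖ ^ 2 = ζ'.re ^ 2 + ζ'.im ^ 2 := by
        rw [← Complex.normSq_eq_norm_sq, Complex.normSq_apply]; ring
      have k3 : ‖ζ‖ ^ 2 ≤ 1 := by nlinarith [norm_nonneg ζ]
      have k4 : ‖ζ'‖ ^ 2 ≤ 1 := by nlinarith [norm_nonneg ζ']
      nlinarith [sq_nonneg (ζ.re + ζ'.re), sq_nonneg (ζ.im + ζ'.im)]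
    · have h1 := hc1' h hh
      have h2 := trace_ge ((h : SL2)⁻¹ * (g : SL2)) ζ
      have h3 : |M| < SL2.nrm ((h : SL2)⁻¹ * (g : SL2)) * (1 - ρ) := by
        rwa [div_lt_iff₀ h1ρ] at h1
      have h4 : SL2.nrm ((h : SL2)⁻¹ * (g : SL2)) * (1 - ρ) ≤
          SL2.nrm ((h : SL2)⁻¹ * (g : SL2)) * (1 - ‖ζ‖) :=
        mul_le_mul_of_nonneg_left (by linarith) (SL2.nrm_pos _).le
      have h5 : √(1 - Complex.normSq ζ) ≤ 1 := by
        rw [Real.sqrt_le_one]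
        linarith [Complex.normSq_nonneg ζ]
      have h6 : M * √(1 - Complex.normSq ζ) ≤ |M| := by
        calc M * √(1 - Complex.normSq ζ) ≤ |M| * √(1 - Complex.normSq ζ) :=
              mul_le_mul_of_nonneg_right (le_abs_self M) (Real.sqrt_nonneg _)
          _ ≤ |M| * 1 := mul_le_mul_of_nonneg_left h5 (abs_nonneg _)
          _ = |M| := mul_one _
      linarith)
  have hdist := dist_mob_sq_le (g : SL2) hρ1 hxρ hyρ
  have hd2 : 4 / (SL2.nrm (g : SL2) * (1 - ρ)) ≤ ε / 2 := by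
    rw [div_le_iff₀ (mul_pos (SL2.nrm_pos _) h1ρ)]
    rw [div_lt_iff₀ (by positivity)] at hc2'
    nlinarith
  set P := mob (g : SL2) ζ
  set P' := mob (g : SL2) ζ'
  have hP' : ‖P'‖ ≤ 1 := norm_mob_le _ hy1.le
  have hsplit : P * pt 1 (F.ff P) - P' * pt 1 (F.ff P') =
      (P - P') * pt 1 (F.ff P) + P' * (pt 1 (F.ff P) - pt 1 (F.ff P')) := by ring
  rw [hsplit]
  refine (norm_add_le _ _).trans ?_
  rw [norm_mul, norm_mul, norm_pt zero_le_one, mul_one]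
  have h7 := norm_pt_sub_le (F.ff P) (F.ff P')
  have h8 : ‖P'‖ * ‖pt 1 (F.ff P) - pt 1 (F.ff P')‖ ≤ 1 * |F.ff P - F.ff P'| :=
    mul_le_mul hP' h7 (norm_nonneg _) zero_le_one
  linarith

end FData

end Pool.Agent.Helper56.EZ
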