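import Mathlib

set_option autoImplicit false

open Matrix

namespace Pool.Agent.Helper56.EZ

/-- abbreviation for `SL(2, ℝ)` -/
abbrev SL2 : Type := Matrix.SpecialLinearGroup (Fin 2) ℝ

theorem SL2.det_eq (A : SL2) : A.1 0 0 * A.1 1 1 - A.1 0 1 * A.1 1 0 = 1 := by
  have := A.2
  rwa [Matrix.det_fin_two] at this

theorem SL2.mul_00 (A B : SL2) : (A * B).1 0 0 = A.1 0 0 * B.1 0 0 + A.1 0 1 * B.1 1 0 := by
  have : (A * B).1 = A.1 * B.1 := rfl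
  rw [this, Matrix.mul_apply, Fin.sum_univ_two]

theorem SL2.mul_01 (A B : SL2) : (A * B).1 0 1 = A.1 0 0 * B.1 0 1 + A.1 0 1 * B.1 1 1 := by
  have : (A * B).1 = A.1 * B.1 := rfl
  rw [this, Matrix.mul_apply, Fin.sum_univ_two]

theorem SL2.mul_10 (A B : SL2) : (A * B).1 1 0 = A.1 1 0 * B.1 0 0 + A.1 1 1 * B.1 1 0 := by
  have : (A * B).1 = A.1 * B.1 := rfl
  rw [this, Matrix.mul_apply, Fin.sum_univ_two]

theorem SL2.mul_11 (A B : SL2) : (A * B).1 1 1 = A.1 1 0 * B.1 0 1 + A.1 1 1 * B.1 1 1 := by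
  have : (A * B).1 = A.1 * B.1 := rfl
  rw [this, Matrix.mul_apply, Fin.sum_univ_two]

/-- sum of the squares of the entries -/
def SL2.nrm (A : SL2) : ℝ := A.1 0 0 ^ 2 + A.1 0 1 ^ 2 + A.1 1 0 ^ 2 + A.1 1 1 ^ 2

theorem SL2.nrm_pos (A : SL2) : 0 < A.nrm := by
  have h := A.det_eq
  unfold SL2.nrm
  nlinarith [sq_nonneg (A.1 0 0 - A.1 1 1), sq_nonneg (A.1 0 1 + A.1 1 0)]

theorem SL2.two_le_nrm (A : SL2) : 2 ≤ A.nrm := by
  have h := A.det_eq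
  unfold SL2.nrm
  nlinarith [sq_nonneg (A.1 0 0 - A.1 1 1), sq_nonneg (A.1 0 1 + A.1 1 0)]

/-- entries of the symmetric matrix `A (2 P_ζ) Aᵀ` where `2 P_ζ = [[1+X, Y], [Y, 1-X]]` -/
def pp (A : SL2) (ζ : ℂ) : ℝ :=
  A.1 0 0 ^ 2 * (1 + ζ.re) + 2 * A.1 0 0 * A.1 0 1 * ζ.im + A.1 0 1 ^ 2 * (1 - ζ.re)

/-- off-diagonal entry -/
def qq (A : SL2) (ζ : ℂ) : ℝ :=
  A.1 0 0 * A.1 1 0 * (1 + ζ.re) + (A.1 0 0 * A.1 1 1 + A.1 0 1 * A.1 1 0) * ζ.im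
    + A.1 0 1 * A.1 1 1 * (1 - ζ.re)

/-- lower right entry -/
def rr (A : SL2) (ζ : ℂ) : ℝ :=
  A.1 1 0 ^ 2 * (1 + ζ.re) + 2 * A.1 1 0 * A.1 1 1 * ζ.im + A.1 1 1 ^ 2 * (1 - ζ.re)

theorem pp_one (ζ : ℂ) : pp 1 ζ = 1 + ζ.re := by simp [pp]
theorem qq_one (ζ : ℂ) : qq 1 ζ = ζ.im := by simp [qq]
theorem rr_one (ζ : ℂ) : rr 1 ζ = 1 - ζ.re := by simp [rr]

theorem pp_mul (A B : SL2) (ζ : ℂ) :
    pp (A * B) ζ = A.1 0 0 ^ 2 * pp B ζ + 2 * A.1 0 0 * A.1 0 1 * qq B ζ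
      + A.1 0 1 ^ 2 * rr B ζ := by
  simp only [pp, qq, rr, SL2.mul_00, SL2.mul_01]; ring

theorem qq_mul (A B : SL2) (ζ : ℂ) :
    qq (A * B) ζ = A.1 0 0 * A.1 1 0 * pp B ζ
      + (A.1 0 0 * A.1 1 1 + A.1 0 1 * A.1 1 0) * qq B ζ
      + A.1 0 1 * A.1 1 1 * rr B ζ := by
  simp only [pp, qq, rr, SL2.mul_00, SL2.mul_01, SL2.mul_10, SL2.mul_11]; ring

theorem rr_mul (A B : SL2) (ζ : ℂ) :
    rr (A * B) ζ = A.1 1 0 ^ 2 * pp B ζ + 2 * A.1 1 0 * A.1 1 1 * qq B ζ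
      + A.1 1 1 ^ 2 * rr B ζ := by
  simp only [pp, qq, rr, SL2.mul_10, SL2.mul_11]; ring

/-- the determinant is preserved -/
theorem disc_eq (A : SL2) (ζ : ℂ) :
    pp A ζ * rr A ζ - qq A ζ ^ 2 = 1 - Complex.normSq ζ := by
  have h := A.det_eq
  have : pp A ζ * rr A ζ - qq A ζ ^ 2 =
      (A.1 0 0 * A.1 1 1 - A.1 0 1 * A.1 1 0) ^ 2 * (1 - Complex.normSq ζ) := by
    simp only [pp, qq, rr, Complex.normSq_apply]; ring
  rw [this, h]; ring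

/-- lower bound for the trace -/
theorem trace_ge (A : SL2) (ζ : ℂ) :
    A.nrm * (1 - ‖ζ‖) ≤ pp A ζ + rr A ζ := by
  have hd := A.det_eq
  set a := A.1 0 0
  set b := A.1 0 1
  set c := A.1 1 0
  set d := A.1 1 1
  have hN : A.nrm = a ^ 2 + b ^ 2 + c ^ 2 + d ^ 2 := rfl
  have hNpos := A.nrm_pos
  have h1 : pp A ζ + rr A ζ = A.nrm + ((a ^ 2 + c ^ 2 - b ^ 2 - d ^ 2) * ζ.re
      + 2 * (a * b + c * d) * ζ.im) := by
    rw [hN]; simp only [pp, rr]; ring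
  have h2 : ((a ^ 2 + c ^ 2 - b ^ 2 - d ^ 2) * ζ.re + 2 * (a * b + c * d) * ζ.im) ^ 2 ≤
      (A.nrm * ‖ζ‖) ^ 2 := by
    have h3 : ‖ζ‖ ^ 2 = ζ.re ^ 2 + ζ.im ^ 2 := by
      rw [← Complex.normSq_eq_norm_sq, Complex.normSq_apply]; ring
    have h4 : (a ^ 2 + c ^ 2 - b ^ 2 - d ^ 2) ^ 2 + (2 * (a * b + c * d)) ^ 2 =
        A.nrm ^ 2 - 4 := by
      have : (a ^ 2 + c ^ 2 - b ^ 2 - d ^ 2) ^ 2 + (2 * (a * b + c * d)) ^ 2 =
        (a ^ 2 + b ^ 2 + c ^ 2 + d ^ 2) ^ 2 - 4 * (a * d - b * c) ^ 2 := by ring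
      rw [this, hd, hN]; ring
    rw [mul_pow, h3]
    nlinarith [sq_nonneg ((a ^ 2 + c ^ 2 - b ^ 2 - d ^ 2) * ζ.im
      - 2 * (a * b + c * d) * ζ.re), sq_nonneg ζ.re, sq_nonneg ζ.im]
  have h5 := abs_le_of_sq_le_sq' h2 (by positivity)
  rw [h1]
  nlinarith [h5.1]

theorem pp_nonneg (A : SL2) {ζ : ℂ} (hζ : ‖ζ‖ ≤ 1) : 0 ≤ pp A ζ := by
  set a := A.1 0 0
  set b := A.1 0 1
  have h3 : ζ.re ^ 2 + ζ.im ^ 2 ≤ 1 := by
    have : ‖ζ‖ ^ 2 = ζ.re ^ 2 + ζ.im ^ 2 := by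
      rw [← Complex.normSq_eq_norm_sq, Complex.normSq_apply]; ring
    nlinarith [norm_nonneg ζ]
  have h1 : pp A ζ = (a ^ 2 + b ^ 2) + ((a ^ 2 - b ^ 2) * ζ.re + 2 * a * b * ζ.im) := by
    simp only [pp]; ring
  have h2 : ((a ^ 2 - b ^ 2) * ζ.re + 2 * a * b * ζ.im) ^ 2 ≤ (a ^ 2 + b ^ 2) ^ 2 := by
    nlinarith [sq_nonneg ((a ^ 2 - b ^ 2) * ζ.im - 2 * a * b * ζ.re),
      sq_nonneg (a ^ 2 + b ^ 2)]
  have h5 := abs_le_of_sq_le_sq' h2 (by positivity)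
  rw [h1]; linarith [h5.1]

theorem rr_nonneg (A : SL2) {ζ : ℂ} (hζ : ‖ζ‖ ≤ 1) : 0 ≤ rr A ζ := by
  set a := A.1 1 0
  set b := A.1 1 1
  have h3 : ζ.re ^ 2 + ζ.im ^ 2 ≤ 1 := by
    have : ‖ζ‖ ^ 2 = ζ.re ^ 2 + ζ.im ^ 2 := by
      rw [← Complex.normSq_eq_norm_sq, Complex.normSq_apply]; ring
    nlinarith [norm_nonneg ζ]
  have h1 : rr A ζ = (a ^ 2 + b ^ 2) + ((a ^ 2 - b ^ 2) * ζ.re + 2 * a * b * ζ.im) := by
    simp only [rr]; ring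
  have h2 : ((a ^ 2 - b ^ 2) * ζ.re + 2 * a * b * ζ.im) ^ 2 ≤ (a ^ 2 + b ^ 2) ^ 2 := by
    nlinarith [sq_nonneg ((a ^ 2 - b ^ 2) * ζ.im - 2 * a * b * ζ.re),
      sq_nonneg (a ^ 2 + b ^ 2)]
  have h5 := abs_le_of_sq_le_sq' h2 (by positivity)
  rw [h1]; linarith [h5.1]

theorem trace_pos (A : SL2) {ζ : ℂ} (hζ : ‖ζ‖ ≤ 1) : 0 < pp A ζ + rr A ζ := by
  have hp := pp_nonneg A hζ
  have hr := rr_nonneg A hζ
  rcases lt_or_eq_of_le (add_nonneg hp hr) with h | h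
  · exact h
  · exfalso
    have hp0 : pp A ζ = 0 := by linarith
    have hr0 : rr A ζ = 0 := by linarith
    -- then `q = 0` as well and `A⁻¹` brings us back to `σ ζ`
    have hD := disc_eq A ζ
    have hq0 : qq A ζ = 0 := by
      have : Complex.normSq ζ ≤ 1 := by
        rw [Complex.normSq_eq_norm_sq]; nlinarith [norm_nonneg ζ]
      rw [hp0, hr0] at hD
      nlinarith [sq_nonneg (qq A ζ)]
    have h1 := pp_mul A⁻¹ A ζ
    have h2 := rr_mul A⁻¹ A ζ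
    rw [inv_mul_cancel, pp_one, hp0, hq0, hr0] at h1
    rw [inv_mul_cancel, rr_one, hp0, hq0, hr0] at h2
    linarith

theorem pp_pos (A : SL2) {ζ : ℂ} (hζ : ‖ζ‖ < 1) : 0 < pp A ζ := by
  have hD := disc_eq A ζ
  have : Complex.normSq ζ < 1 := by
    rw [Complex.normSq_eq_norm_sq]; nlinarith [norm_nonneg ζ]
  have h1 : 0 < pp A ζ * rr A ζ := by nlinarith [sq_nonneg (qq A ζ)]
  rcases lt_or_eq_of_le (pp_nonneg A hζ.le) with h | h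
  · exact h
  · rw [← h] at h1; simp at h1

theorem rr_pos (A : SL2) {ζ : ℂ} (hζ : ‖ζ‖ < 1) : 0 < rr A ζ := by
  have hD := disc_eq A ζ
  have : Complex.normSq ζ < 1 := by
    rw [Complex.normSq_eq_norm_sq]; nlinarith [norm_nonneg ζ]
  have h1 : 0 < pp A ζ * rr A ζ := by nlinarith [sq_nonneg (qq A ζ)]
  rcases lt_or_eq_of_le (rr_nonneg A hζ.le) with h | h
  · exact h
  · rw [← h] at h1; simp at h1

theorem disc_pos {ζ : ℂ} (hζ : ‖ζ‖ < 1) : 0 < 1 - Complex.normSq ζ := by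
  rw [Complex.normSq_eq_norm_sq]; nlinarith [norm_nonneg ζ]

/-- The projective action of `SL(2, ℝ)` on the closed unit disc (Klein model). -/
noncomputable def mob (A : SL2) (ζ : ℂ) : ℂ :=
  ⟨(pp A ζ - rr A ζ) / (pp A ζ + rr A ζ), 2 * qq A ζ / (pp A ζ + rr A ζ)⟩

theorem mob_re (A : SL2) (ζ : ℂ) : (mob A ζ).re = (pp A ζ - rr A ζ) / (pp A ζ + rr A ζ) := rfl
theorem mob_im (A : SL2) (ζ : ℂ) : (mob A ζ).im = 2 * qq A ζ / (pp A ζ + rr A ζ) := rfl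

theorem mob_one {ζ : ℂ} : mob 1 ζ = ζ := by
  apply Complex.ext
  · rw [mob_re, pp_one, rr_one]; ring
  · rw [mob_im, pp_one, rr_one, qq_one]; ring

theorem one_add_mob_re (A : SL2) {ζ : ℂ} (hζ : ‖ζ‖ ≤ 1) :
    1 + (mob A ζ).re = 2 / (pp A ζ + rr A ζ) * pp A ζ := by
  have h := (trace_pos A hζ).ne'
  rw [mob_re]
  field_simp
  ring

theorem one_sub_mob_re (A : SL2) {ζ : ℂ} (hζ : ‖ζ‖ ≤ 1) :
    1 - (mob A ζ).re = 2 / (pp A ζ + rr A ζ) * rr A ζ := by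
  have h := (trace_pos A hζ).ne'
  rw [mob_re]
  field_simp
  ring

theorem mob_im' (A : SL2) (ζ : ℂ) :
    (mob A ζ).im = 2 / (pp A ζ + rr A ζ) * qq A ζ := by
  rw [mob_im]
  ring

theorem pp_mob (A B : SL2) {ζ : ℂ} (hζ : ‖ζ‖ ≤ 1) :
    pp B (mob A ζ) = 2 / (pp A ζ + rr A ζ) * pp (B * A) ζ := by
  have e : pp B (mob A ζ) = B.1 0 0 ^ 2 * (1 + (mob A ζ).re) + 2 * B.1 0 0 * B.1 0 1 *
    (mob A ζ).im + B.1 0 1 ^ 2 * (1 - (mob A ζ).re) := rfl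
  rw [e, one_add_mob_re A hζ, one_sub_mob_re A hζ, mob_im', pp_mul]
  ring

theorem qq_mob (A B : SL2) {ζ : ℂ} (hζ : ‖ζ‖ ≤ 1) :
    qq B (mob A ζ) = 2 / (pp A ζ + rr A ζ) * qq (B * A) ζ := by
  have e : qq B (mob A ζ) = B.1 0 0 * B.1 1 0 * (1 + (mob A ζ).re) +
    (B.1 0 0 * B.1 1 1 + B.1 0 1 * B.1 1 0) * (mob A ζ).im
      + B.1 0 1 * B.1 1 1 * (1 - (mob A ζ).re) := rfl
  rw [e, one_add_mob_re A hζ, one_sub_mob_re A hζ, mob_im', qq_mul]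
  ring

theorem rr_mob (A B : SL2) {ζ : ℂ} (hζ : ‖ζ‖ ≤ 1) :
    rr B (mob A ζ) = 2 / (pp A ζ + rr A ζ) * rr (B * A) ζ := by
  have e : rr B (mob A ζ) = B.1 1 0 ^ 2 * (1 + (mob A ζ).re) + 2 * B.1 1 0 * B.1 1 1 *
    (mob A ζ).im + B.1 1 1 ^ 2 * (1 - (mob A ζ).re) := rfl
  rw [e, one_add_mob_re A hζ, one_sub_mob_re A hζ, mob_im', rr_mul]
  ring

theorem one_sub_normSq_mob (A : SL2) {ζ : ℂ} (hζ : ‖ζ‖ ≤ 1) :
    1 - Complex.normSq (mob A ζ) =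
      4 * (1 - Complex.normSq ζ) / (pp A ζ + rr A ζ) ^ 2 := by
  have h := (trace_pos A hζ).ne'
  rw [← disc_eq A ζ, Complex.normSq_apply, mob_re, mob_im]
  field_simp
  ring

theorem norm_mob_le (A : SL2) {ζ : ℂ} (hζ : ‖ζ‖ ≤ 1) : ‖mob A ζ‖ ≤ 1 := by
  have h1 := one_sub_normSq_mob A hζ
  have h2 : 0 ≤ 1 - Complex.normSq ζ := by
    rw [Complex.normSq_eq_norm_sq]; nlinarith [norm_nonneg ζ]
  have h3 : 0 ≤ 1 - Complex.normSq (mob A ζ) := by rw [h1]; positivity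
  rw [Complex.normSq_eq_norm_sq] at h3
  nlinarith [norm_nonneg (mob A ζ)]

theorem norm_mob_lt (A : SL2) {ζ : ℂ} (hζ : ‖ζ‖ < 1) : ‖mob A ζ‖ < 1 := by
  have h1 := one_sub_normSq_mob A hζ.le
  have h2 := disc_pos hζ
  have h4 := trace_pos A hζ.le
  have h3 : 0 < 1 - Complex.normSq (mob A ζ) := by rw [h1]; positivity
  rw [Complex.normSq_eq_norm_sq] at h3
  nlinarith [norm_nonneg (mob A ζ)]

theorem norm_mob_eq (A : SL2) {ζ : ℂ} (hζ : ‖ζ‖ = 1) : ‖mob A ζ‖ = 1 := by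
  have h1 := one_sub_normSq_mob A hζ.le
  rw [Complex.normSq_eq_norm_sq, Complex.normSq_eq_norm_sq, hζ] at h1
  have h2 : ‖mob A ζ‖ ^ 2 = 1 := by
    have : (4 * (1 - 1 ^ 2) / (pp A ζ + rr A ζ) ^ 2 : ℝ) = 0 := by norm_num
    rw [this] at h1
    linarith
  nlinarith [norm_nonneg (mob A ζ)]

theorem mob_mul (A B : SL2) {ζ : ℂ} (hζ : ‖ζ‖ ≤ 1) : mob (A * B) ζ = mob A (mob B ζ) := by
  have h := (trace_pos B hζ).ne'
  have h' := (trace_pos (A * B) hζ).ne'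
  apply Complex.ext
  · rw [mob_re, mob_re, pp_mob B A hζ, rr_mob B A hζ]
    field_simp
  · rw [mob_im, mob_im, pp_mob B A hζ, rr_mob B A hζ, qq_mob B A hζ]
    field_simp

theorem continuous_pp (A : SL2) : Continuous (pp A) := by
  unfold pp; fun_prop
theorem continuous_qq (A : SL2) : Continuous (qq A) := by
  unfold qq; fun_prop
theorem continuous_rr (A : SL2) : Continuous (rr A) := by
  unfold rr; fun_prop

theorem continuousOn_mob (A : SL2) : ContinuousOn (mob A) (Metric.closedBall 0 1) := by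
  have hne : ∀ ζ ∈ Metric.closedBall (0 : ℂ) 1, pp A ζ + rr A ζ ≠ 0 := fun ζ hζ =>
    (trace_pos A (by simpa using hζ)).ne'
  have h1 : ContinuousOn (fun ζ => (pp A ζ - rr A ζ) / (pp A ζ + rr A ζ))
      (Metric.closedBall 0 1) :=
    (((continuous_pp A).sub (continuous_rr A)).continuousOn).div
      ((continuous_pp A).add (continuous_rr A)).continuousOn hne
  have h2 : ContinuousOn (fun ζ => 2 * qq A ζ / (pp A ζ + rr A ζ))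
      (Metric.closedBall 0 1) :=
    ((continuous_const.mul (continuous_qq A)).continuousOn).div
      ((continuous_pp A).add (continuous_rr A)).continuousOn hne
  have h3 : mob A = fun ζ => Complex.equivRealProdCLM.symm
      ((pp A ζ - rr A ζ) / (pp A ζ + rr A ζ), 2 * qq A ζ / (pp A ζ + rr A ζ)) := by
    funext ζ
    apply Complex.ext <;> simp [mob]
  rw [h3]
  exact Complex.equivRealProdCLM.symm.continuous.comp_continuousOn (h1.prodMk h2)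

/-- the invariant bilinear form (`cosh` of the distance after normalisation) -/
noncomputable def bb (p q r p' q' r' : ℝ) : ℝ := (p * r' + p' * r - 2 * q * q') / 2

theorem bb_inv (A : SL2) (ζ ζ' : ℂ) :
    bb (pp A ζ) (qq A ζ) (rr A ζ) (pp A ζ') (qq A ζ') (rr A ζ') =
      1 - ζ.re * ζ'.re - ζ.im * ζ'.im := by
  have h := A.det_eq
  have : bb (pp A ζ) (qq A ζ) (rr A ζ) (pp A ζ') (qq A ζ') (rr A ζ') =
      (A.1 0 0 * A.1 1 1 - A.1 0 1 * A.1 1 0) ^ 2 *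
        (1 - ζ.re * ζ'.re - ζ.im * ζ'.im) := by
    simp only [bb, pp, qq, rr]; ring
  rw [this, h]; ring

/-- displacement lower bound -/
theorem displacement (A B : SL2) (ζ : ℂ) :
    2 * bb (pp B ζ) (qq B ζ) (rr B ζ) (pp (A * B) ζ) (qq (A * B) ζ) (rr (A * B) ζ) =
      (A.1 1 0 * pp B ζ + (A.1 1 1 - A.1 0 0) * qq B ζ - A.1 0 1 * rr B ζ) ^ 2
        + ((A.1 0 0 + A.1 1 1) ^ 2 - 2) * (pp B ζ * rr B ζ - qq B ζ ^ 2) := by
  have h := A.det_eq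
  rw [pp_mul, qq_mul, rr_mul]
  simp only [bb]
  linear_combination (-2 * (pp B ζ * rr B ζ - qq B ζ ^ 2)) * h

end Pool.Agent.Helper56.EZ
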