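import Pool.Agent.Helper56.EZ.Fixed
import Pool.Agent.Helper6.QuatCocompact

set_option autoImplicit false

open Set Filter Topology

namespace Pool.Agent.Helper56.EZ

theorem sq_eq_three {z w : ℤ} (h : (z : ℝ) - w * √3 = 0) : z = 0 ∧ w = 0 := by
  have h3 : √3 * √3 = (3 : ℝ) := Real.mul_self_sqrt (by norm_num)
  have h1 : (z : ℝ) ^ 2 = 3 * w ^ 2 := by
    have : (z : ℝ) = w * √3 := by linarith
    rw [this]; linear_combination (w : ℝ) ^ 2 * h3
  have h2 : z ^ 2 = 3 * w ^ 2 := by exact_mod_cast h1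
  have h4 : Pool.Agent.Helper6.nrm z w 0 0 = 0 := by
    unfold Pool.Agent.Helper6.nrm
    linarith
  obtain ⟨a, b, -, -⟩ := Pool.Agent.Helper6.nrm_eq_zero h4
  exact ⟨a, b⟩

theorem quat_stab : ∀ k ∈ quatGroup, k.1 1 0 = 0 → k.1 0 1 = 0 := by
  rintro k ⟨x, y, z, w, hx, hk⟩ h10
  have e10 : k.1 1 0 = 7 * ((z : ℝ) - w * √3) := by
    rw [hk]; simp [quatMat]
  have e01 : k.1 0 1 = (z : ℝ) + w * √3 := by
    rw [hk]; simp [quatMat]
  have h1 : (z : ℝ) - w * √3 = 0 := by linarith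
  obtain ⟨rfl, rfl⟩ := sq_eq_three h1
  rw [e01]; simp

theorem quat_ne : ∀ k ∈ quatGroup, k.1 1 1 ≠ 0 := by
  rintro k ⟨x, y, z, w, hx, hk⟩ h11
  have e11 : k.1 1 1 = (x : ℝ) - y * √3 := by
    rw [hk]; simp [quatMat]
  obtain ⟨rfl, rfl⟩ := sq_eq_three (e11 ▸ h11)
  omega

theorem quat_tr : ∀ k ∈ quatGroup, k ≠ 1 → 4 < (k.1 0 0 + k.1 1 1) ^ 2 := by
  rintro k ⟨x, y, z, w, hx, hk⟩ hne
  have e11 : k.1 1 1 = (x : ℝ) - y * √3 := by
    rw [hk]; simp [quatMat]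
  have e00 : k.1 0 0 = (x : ℝ) + y * √3 := by
    rw [hk]; simp [quatMat]
  have e : k.1 0 0 + k.1 1 1 = 2 * x := by rw [e00, e11]; ring
  rw [e]
  have hd : x ^ 2 - 3 * y ^ 2 - 7 * z ^ 2 + 21 * w ^ 2 = 1 := by
    have := k.det_coe
    rw [hk, quatMat_det] at this
    exact_mod_cast this
  have h2 : 2 ≤ x ∨ x ≤ -2 := by
    by_contra hcon
    push Not at hcon
    have hx1 : x = 1 := by omega
    subst hx1
    have h4 : Pool.Agent.Helper6.nrm 0 y z w = 0 := by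
      unfold Pool.Agent.Helper6.nrm
      linarith
    obtain ⟨-, rfl, rfl, rfl⟩ := Pool.Agent.Helper6.nrm_eq_zero h4
    apply hne
    apply Subtype.ext
    rw [hk]
    ext i j
    fin_cases i <;> fin_cases j <;> simp [quatMat]
  have h3 : 2 ^ 2 ≤ x ^ 2 := by
    rcases h2 with h | h <;> nlinarith
  have h4 : (4 : ℝ) ≤ (x : ℝ) ^ 2 := by exact_mod_cast h3
  nlinarith

theorem quat_fin : ∀ R : ℝ, {k : quatGroup | SL2.nrm (k : SL2) ≤ R}.Finite := by
  intro R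
  apply (Pool.Agent.Helper6.quatGroup_discrete (|R| + 1)).subset
  intro k hk i j
  have hk' : SL2.nrm (k : SL2) ≤ R := hk
  have h1 : ((k : SL2).1 i j) ^ 2 ≤ SL2.nrm (k : SL2) := by
    unfold SL2.nrm
    have a0 := sq_nonneg ((k : SL2).1 0 0)
    have a1 := sq_nonneg ((k : SL2).1 0 1)
    have a2 := sq_nonneg ((k : SL2).1 1 0)
    have a3 := sq_nonneg ((k : SL2).1 1 1)
    fin_cases i <;> fin_cases j <;> simp only [Fin.zero_eta, Fin.mk_one, Fin.isValue] <;> linarith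
  have h2 : ((k : SL2).1 i j) ^ 2 ≤ |R| := h1.trans (hk'.trans (le_abs_self R))
  have h3 : |R| ≤ (|R| + 1) ^ 2 := by nlinarith [abs_nonneg R]
  exact abs_le_of_sq_le_sq (h2.trans h3) (by positivity)

theorem quat_coc : ∃ M : ℝ, ∀ A : SL2, ∃ k ∈ quatGroup, SL2.nrm (k * A) ≤ M := by
  obtain ⟨M, hM⟩ := Pool.Agent.Helper6.quatGroup_cocompact
  refine ⟨4 * M ^ 2, fun A => ?_⟩
  obtain ⟨k, hk, h⟩ := hM A
  refine ⟨k, hk, ?_⟩
  have h2 : ∀ i j, ((k * A : SL2).1 i j) ^ 2 ≤ M ^ 2 := fun i j =>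
    sq_le_sq' (neg_le_of_abs_le (h i j)) (le_of_abs_le (h i j))
  unfold SL2.nrm
  linarith [h2 0 0, h2 0 1, h2 1 0, h2 1 1]

theorem quat_countable : Countable quatGroup := by
  have h1 : (Set.univ : Set quatGroup) = ⋃ n : ℕ, {k : quatGroup | SL2.nrm (k : SL2) ≤ n} := by
    symm
    rw [eq_univ_iff_forall]
    intro k
    obtain ⟨n, hn⟩ := exists_nat_ge (SL2.nrm (k : SL2))
    exact mem_iUnion.2 ⟨n, hn⟩
  rw [← Set.countable_univ_iff, h1]
  exact Set.countable_iUnion fun n => (quat_fin n).countable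

theorem exists_weights : ∃ c : quatGroup → ℝ, (∀ h, 0 < c h) ∧ Summable c ∧
    ∑' h, c h ≤ 1 / 2 ∧ (Summable fun h => c h * slopeC ((h : SL2)⁻¹)) ∧
    ∑' h, c h * slopeC ((h : SL2)⁻¹) ≤ 1 / 2 := by
  have := quat_countable
  have : Encodable quatGroup := Encodable.ofCountable _
  obtain ⟨e, he, s, hs, hs2⟩ := posSumOfEncodable (show (0 : ℝ) < 1 / 2 by norm_num) quatGroup
  have hpos : ∀ h : quatGroup, 0 < 1 + slopeC ((h : SL2)⁻¹) := fun h => by
    linarith [slopeC_nonneg ((h : SL2)⁻¹)]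
  have h1 : ∀ h : quatGroup, e h / (1 + slopeC ((h : SL2)⁻¹)) ≤ e h := fun h => by
    rw [div_le_iff₀ (hpos h)]
    have := mul_nonneg (he h).le (slopeC_nonneg ((h : SL2)⁻¹))
    linarith
  have h2 : ∀ h : quatGroup, e h / (1 + slopeC ((h : SL2)⁻¹)) * slopeC ((h : SL2)⁻¹) ≤ e h :=
    fun h => by
      rw [div_mul_eq_mul_div, div_le_iff₀ (hpos h)]
      have := (he h).le
      linarith
  have p1 : ∀ h : quatGroup, 0 < e h / (1 + slopeC ((h : SL2)⁻¹)) := fun h =>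
    div_pos (he h) (hpos h)
  have s1 : Summable fun h : quatGroup => e h / (1 + slopeC ((h : SL2)⁻¹)) :=
    Summable.of_nonneg_of_le (fun h => (p1 h).le) h1 hs.summable
  have s2 : Summable fun h : quatGroup =>
      e h / (1 + slopeC ((h : SL2)⁻¹)) * slopeC ((h : SL2)⁻¹) :=
    Summable.of_nonneg_of_le (fun h => mul_nonneg (p1 h).le (slopeC_nonneg _)) h2 hs.summable
  refine ⟨fun h => e h / (1 + slopeC ((h : SL2)⁻¹)), p1, s1, ?_, s2, ?_⟩
  · exact (s1.tsum_le_tsum h1 hs.summable).trans (hs.tsum_eq.le.trans hs2)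
  · exact (s2.tsum_le_tsum h2 hs.summable).trans (hs.tsum_eq.le.trans hs2)

/-- the data of the quaternion group -/
noncomputable def quatData : FData where
  Γ := quatGroup
  fin := quat_fin
  stab := quat_stab
  coc := quat_coc
  tr := quat_tr
  c := exists_weights.choose
  c_pos := exists_weights.choose_spec.1
  c_sum := exists_weights.choose_spec.2.1
  c_tsum := exists_weights.choose_spec.2.2.1
  cs_sum := exists_weights.choose_spec.2.2.2.1
  cs_tsum := exists_weights.choose_spec.2.2.2.2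

/-- a diagonal element of infinite order -/
theorem exists_diag : ∃ g : quatGroup, (g : SL2).1 0 1 = 0 ∧ (g : SL2).1 1 0 = 0 ∧
    ∀ n : ℕ, 0 < n → g ^ n ≠ 1 := by
  have h3 : √3 * √3 = (3 : ℝ) := Real.mul_self_sqrt (by norm_num)
  let A : SL2 := ⟨quatMat (-2) (-1) 0 0, by rw [quatMat_det]; norm_num⟩
  have A00 : A.1 0 0 = -(2 + √3) := by
    show quatMat (-2) (-1) 0 0 0 0 = -(2 + √3)
    simp [quatMat]; ring
  have A01 : A.1 0 1 = 0 := by
    show quatMat (-2) (-1) 0 0 0 1 = 0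
    simp [quatMat]
  have A10 : A.1 1 0 = 0 := by
    show quatMat (-2) (-1) 0 0 1 0 = 0
    simp [quatMat]
  have hpow : ∀ n : ℕ, (A ^ n).1 0 0 = (-(2 + √3)) ^ n := by
    intro n
    induction n with
    | zero => simp
    | succ n ih =>
      rw [pow_succ, SL2.mul_00, A10, A00, ih, pow_succ]; ring
  refine ⟨⟨A, -2, -1, 0, 0, by norm_num, rfl⟩, A01, A10, ?_⟩
  intro n hn h
  have h1 : A ^ n = 1 := congrArg Subtype.val h
  have h2 := hpow n
  rw [h1] at h2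
  have h4 : (1 : ℝ) = |(-(2 + √3)) ^ n| := by
    rw [← h2]; simp
  have h5 : (0 : ℝ) ≤ √3 := Real.sqrt_nonneg 3
  rw [abs_pow, abs_neg, abs_of_nonneg (by positivity)] at h4
  have h6 : (1 : ℝ) < (2 + √3) ^ n := one_lt_pow₀ (by linarith) hn.ne'
  linarith

end Pool.Agent.Helper56.EZ
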