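import Pool.Agent.Helper56.EZ.Blowup4

set_option autoImplicit false

open Set Filter Topology

namespace Pool.Agent.Helper56.EZ

namespace FData

variable (F : FData)

/-- points of the same fibre that agree in the bad coordinates are equal -/
theorem fibre_eq {x x' : ℂ × (F.Γ → ℝ)} (hx : x ∈ F.Xhat) (hx' : x' ∈ F.Xhat)
    (h1 : x.1 = x'.1) (heq : ‖x.1‖ = 1)
    (h2 : ∀ h : F.Γ, rr ((h : SL2)⁻¹) x.1 = 0 → x.2 h = x'.2 h) : x = x' := by
  apply Prod.ext h1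
  funext h
  by_cases hr : rr ((h : SL2)⁻¹) x.1 = 0
  · exact h2 h hr
  · have e1 := F.tendsto_of_rr hx heq hr
    have e2 := F.tendsto_of_rr hx' (by rw [← h1]; exact heq) (by rw [← h1]; exact hr)
    rw [← h1] at e2
    obtain ⟨l, hne, hl, -⟩ := F.approx hx
    have : (𝓝[Metric.ball 0 1] x.1).NeBot := NeBot.mono hne hl
    exact tendsto_nhds_unique e1 e2

/-- the image of the space under the first projection and one coordinate -/
theorem isClosed_pair : IsClosed ((fun x : ℂ × (F.Γ → ℝ) => (x.1, x.2 1)) '' F.Xhat) := by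
  apply IsCompact.isClosed
  apply F.isCompact_Xhat.image
  fun_prop

theorem pair_mem {ζ : ℂ} (hζ : ‖ζ‖ < 1) :
    (ζ, ss 1 ζ) ∈ (fun x : ℂ × (F.Γ → ℝ) => (x.1, x.2 1)) '' F.Xhat := by
  refine ⟨F.iota ζ, F.iota_mem hζ, ?_⟩
  show (ζ, ss (((1 : F.Γ) : SL2)⁻¹) ζ) = (ζ, ss 1 ζ)
  rw [Subgroup.coe_one, inv_one]

theorem exists_one_one : ∃ x ∈ F.Xhat, x.1 = 1 ∧ x.2 1 = 1 := by
  have hmem : ((1 : ℂ), (1 : ℝ)) ∈ (fun x : ℂ × (F.Γ → ℝ) => (x.1, x.2 1)) '' F.Xhat := by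
    have hlim : Tendsto (fun r : ℝ => (((1 - r : ℝ) : ℂ), ss 1 ((1 - r : ℝ) : ℂ))) (𝓝[>] 0)
        (𝓝 ((1 : ℂ), (1 : ℝ))) := by
      have h1 : Tendsto (fun r : ℝ => ((1 - r : ℝ) : ℂ)) (𝓝[>] 0) (𝓝 1) := by
        have : Continuous fun r : ℝ => ((1 - r : ℝ) : ℂ) := by fun_prop
        have h := (this.tendsto 0).mono_left (nhdsWithin_le_nhds (s := Ioi 0))
        simpa using h
      have h2 : Tendsto (fun r : ℝ => ss 1 ((1 - r : ℝ) : ℂ)) (𝓝[>] 0) (𝓝 1) := by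
        have e : ∀ r : ℝ, ss 1 ((1 - r : ℝ) : ℂ) = √(2 - r) / (√(2 - r) + √r * lam 0) := by
          intro r
          unfold ss
          rw [pp_one, rr_one, qq_one, Complex.ofReal_re, Complex.ofReal_im, zero_div]
          rw [show (1 : ℝ) + (1 - r) = 2 - r by ring, show (1 : ℝ) - (1 - r) = r by ring]
        simp_rw [e]
        have hc : ContinuousAt (fun r : ℝ => √(2 - r) / (√(2 - r) + √r * lam 0)) 0 := by
          apply ContinuousAt.div
          · fun_prop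
          · fun_prop
          · simp
        have h := hc.tendsto.mono_left (nhdsWithin_le_nhds (s := Ioi 0))
        simpa using h
      exact h1.prodMk_nhds h2
    apply F.isClosed_pair.mem_of_tendsto hlim
    filter_upwards [Ioo_mem_nhdsGT (show (0 : ℝ) < 1 by norm_num)] with r hr
    apply F.pair_mem
    rw [Complex.norm_real, Real.norm_eq_abs, abs_of_pos (by linarith [hr.2])]
    linarith [hr.1]
  obtain ⟨x, hx, he⟩ := hmem
  exact ⟨x, hx, congrArg Prod.fst he, congrArg Prod.snd he⟩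

theorem pair_mem_zero {r : ℝ} (h0 : 0 < r) (h1 : r < 1) :
    ((⟨1 - r, -√(1 - (1 - r) ^ 2)⟩ : ℂ), (0 : ℝ)) ∈
      (fun x : ℂ × (F.Γ → ℝ) => (x.1, x.2 1)) '' F.Xhat := by
  have hE : 0 < 1 - (1 - r) ^ 2 := by nlinarith
  set E := 1 - (1 - r) ^ 2 with hEdef
  have hlim : Tendsto (fun δ : ℝ => ((⟨1 - r, -√(E - δ)⟩ : ℂ), ss 1 ⟨1 - r, -√(E - δ)⟩))
      (𝓝[>] 0) (𝓝 ((⟨1 - r, -√E⟩ : ℂ), (0 : ℝ))) := by
    have h2 : Tendsto (fun δ : ℝ => (⟨1 - r, -√(E - δ)⟩ : ℂ)) (𝓝[>] 0)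
        (𝓝 (⟨1 - r, -√E⟩ : ℂ)) := by
      have : Continuous fun δ : ℝ => (⟨1 - r, -√(E - δ)⟩ : ℂ) := by
        have e : (fun δ : ℝ => (⟨1 - r, -√(E - δ)⟩ : ℂ)) =
            fun δ : ℝ => ((1 - r : ℝ) : ℂ) + ((-√(E - δ) : ℝ) : ℂ) * Complex.I := by
          funext δ
          apply Complex.ext <;> simp
        rw [e]; fun_prop
      have h := (this.tendsto 0).mono_left (nhdsWithin_le_nhds (s := Ioi 0))
      simpa using h
    have h3 : Tendsto (fun δ : ℝ => ss 1 ⟨1 - r, -√(E - δ)⟩) (𝓝[>] 0) (𝓝 0) := by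
      have hx : Tendsto (fun δ : ℝ => -√(E - δ) / √δ) (𝓝[>] 0) atBot := by
        have k1 : Tendsto (fun δ : ℝ => √(E - δ)) (𝓝[>] 0) (𝓝 (√E)) := by
          have : Continuous fun δ : ℝ => √(E - δ) := by fun_prop
          have h := (this.tendsto 0).mono_left (nhdsWithin_le_nhds (s := Ioi 0))
          simpa using h
        have k2 : Tendsto (fun δ : ℝ => √δ) (𝓝[>] 0) (𝓝[>] 0) := by
          rw [tendsto_nhdsWithin_iff]
          constructor
          · have h := (Real.continuous_sqrt.tendsto 0).mono_left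
              (nhdsWithin_le_nhds (s := Ioi 0))
            simpa using h
          · filter_upwards [self_mem_nhdsWithin] with δ hδ
            exact Real.sqrt_pos.2 hδ
        have k3 : Tendsto (fun δ : ℝ => (√δ)⁻¹) (𝓝[>] 0) atTop := tendsto_inv_nhdsGT_zero.comp k2
        have k4 : Tendsto (fun δ : ℝ => √(E - δ) * (√δ)⁻¹) (𝓝[>] 0) atTop :=
          k1.pos_mul_atTop (Real.sqrt_pos.2 hE) k3
        have k5 := tendsto_neg_atTop_atBot.comp k4
        refine k5.congr fun δ => ?_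
        simp only [Function.comp_apply, div_eq_mul_inv]
        ring
      have hl : Tendsto (fun δ : ℝ => lam (-√(E - δ) / √δ)) (𝓝[>] 0) atTop :=
        tendsto_lam_atBot.comp hx
      have hl2 : Tendsto (fun δ : ℝ => √(2 - r) + √r * lam (-√(E - δ) / √δ)) (𝓝[>] 0) atTop :=
        tendsto_const_nhds.add_atTop (hl.const_mul_atTop (Real.sqrt_pos.2 h0))
      have hl3 : Tendsto (fun δ : ℝ => √(2 - r) / (√(2 - r) + √r * lam (-√(E - δ) / √δ)))
          (𝓝[>] 0) (𝓝 0) := tendsto_const_nhds.div_atTop hl2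
      apply hl3.congr'
      filter_upwards [Ioo_mem_nhdsGT hE] with δ hδ
      unfold ss
      rw [pp_one, rr_one, qq_one]
      have e1 : (1 : ℝ) - Complex.normSq ⟨1 - r, -√(E - δ)⟩ = δ := by
        rw [Complex.normSq_mk]
        have : √(E - δ) * √(E - δ) = E - δ := Real.mul_self_sqrt (by linarith [hδ.2])
        linear_combination -this + hEdef
      rw [e1]
      show √(2 - r) / (√(2 - r) + √r * lam (-√(E - δ) / √δ)) =
        √(1 + (1 - r)) / (√(1 + (1 - r)) + √(1 - (1 - r)) * lam (-√(E - δ) / √δ))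
      rw [show (1 : ℝ) + (1 - r) = 2 - r by ring, show (1 : ℝ) - (1 - r) = r by ring]
    exact h2.prodMk_nhds h3
  apply F.isClosed_pair.mem_of_tendsto hlim
  filter_upwards [Ioo_mem_nhdsGT hE] with δ hδ
  apply F.pair_mem
  have e1 : Complex.normSq ⟨1 - r, -√(E - δ)⟩ = 1 - δ := by
    rw [Complex.normSq_mk]
    have : √(E - δ) * √(E - δ) = E - δ := Real.mul_self_sqrt (by linarith [hδ.2])
    linear_combination this - hEdef
  rw [Complex.normSq_eq_norm_sq] at e1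
  have := hδ.1
  nlinarith [norm_nonneg (⟨1 - r, -√(E - δ)⟩ : ℂ)]

theorem exists_one_zero : ∃ x ∈ F.Xhat, x.1 = 1 ∧ x.2 1 = 0 := by
  have hmem : ((1 : ℂ), (0 : ℝ)) ∈ (fun x : ℂ × (F.Γ → ℝ) => (x.1, x.2 1)) '' F.Xhat := by
    have hlim : Tendsto (fun r : ℝ => ((⟨1 - r, -√(1 - (1 - r) ^ 2)⟩ : ℂ), (0 : ℝ))) (𝓝[>] 0)
        (𝓝 ((1 : ℂ), (0 : ℝ))) := by
      have h1 : Tendsto (fun r : ℝ => (⟨1 - r, -√(1 - (1 - r) ^ 2)⟩ : ℂ)) (𝓝[>] 0) (𝓝 1) := by
        have : Continuous fun r : ℝ => (⟨1 - r, -√(1 - (1 - r) ^ 2)⟩ : ℂ) := by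
          have e : (fun r : ℝ => (⟨1 - r, -√(1 - (1 - r) ^ 2)⟩ : ℂ)) =
              fun r : ℝ => ((1 - r : ℝ) : ℂ) + ((-√(1 - (1 - r) ^ 2) : ℝ) : ℂ) * Complex.I := by
            funext r
            apply Complex.ext <;> simp
          rw [e]; fun_prop
        have h := (this.tendsto 0).mono_left (nhdsWithin_le_nhds (s := Ioi 0))
        have e0 : (⟨1 - 0, -√(1 - (1 - 0) ^ 2)⟩ : ℂ) = 1 := by
          apply Complex.ext <;> simp
        rwa [e0] at h
      exact h1.prodMk_nhds tendsto_const_nhds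
    apply F.isClosed_pair.mem_of_tendsto hlim
    filter_upwards [Ioo_mem_nhdsGT (show (0 : ℝ) < 1 by norm_num)] with r hr
    exact F.pair_mem_zero hr.1 hr.2
  obtain ⟨x, hx, he⟩ := hmem
  exact ⟨x, hx, congrArg Prod.fst he, congrArg Prod.snd he⟩

theorem exists_neg_one : ∃ x ∈ F.Xhat, x.1 = -1 := by
  have hcl : IsClosed (Prod.fst '' F.Xhat : Set ℂ) :=
    (F.isCompact_Xhat.image _root_.continuous_fst).isClosed
  have hsub : Metric.closedBall (0 : ℂ) 1 ⊆ Prod.fst '' F.Xhat := by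
    rw [← closure_ball (0 : ℂ) one_ne_zero]
    apply closure_minimal _ hcl
    intro ζ hζ
    exact ⟨F.iota ζ, F.iota_mem (by simpa using hζ), rfl⟩
  obtain ⟨x, hx, he⟩ := hsub (show (-1 : ℂ) ∈ Metric.closedBall (0 : ℂ) 1 by simp)
  exact ⟨x, hx, he⟩

theorem mob_diag_one {A : SL2} (h01 : A.1 0 1 = 0) (h10 : A.1 1 0 = 0) : mob A 1 = 1 := by
  have hd := A.det_eq
  rw [h01, h10] at hd
  have ha : A.1 0 0 ≠ 0 := fun h => by rw [h] at hd; simp at hd
  have hp : pp A 1 = A.1 0 0 ^ 2 * 2 := by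
    unfold pp; rw [h01, Complex.one_re, Complex.one_im]; ring
  have hq : qq A 1 = 0 := by simp [qq, h01, h10]
  have hr : rr A 1 = 0 := by simp [rr, h10]
  apply Complex.ext
  · rw [mob_re, hp, hr]
    simp only [sub_zero, add_zero, Complex.one_re]
    field_simp
  · rw [mob_im, hq]; simp

theorem mob_diag_neg_one {A : SL2} (h01 : A.1 0 1 = 0) (h10 : A.1 1 0 = 0) :
    mob A (-1) = -1 := by
  have hd := A.det_eq
  rw [h01, h10] at hd
  have ha : A.1 1 1 ≠ 0 := fun h => by rw [h] at hd; simp at hd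
  have hp : pp A (-1) = 0 := by simp [pp, h01]
  have hq : qq A (-1) = 0 := by simp [qq, h01]
  have hr : rr A (-1) = A.1 1 1 ^ 2 * 2 := by
    unfold rr; rw [Complex.neg_re, Complex.neg_im, Complex.one_re, Complex.one_im]; ring
  apply Complex.ext
  · rw [mob_re, hp, hr]
    simp only [zero_sub, zero_add, Complex.neg_re, Complex.one_re]
    field_simp
  · rw [mob_im, hq]; simp

/-- bad coordinates over `1` -/
theorem rr_one_zero {h : F.Γ} (hr : rr ((h : SL2)⁻¹) 1 = 0) : ((h : SL2)⁻¹).1 1 0 = 0 := by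
  have : rr ((h : SL2)⁻¹) 1 = ((h : SL2)⁻¹).1 1 0 ^ 2 * 2 := by
    unfold rr; rw [Complex.one_re, Complex.one_im]; ring
  rw [this] at hr
  have h2 : ((h : SL2)⁻¹).1 1 0 ^ 2 = 0 := by linarith
  exact pow_eq_zero_iff two_ne_zero |>.1 h2

theorem bad_coord {x : ℂ × (F.Γ → ℝ)} (hx : x ∈ F.Xhat) {h : F.Γ}
    (hh : ((h : SL2)⁻¹).1 1 0 = 0) :
    x.2 h * (x.2 1 + ((h : SL2)⁻¹).1 1 1 ^ 2 * (1 - x.2 1)) = x.2 1 := by
  have := F.diag_rel hx h 1 (by rw [Subgroup.coe_one, mul_one]; exact hh)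
  rwa [Subgroup.coe_one, mul_one] at this

theorem bad_coord_one {x : ℂ × (F.Γ → ℝ)} (hx : x ∈ F.Xhat) (h1 : x.2 1 = 1) {h : F.Γ}
    (hh : ((h : SL2)⁻¹).1 1 0 = 0) : x.2 h = 1 := by
  have := F.bad_coord hx hh
  rw [h1] at this
  simpa using this

theorem bad_coord_zero {x : ℂ × (F.Γ → ℝ)} (hx : x ∈ F.Xhat) (h1 : x.2 1 = 0) {h : F.Γ}
    (hh : ((h : SL2)⁻¹).1 1 0 = 0) : x.2 h = 0 := by
  have := F.bad_coord hx hh
  rw [h1] at this
  have hd := SL2.det_eq ((h : SL2)⁻¹)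
  rw [hh] at hd
  have hne : ((h : SL2)⁻¹).1 1 1 ≠ 0 := fun h => by rw [h] at hd; simp at hd
  have hne2 : ((h : SL2)⁻¹).1 1 1 ^ 2 ≠ 0 := pow_ne_zero 2 hne
  rw [zero_add, sub_zero, mul_one] at this
  rcases mul_eq_zero.1 this with h | h
  · exact h
  · exact absurd h hne2

/-- the diagonal elements have three fixed points on the boundary -/
theorem three_fixed (g : F.Γ) (h01 : (g : SL2).1 0 1 = 0) (h10 : (g : SL2).1 1 0 = 0)
    (hne : ∀ k ∈ F.Γ, k.1 1 1 ≠ 0) : ∃ a b c : F.Car, a ∈ F.Bdry ∧ b ∈ F.Bdry ∧ c ∈ F.Bdry ∧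
      g • a = a ∧ g • b = b ∧ g • c = c ∧ a ≠ b ∧ b ≠ c ∧ a ≠ c := by
  obtain ⟨a, ha, ha1, ha2⟩ := F.exists_one_one
  obtain ⟨b, hb, hb1, hb2⟩ := F.exists_one_zero
  obtain ⟨c, hc, hc1⟩ := F.exists_neg_one
  have hg10 : ∀ {h : F.Γ}, ((h : SL2)⁻¹).1 1 0 = 0 → (((g⁻¹ * h : F.Γ) : SL2)⁻¹).1 1 0 = 0 := by
    intro h hh
    have e : (((g⁻¹ * h : F.Γ) : SL2)⁻¹) = (h : SL2)⁻¹ * (g : SL2) := by push_cast; group
    rw [e, SL2.mul_10, hh, h10]
    ring
  refine ⟨⟨a, ha⟩, ⟨b, hb⟩, ⟨c, hc⟩, ?_, ?_, ?_, ?_, ?_, ?_, ?_, ?_, ?_⟩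
  · show ‖a.1‖ = 1
    rw [ha1]; simp
  · show ‖b.1‖ = 1
    rw [hb1]; simp
  · show ‖c.1‖ = 1
    rw [hc1]; simp
  · apply Subtype.ext
    have e1 : (F.actP g a).1 = a.1 := by
      show mob (g : SL2) a.1 = a.1
      rw [ha1, mob_diag_one h01 h10]
    show F.actP g a = a
    apply F.fibre_eq (F.actP_mem g ha) ha e1 (by rw [e1, ha1]; simp)
    intro h hr
    rw [e1, ha1] at hr
    have hh := F.rr_one_zero hr
    rw [F.bad_coord_one ha ha2 hh]
    exact F.bad_coord_one ha ha2 (hg10 hh)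
  · apply Subtype.ext
    have e1 : (F.actP g b).1 = b.1 := by
      show mob (g : SL2) b.1 = b.1
      rw [hb1, mob_diag_one h01 h10]
    show F.actP g b = b
    apply F.fibre_eq (F.actP_mem g hb) hb e1 (by rw [e1, hb1]; simp)
    intro h hr
    rw [e1, hb1] at hr
    have hh := F.rr_one_zero hr
    rw [F.bad_coord_zero hb hb2 hh]
    exact F.bad_coord_zero hb hb2 (hg10 hh)
  · apply Subtype.ext
    have e1 : (F.actP g c).1 = c.1 := by
      show mob (g : SL2) c.1 = c.1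
      rw [hc1, mob_diag_neg_one h01 h10]
    show F.actP g c = c
    apply F.fibre_eq (F.actP_mem g hc) hc e1 (by rw [e1, hc1]; simp)
    intro h hr
    exfalso
    rw [e1, hc1] at hr
    have e2 : rr ((h : SL2)⁻¹) (-1) = ((h : SL2)⁻¹).1 1 1 ^ 2 * 2 := by
      unfold rr; rw [Complex.neg_re, Complex.neg_im, Complex.one_re, Complex.one_im]; ring
    rw [e2] at hr
    have h2 : ((h : SL2)⁻¹).1 1 1 ^ 2 = 0 := by linarith
    exact hne _ (F.Γ.inv_mem h.2) (pow_eq_zero_iff two_ne_zero |>.1 h2)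
  · intro h
    have : a = b := congrArg Subtype.val h
    rw [this, hb2] at ha2
    exact zero_ne_one ha2
  · intro h
    have : b = c := congrArg Subtype.val h
    rw [this, hc1] at hb1
    norm_num at hb1
  · intro h
    have : a = c := congrArg Subtype.val h
    rw [this, hc1] at ha1
    norm_num at ha1

end FData

end Pool.Agent.Helper56.EZ
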