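import Pool.Agent.Helper56.EZ.Defs

set_option autoImplicit false

open Set Filter Topology

namespace Pool.Agent.Helper56.EZ

variable {G : Type} [Group G]

/-- sequences whose mutual Gromov product tends to infinity -/
def Close (S : Set G) (u v : ℕ → G) : Prop :=
  ∀ N : ℝ, ∃ n₀ : ℕ, ∀ i ≥ n₀, ∀ j ≥ n₀, N ≤ gromovProduct S 1 (u i) (v j)

theorem Close.symm {S : Set G} (hS : Subgroup.closure S = ⊤) {u v : ℕ → G} (h : Close S u v) :
    Close S v u := by
  intro N
  obtain ⟨n₀, hn⟩ := h N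
  refine ⟨n₀, fun i hi j hj => ?_⟩
  rw [gromovProduct_comm S hS]
  exact hn j hj i hi

theorem Close.trans {S : Set G} (hyp : IsGromovHyperbolic S) {u v w : ℕ → G}
    (h : Close S u v) (h' : Close S v w) : Close S u w := by
  obtain ⟨δ, hδ⟩ := hyp
  intro N
  obtain ⟨n₀, hn⟩ := h (N + δ)
  obtain ⟨n₁, hn'⟩ := h' (N + δ)
  refine ⟨max n₀ n₁, fun i hi j hj => ?_⟩
  have h1 := hn i ((le_max_left _ _).trans hi) (max n₀ n₁) (le_max_left _ _)
  have h2 := hn' (max n₀ n₁) (le_max_right _ _) j ((le_max_right _ _).trans hj)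
  have h3 := hδ 1 (u i) (v (max n₀ n₁)) (w j)
  have h4 := le_min h1 h2
  linarith

theorem close_mul {S : GenSet G} (g : G) {u v : ℕ → G} (h : Close (S.1 : Set G) u v) :
    Close (S.1 : Set G) (fun n => g * u n) (fun n => g * v n) := by
  intro N
  obtain ⟨n₀, h⟩ := h (N + wordDist (S.1 : Set G) 1 g⁻¹)
  refine ⟨n₀, fun i hi j hj => ?_⟩
  have h1 := h i hi j hj
  have h2 := gromovProduct_base (S.1 : Set G) S.2 1 g⁻¹ (u i) (v j)
  have h3 := gromovProduct_mul_left (S.1 : Set G) g g⁻¹ (u i) (v j)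
  rw [mul_inv_cancel] at h3
  show N ≤ gromovProduct (S.1 : Set G) 1 (g * u i) (g * v j)
  rw [h3]
  linarith

theorem close_of_eq (S : GenSet G) (hyp : IsGromovHyperbolic (S.1 : Set G))
    {u v : {u : ℕ → G // ConvergesAtInfinity S u}}
    (h : Quot.mk (EquivAtInfinity S) u = Quot.mk (EquivAtInfinity S) v) :
    Close (S.1 : Set G) u.1 v.1 := by
  have h1 := Quot.eqvGen_exact h
  clear h
  induction h1 with
  | rel x y h => exact h
  | refl x => exact x.2
  | symm x y _ ih => exact ih.symm S.2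
  | trans x y z _ _ ih1 ih2 => exact ih1.trans hyp ih2

/-- if two sequences converging at infinity are not close then their mutual Gromov products
are eventually bounded -/
theorem bounded_of_not_close {S : GenSet G} (hyp : IsGromovHyperbolic (S.1 : Set G))
    {u v : ℕ → G} (hu : ConvergesAtInfinity S u) (hv : ConvergesAtInfinity S v)
    (h : ¬ Close (S.1 : Set G) u v) :
    ∃ C : ℝ, ∃ n₀ : ℕ, ∀ i ≥ n₀, ∀ j ≥ n₀, gromovProduct (S.1 : Set G) 1 (u i) (v j) ≤ C := by
  obtain ⟨δ, hδ⟩ := hyp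
  unfold Close at h
  push Not at h
  obtain ⟨N, hN⟩ := h
  obtain ⟨n₀, hn₀⟩ := hu (N + 2 * |δ| + 1)
  obtain ⟨n₁, hn₁⟩ := hv (N + 2 * |δ| + 1)
  refine ⟨N + 2 * |δ|, max n₀ n₁, fun i hi j hj => ?_⟩
  by_contra hcon
  push Not at hcon
  obtain ⟨i', hi', j', hj', hlt⟩ := hN (max n₀ n₁)
  have h1 := hn₀ i' ((le_max_left _ _).trans hi') i ((le_max_left _ _).trans hi)
  have h2 := hn₁ j ((le_max_right _ _).trans hj) j' ((le_max_right _ _).trans hj')
  have h3 := hδ 1 (u i') (u i) (v j)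
  have h4 := hδ 1 (u i') (v j) (v j')
  have h5 := le_abs_self δ
  have h6 : N + |δ| < gromovProduct (S.1 : Set G) 1 (u i') (v j) := by
    have : N + 2 * |δ| < min (gromovProduct (S.1 : Set G) 1 (u i') (u i))
        (gromovProduct (S.1 : Set G) 1 (u i) (v j)) := lt_min (by linarith) hcon
    linarith
  have h7 : N < gromovProduct (S.1 : Set G) 1 (u i') (v j') := by
    have : N + |δ| < min (gromovProduct (S.1 : Set G) 1 (u i') (v j))
        (gromovProduct (S.1 : Set G) 1 (v j) (v j')) := lt_min h6 (by linarith [abs_nonneg δ])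
    linarith
  linarith

/-- exact base point change -/
theorem gromovProduct_change (S : Set G) (hS : Subgroup.closure S = ⊤) (p q x y : G) :
    gromovProduct S q x y = gromovProduct S p x y + wordDist S p q
      - gromovProduct S p x q - gromovProduct S p y q := by
  unfold gromovProduct
  rw [wordDist_comm S hS q p]
  ring

/-- balls are finite -/
theorem finite_ball (S : GenSet G) (n : ℕ) : {g : G | wordLength (S.1 : Set G) g ≤ n}.Finite := by
  classical
  let T : Finset G := S.1 ∪ S.1.image (fun a => a⁻¹)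
  have hsub : {g : G | wordLength (S.1 : Set G) g ≤ n} ⊆
      ⋃ m ∈ Set.Iic n, (fun f : Fin m → T => (List.ofFn fun i => (f i : G)).prod) '' Set.univ := by
    intro g hg
    obtain ⟨l, hl, hl', hp⟩ := exists_list_length (S.1 : Set G) S.2 g
    rw [mem_iUnion₂]
    refine ⟨l.length, by rw [hl]; exact hg, fun i => ⟨l.get i, ?_⟩, trivial, ?_⟩
    · rcases hl' (l.get i) (List.get_mem l i) with h | h
      · exact Finset.mem_union_left _ h
      · refine Finset.mem_union_right _ (Finset.mem_image.2 ⟨(l.get i)⁻¹, h, inv_inv _⟩)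
    · show (List.ofFn fun i => l.get i).prod = g
      rw [List.ofFn_get, hp]
  refine Set.Finite.subset ?_ hsub
  exact (Set.finite_Iic n).biUnion fun m _ => Set.toFinite _

/-- an element of infinite order has at most two fixed points on the boundary -/
theorem fixed_le_two (S : GenSet G) (hyp : IsGromovHyperbolic (S.1 : Set G)) (g : G)
    (hg : ∀ n : ℕ, 0 < n → g ^ n ≠ 1) (a b c : GromovBoundary S)
    (ha : GromovBoundary.act g a = a) (hb : GromovBoundary.act g b = b)
    (hc : GromovBoundary.act g c = c) : a = b ∨ b = c ∨ a = c := by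
  by_contra hcon
  push Not at hcon
  obtain ⟨hab, hbc, hac⟩ := hcon
  obtain ⟨u, rfl⟩ := Quot.exists_rep a
  obtain ⟨v, rfl⟩ := Quot.exists_rep b
  obtain ⟨w, rfl⟩ := Quot.exists_rep c
  -- invariance under powers
  have hpow : ∀ (x : {u : ℕ → G // ConvergesAtInfinity S u}),
      GromovBoundary.act g (Quot.mk _ x) = Quot.mk _ x → ∀ k : ℕ,
      Close (S.1 : Set G) (fun n => g ^ k * x.1 n) x.1 := by
    intro x hx k
    have h1 : Close (S.1 : Set G) (fun n => g * x.1 n) x.1 := close_of_eq S hyp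
      (u := ⟨fun n => g * x.1 n, convergesAtInfinity_mul S g x.2⟩) (v := x) hx
    induction k with
    | zero =>
      simp only [pow_zero, one_mul]
      exact x.2
    | succ k ih =>
      have h2 := close_mul (S := S) g ih
      have h3 : (fun n => g ^ (k + 1) * x.1 n) = fun n => g * (g ^ k * x.1 n) := by
        funext n; rw [pow_succ', mul_assoc]
      rw [h3]
      exact h2.trans hyp h1
  have hu := hpow u ha
  have hv := hpow v hb
  have hw := hpow w hc
  have nuv : ¬ Close (S.1 : Set G) u.1 v.1 := fun h => hab (Quot.sound h)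
  have nvw : ¬ Close (S.1 : Set G) v.1 w.1 := fun h => hbc (Quot.sound h)
  have nuw : ¬ Close (S.1 : Set G) u.1 w.1 := fun h => hac (Quot.sound h)
  obtain ⟨C₁, n₁, h₁⟩ := bounded_of_not_close hyp u.2 v.2 nuv
  obtain ⟨C₂, n₂, h₂⟩ := bounded_of_not_close hyp v.2 w.2 nvw
  obtain ⟨C₃, n₃, h₃⟩ := bounded_of_not_close hyp u.2 w.2 nuw
  obtain ⟨δ, hδ⟩ := hyp
  set C := max (max C₁ C₂) C₃ with hC
  set n₀ := max (max n₁ n₂) n₃ with hn₀
  have b1 : ∀ i ≥ n₀, ∀ j ≥ n₀, gromovProduct (S.1 : Set G) 1 (u.1 i) (v.1 j) ≤ C := by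
    intro i hi j hj
    exact (h₁ i (((le_max_left _ _).trans (le_max_left _ _)).trans hi) j
      (((le_max_left _ _).trans (le_max_left _ _)).trans hj)).trans
      ((le_max_left _ _).trans (le_max_left _ _))
  have b2 : ∀ i ≥ n₀, ∀ j ≥ n₀, gromovProduct (S.1 : Set G) 1 (v.1 i) (w.1 j) ≤ C := by
    intro i hi j hj
    exact (h₂ i (((le_max_right _ _).trans (le_max_left _ _)).trans hi) j
      (((le_max_right _ _).trans (le_max_left _ _)).trans hj)).trans
      ((le_max_right _ _).trans (le_max_left _ _))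
  have b3 : ∀ i ≥ n₀, ∀ j ≥ n₀, gromovProduct (S.1 : Set G) 1 (u.1 i) (w.1 j) ≤ C := by
    intro i hi j hj
    exact (h₃ i ((le_max_right _ _).trans hi) j ((le_max_right _ _).trans hj)).trans
      (le_max_right _ _)
  -- bound at translated base points
  have key : ∀ (x y : {u : ℕ → G // ConvergesAtInfinity S u}),
      (∀ k : ℕ, Close (S.1 : Set G) (fun n => g ^ k * x.1 n) x.1) →
      (∀ k : ℕ, Close (S.1 : Set G) (fun n => g ^ k * y.1 n) y.1) →
      (∀ i ≥ n₀, ∀ j ≥ n₀, gromovProduct (S.1 : Set G) 1 (x.1 i) (y.1 j) ≤ C) →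
      ∀ k : ℕ, ∃ m₀ : ℕ, ∀ m ≥ m₀,
        wordDist (S.1 : Set G) 1 (g ^ k)⁻¹ - (C + 2 * |δ|) ≤
          gromovProduct (S.1 : Set G) 1 (x.1 m) (g ^ k)⁻¹ +
          gromovProduct (S.1 : Set G) 1 (y.1 m) (g ^ k)⁻¹ := by
    intro x y hx hy hxy k
    obtain ⟨m₁, hm₁⟩ := hx k (C + 2 * |δ| + 1)
    obtain ⟨m₂, hm₂⟩ := hy k (C + 2 * |δ| + 1)
    refine ⟨max (max m₁ m₂) n₀, fun m hm => ?_⟩
    have l1 : m₁ ≤ m := ((le_max_left _ _).trans (le_max_left _ _)).trans hm
    have l2 : m₂ ≤ m := ((le_max_right _ _).trans (le_max_left _ _)).trans hm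
    have l3 : n₀ ≤ m := (le_max_right _ _).trans hm
    have e1 := hm₁ m l1 m l1
    have e2 := hm₂ m l2 m l2
    have e3 := hxy m l3 m l3
    -- the product of the translates
    have e4 : gromovProduct (S.1 : Set G) 1 (g ^ k * x.1 m) (g ^ k * y.1 m) ≤ C + 2 * |δ| := by
      by_contra hcon
      push Not at hcon
      have f1 := hδ 1 (x.1 m) (g ^ k * x.1 m) (g ^ k * y.1 m)
      have f2 := hδ 1 (x.1 m) (g ^ k * y.1 m) (y.1 m)
      have f3 := le_abs_self δ
      rw [gromovProduct_comm (S.1 : Set G) S.2 1 (x.1 m) (g ^ k * x.1 m)] at f1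
      have f4 : C + |δ| < gromovProduct (S.1 : Set G) 1 (x.1 m) (g ^ k * y.1 m) := by
        have : C + 2 * |δ| < min (gromovProduct (S.1 : Set G) 1 (g ^ k * x.1 m) (x.1 m))
            (gromovProduct (S.1 : Set G) 1 (g ^ k * x.1 m) (g ^ k * y.1 m)) :=
          lt_min (by linarith) hcon
        linarith
      have : C + |δ| < min (gromovProduct (S.1 : Set G) 1 (x.1 m) (g ^ k * y.1 m))
          (gromovProduct (S.1 : Set G) 1 (g ^ k * y.1 m) (y.1 m)) :=
        lt_min f4 (by linarith [abs_nonneg δ])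
      linarith
    have e5 := gromovProduct_mul_left (S.1 : Set G) (g ^ k) (g ^ k)⁻¹ (x.1 m) (y.1 m)
    rw [mul_inv_cancel] at e5
    rw [e5, gromovProduct_change (S.1 : Set G) S.2 1] at e4
    have e6 := gromovProduct_nonneg (S.1 : Set G) S.2 1 (x.1 m) (y.1 m)
    linarith
  -- bounded displacement
  have hbd : ∀ k : ℕ, wordDist (S.1 : Set G) 1 (g ^ k)⁻¹ ≤ 3 * |C| + 4 * |δ| := by
    intro k
    obtain ⟨m₁, e₁⟩ := key u v hu hv b1 k
    obtain ⟨m₂, e₂⟩ := key v w hv hw b2 k
    obtain ⟨m₃, e₃⟩ := key u w hu hw b3 k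
    set m := max (max (max m₁ m₂) m₃) n₀ with hm
    have l1 : m₁ ≤ m :=
      ((le_max_left _ _).trans (le_max_left _ _)).trans (le_max_left _ _)
    have l2 : m₂ ≤ m :=
      ((le_max_right _ _).trans (le_max_left _ _)).trans (le_max_left _ _)
    have l3 : m₃ ≤ m := (le_max_right _ _).trans (le_max_left _ _)
    have l4 : n₀ ≤ m := le_max_right _ _
    have f1 := e₁ m l1
    have f2 := e₂ m l2
    have f3 := e₃ m l3
    set d := wordDist (S.1 : Set G) 1 (g ^ k)⁻¹
    set q := (g ^ k)⁻¹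
    set A := gromovProduct (S.1 : Set G) 1 (u.1 m) q with hA
    set B := gromovProduct (S.1 : Set G) 1 (v.1 m) q with hB
    set D := gromovProduct (S.1 : Set G) 1 (w.1 m) q with hD
    have g1 := hδ 1 (u.1 m) q (v.1 m)
    have g2 := hδ 1 (v.1 m) q (w.1 m)
    have g3 := hδ 1 (u.1 m) q (w.1 m)
    rw [gromovProduct_comm (S.1 : Set G) S.2 1 q (v.1 m), ← hA, ← hB] at g1
    rw [gromovProduct_comm (S.1 : Set G) S.2 1 q (w.1 m), ← hB, ← hD] at g2
    rw [gromovProduct_comm (S.1 : Set G) S.2 1 q (w.1 m), ← hA, ← hD] at g3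
    have c1 := b1 m l4 m l4
    have c2 := b2 m l4 m l4
    have c3 := b3 m l4 m l4
    have hCabs := le_abs_self C
    have hδabs := le_abs_self δ
    by_contra hlt
    push Not at hlt
    have t : ∀ x y : ℝ, min x y ≤ |C| + |δ| → x ≤ |C| + |δ| ∨ y ≤ |C| + |δ| := by
      intro x y h
      exact min_le_iff.1 h
    have m1 : A ≤ |C| + |δ| ∨ B ≤ |C| + |δ| := t A B (by linarith)
    have m2 : B ≤ |C| + |δ| ∨ D ≤ |C| + |δ| := t B D (by linarith)
    have m3 : A ≤ |C| + |δ| ∨ D ≤ |C| + |δ| := t A D (by linarith)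
    rcases m1 with m1 | m1 <;> rcases m2 with m2 | m2 <;> rcases m3 with m3 | m3 <;> linarith
  -- finite balls give a contradiction
  obtain ⟨N, hN⟩ := exists_nat_ge (3 * |C| + 4 * |δ|)
  have hfin := finite_ball S N
  have hinj : Function.Injective (fun k : ℕ => (g ^ k)⁻¹) := by
    intro i j hij
    have h1 : g ^ i = g ^ j := inv_injective hij
    rcases lt_trichotomy i j with h | h | h
    · exfalso
      apply hg (j - i) (by omega)
      rw [pow_sub g h.le, h1, mul_inv_cancel]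
    · exact h
    · exfalso
      apply hg (i - j) (by omega)
      rw [pow_sub g h.le, h1, mul_inv_cancel]
  refine Set.infinite_range_of_injective hinj (hfin.subset ?_)
  rintro _ ⟨k, rfl⟩
  have h1 := (hbd k).trans hN
  unfold wordDist at h1
  rw [inv_one, one_mul] at h1
  exact_mod_cast h1

end Pool.Agent.Helper56.EZ
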