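import Mathlib

set_option autoImplicit false

open Set Filter Topology

namespace Pool.Agent.Helper56.EZ

/-- softplus function -/
noncomputable def Lam (T : ℝ) : ℝ := 1 + Real.log (1 + Real.exp (-T))

theorem Lam_anti {T T' : ℝ} (h : T' ≤ T) : Lam T ≤ Lam T' := by
  unfold Lam
  have h1 : Real.exp (-T) ≤ Real.exp (-T') := Real.exp_le_exp.2 (by linarith)
  have h2 : Real.log (1 + Real.exp (-T)) ≤ Real.log (1 + Real.exp (-T')) :=
    Real.log_le_log (by positivity) (by linarith)
  linarith

theorem Lam_lip_aux {T T' : ℝ} (h : T' ≤ T) : Lam T' ≤ Lam T + (T - T') := by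
  unfold Lam
  have h1 : 1 + Real.exp (-T') ≤ (1 + Real.exp (-T)) * Real.exp (T - T') := by
    have e1 : Real.exp (-T) * Real.exp (T - T') = Real.exp (-T') := by
      rw [← Real.exp_add]; congr 1; ring
    have e2 : 1 ≤ Real.exp (T - T') := Real.one_le_exp (by linarith)
    rw [add_mul, e1]
    linarith
  have h2 := Real.log_le_log (by positivity) h1
  rw [Real.log_mul (by positivity) (by positivity), Real.log_exp] at h2
  linarith

theorem Lam_lip (T T' : ℝ) : |Lam T - Lam T'| ≤ |T - T'| := by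
  rcases le_total T' T with h | h
  · rw [abs_of_nonpos (by linarith [Lam_anti h]), abs_of_nonneg (by linarith)]
    linarith [Lam_lip_aux h]
  · rw [abs_of_nonneg (by linarith [Lam_anti h]), abs_of_nonpos (by linarith)]
    linarith [Lam_lip_aux h]

theorem one_le_Lam (T : ℝ) : 1 ≤ Lam T := by
  unfold Lam
  have : 0 ≤ Real.log (1 + Real.exp (-T)) :=
    Real.log_nonneg (by linarith [Real.exp_pos (-T)])
  linarith

theorem Lam_pos (T : ℝ) : 0 < Lam T := lt_of_lt_of_le one_pos (one_le_Lam T)

theorem Lam_ge (T : ℝ) : 1 - T ≤ Lam T := by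
  unfold Lam
  have h1 : Real.exp (-T) ≤ 1 + Real.exp (-T) := by linarith
  have h2 := Real.log_le_log (Real.exp_pos _) h1
  rw [Real.log_exp] at h2
  linarith

theorem Lam_le (T : ℝ) : Lam T ≤ 1 + Real.exp (-T) := by
  unfold Lam
  have := Real.log_le_sub_one_of_pos (x := 1 + Real.exp (-T)) (by positivity)
  linarith

theorem Lam_zero_le : Lam 0 ≤ 2 := by
  have := Lam_le 0
  simp at this
  linarith

theorem Lam_le_of_abs {T b : ℝ} (h : |T| ≤ b) : Lam T ≤ 2 + b := by
  have h1 := Lam_lip T 0
  have h2 := le_abs_self (Lam T - Lam 0)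
  have h3 := Lam_zero_le
  rw [sub_zero] at h1
  linarith

theorem absdiff_log {x x' : ℝ} (hx : 0 < x) (hx' : 0 < x') :
    |1 / (1 + x) - 1 / (1 + x')| ≤ |Real.log x - Real.log x'| := by
  wlog h : x ≤ x' generalizing x x'
  · have := this hx' hx (le_of_not_ge h)
    rw [abs_sub_comm, abs_sub_comm (Real.log x)]
    exact this
  have h1 : 0 ≤ 1 / (1 + x) - 1 / (1 + x') := by
    have : 1 / (1 + x') ≤ 1 / (1 + x) := one_div_le_one_div_of_le (by linarith) (by linarith)
    linarith
  have h2 : Real.log x ≤ Real.log x' := Real.log_le_log hx h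
  rw [abs_of_nonneg h1, abs_sub_comm, abs_of_nonneg (by linarith)]
  have h3 : 1 / (1 + x) - 1 / (1 + x') ≤ 1 - x / x' := by
    have e : 1 / (1 + x) - 1 / (1 + x') = (x' - x) / ((1 + x) * (1 + x')) := by
      field_simp; ring
    have e' : 1 - x / x' = (x' - x) / x' := by field_simp
    rw [e, e']
    apply div_le_div_of_nonneg_left (by linarith) hx'
    nlinarith
  have h4 : 1 - x / x' ≤ Real.log (x' / x) := by
    have := Real.one_sub_inv_le_log_of_pos (x := x' / x) (by positivity)
    rw [inv_div] at this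
    exact this
  rw [Real.log_div hx'.ne' hx.ne'] at h4
  linarith

theorem absdiff_small {x x' a : ℝ} (hx : 0 < x) (hx' : 0 < x') (h : x ≤ a) (h' : x' ≤ a) :
    |1 / (1 + x) - 1 / (1 + x')| ≤ a := by
  have e1 : 1 / (1 + x) ≤ 1 := by rw [div_le_one (by linarith)]; linarith
  have e2 : 1 / (1 + x') ≤ 1 := by rw [div_le_one (by linarith)]; linarith
  have e3 : 1 - x ≤ 1 / (1 + x) := by rw [le_div_iff₀ (by linarith)]; nlinarith
  have e4 : 1 - x' ≤ 1 / (1 + x') := by rw [le_div_iff₀ (by linarith)]; nlinarith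
  rw [abs_le]
  constructor <;> linarith

theorem absdiff_large {x x' a : ℝ} (hx : 0 < x) (hx' : 0 < x') (h : 1 / x ≤ a)
    (h' : 1 / x' ≤ a) : |1 / (1 + x) - 1 / (1 + x')| ≤ a := by
  have e1 : 1 / (1 + x) ≤ 1 / x := one_div_le_one_div_of_le hx (by linarith)
  have e2 : 1 / (1 + x') ≤ 1 / x' := one_div_le_one_div_of_le hx' (by linarith)
  have e3 : 0 < 1 / (1 + x) := by positivity
  have e4 : 0 < 1 / (1 + x') := by positivity
  rw [abs_le]
  constructor <;> linarith

theorem abs_le_cosh (x : ℝ) : |x| ≤ Real.cosh x := by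
  rw [← Real.cosh_abs]
  have h1 : |x| ≤ Real.sinh |x| := Real.self_le_sinh_iff.2 (abs_nonneg x)
  linarith [Real.sinh_lt_cosh |x|]

theorem sq_le_cosh (x : ℝ) : x ^ 2 ≤ 2 * (Real.cosh x - 1) := by
  have h1 : Real.cosh x = 2 * Real.sinh (x / 2) ^ 2 + 1 := by
    have h2 := Real.cosh_two_mul (x / 2)
    rw [show 2 * (x / 2) = x by ring] at h2
    have h3 := Real.cosh_sq (x / 2)
    linarith
  have h2 : |x / 2| ≤ Real.sinh |x / 2| := Real.self_le_sinh_iff.2 (abs_nonneg _)
  have h3 : (x / 2) ^ 2 ≤ Real.sinh (x / 2) ^ 2 := by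
    rw [← sq_abs (x / 2), ← sq_abs (Real.sinh (x / 2)), Real.abs_sinh]
    exact pow_le_pow_left₀ (abs_nonneg _) h2 2
  rw [h1]; nlinarith

/-- Real variable form of the slow variation of the function
`(u, T) ↦ 1 / (1 + Lam T * exp (-u))` in Fermi coordinates. -/
theorem higson_real (C ε : ℝ) (hε : 0 < ε) : ∃ M : ℝ, ∀ u T u' T' : ℝ,
    Real.cosh T * Real.cosh T' * Real.cosh (u - u') - Real.sinh T * Real.sinh T' ≤ C →
    M ≤ Real.cosh T * Real.cosh u →
    |1 / (1 + Lam T * Real.exp (-u)) - 1 / (1 + Lam T' * Real.exp (-u'))| ≤ ε := by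
  -- choice of `T₁`
  obtain ⟨T₁, hT1, hT2, hT3, hT4⟩ : ∃ T₁ : ℝ, |C| < T₁ ∧ 2 * |C| ≤ (ε / 2) ^ 2 * Real.cosh T₁ ∧
      |C| ≤ ε / 2 * (T₁ - |C|) ∧ Real.exp (-(T₁ - |C|)) ≤ ε / 2 := by
    have e1 : ∀ᶠ t : ℝ in atTop, |C| < t := eventually_gt_atTop _
    have hcosh : Tendsto Real.cosh atTop atTop := by
      apply tendsto_atTop_mono (f := fun x => x) (fun x => (le_abs_self x).trans (abs_le_cosh x))
      exact tendsto_id
    have e2 : ∀ᶠ t : ℝ in atTop, 2 * |C| ≤ (ε / 2) ^ 2 * Real.cosh t :=
      (hcosh.const_mul_atTop (by positivity)).eventually_ge_atTop _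
    have e3 : ∀ᶠ t : ℝ in atTop, |C| ≤ ε / 2 * (t - |C|) :=
      ((tendsto_atTop_add_const_right atTop (-|C|) tendsto_id).const_mul_atTop
        (by positivity)).eventually_ge_atTop _
    have e4 : ∀ᶠ t : ℝ in atTop, Real.exp (-(t - |C|)) ≤ ε / 2 := by
      have h1 : Tendsto (fun t : ℝ => Real.exp (-(t - |C|))) atTop (𝓝 0) :=
        Real.tendsto_exp_neg_atTop_nhds_zero.comp
          (tendsto_atTop_add_const_right atTop (-|C|) tendsto_id)
      exact h1.eventually (Iic_mem_nhds (by positivity)) 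
    obtain ⟨t, h1, h2, h3, h4⟩ := (e1.and (e2.and (e3.and e4))).exists
    exact ⟨t, h1, h2, h3, h4⟩
  -- choice of `U₁`
  obtain ⟨U₁, hU1⟩ : ∃ U₁ : ℝ, (2 + T₁ + |C|) * Real.exp (-(U₁ - (|C| + 2))) ≤ ε := by
    have h1 : Tendsto (fun t : ℝ => (2 + T₁ + |C|) * Real.exp (-(t - (|C| + 2)))) atTop (𝓝 0) := by
      have h2 : Tendsto (fun t : ℝ => Real.exp (-(t - (|C| + 2)))) atTop (𝓝 0) :=
        Real.tendsto_exp_neg_atTop_nhds_zero.comp
          (tendsto_atTop_add_const_right atTop (-(|C| + 2)) tendsto_id)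
      simpa using h2.const_mul (2 + T₁ + |C|)
    obtain ⟨t, ht⟩ := (h1.eventually (Iic_mem_nhds hε)).exists
    exact ⟨t, ht⟩
  refine ⟨Real.cosh T₁ * Real.exp |U₁|, ?_⟩
  intro u T u' T' hC hM
  have hCC : C ≤ |C| := le_abs_self C
  have hC0 : 0 ≤ |C| := abs_nonneg C
  have hcT : 1 ≤ Real.cosh T := Real.one_le_cosh T
  have hcT' : 1 ≤ Real.cosh T' := Real.one_le_cosh T'
  have hcu : 1 ≤ Real.cosh (u - u') := Real.one_le_cosh _
  have hTT : Real.cosh (T - T') ≤ |C| := by
    rw [Real.cosh_sub]
    have : Real.cosh T * Real.cosh T' ≤ Real.cosh T * Real.cosh T' * Real.cosh (u - u') :=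
      le_mul_of_one_le_right (by positivity) hcu
    linarith
  have hTT' : |T - T'| ≤ |C| := (abs_le_cosh _).trans hTT
  have huu : Real.cosh T * (Real.cosh (u - u') - 1) ≤ |C| := by
    have h1 : Real.cosh T * Real.cosh T' * (Real.cosh (u - u') - 1) ≤ |C| := by
      have h2 : 1 ≤ Real.cosh (T - T') := Real.one_le_cosh _
      rw [Real.cosh_sub] at h2
      nlinarith
    have h3 : Real.cosh T * (Real.cosh (u - u') - 1) ≤
        Real.cosh T * Real.cosh T' * (Real.cosh (u - u') - 1) := by
      have : 0 ≤ Real.cosh T * (Real.cosh (u - u') - 1) := by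
        apply mul_nonneg <;> linarith
      nlinarith
    linarith
  have huu' : |u - u'| ≤ |C| + 2 := by
    have h1 : Real.cosh (u - u') - 1 ≤ |C| := by nlinarith
    have := abs_le_cosh (u - u')
    linarith
  have hL := Lam_pos T
  have hL' := Lam_pos T'
  have hx : 0 < Lam T * Real.exp (-u) := by positivity
  have hx' : 0 < Lam T' * Real.exp (-u') := by positivity
  rcases le_or_gt T₁ |T| with hcase | hcase
  · -- `|T|` is large
    have hlog : |Real.log (Lam T * Real.exp (-u)) - Real.log (Lam T' * Real.exp (-u'))| ≤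
        |u - u'| + |Real.log (Lam T) - Real.log (Lam T')| := by
      rw [Real.log_mul hL.ne' (by positivity), Real.log_mul hL'.ne' (by positivity),
        Real.log_exp, Real.log_exp]
      have : Real.log (Lam T) + -u - (Real.log (Lam T') + -u') =
        -(u - u') + (Real.log (Lam T) - Real.log (Lam T')) := by ring
      rw [this]
      exact (abs_add_le _ _).trans (by rw [abs_neg])
    have h1 : |u - u'| ≤ ε / 2 := by
      have hcoshT : Real.cosh T₁ ≤ Real.cosh T := by
        rw [Real.cosh_le_cosh, abs_of_pos (lt_of_le_of_lt hC0 hT1)]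
        exact hcase
      have h2 := sq_le_cosh (u - u')
      have h3 : Real.cosh T₁ * (u - u') ^ 2 ≤ 2 * |C| := by
        have h4 : Real.cosh T₁ * (u - u') ^ 2 ≤ Real.cosh T * (u - u') ^ 2 :=
          mul_le_mul_of_nonneg_right hcoshT (sq_nonneg _)
        have h5 : Real.cosh T * (u - u') ^ 2 ≤ Real.cosh T * (2 * (Real.cosh (u - u') - 1)) :=
          mul_le_mul_of_nonneg_left h2 (by linarith)
        linarith
      have h6 : 0 < Real.cosh T₁ := Real.cosh_pos _
      have h7 : (u - u') ^ 2 ≤ (ε / 2) ^ 2 := by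
        have : Real.cosh T₁ * (u - u') ^ 2 ≤ Real.cosh T₁ * (ε / 2) ^ 2 := by linarith
        exact le_of_mul_le_mul_left this h6
      exact abs_le_of_sq_le_sq h7 (by positivity)
    have h2 : |Real.log (Lam T) - Real.log (Lam T')| ≤ ε / 2 := by
      rcases le_or_gt 0 T with hT0 | hT0
      · -- `T ≥ T₁`
        rw [abs_of_nonneg hT0] at hcase
        have hT'1 : T₁ - |C| ≤ T' := by linarith [(abs_le.1 hTT').2]
        have e1 : Real.log (Lam T) ≤ ε / 2 := by
          have a1 := Real.log_le_sub_one_of_pos hL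
          have a2 := Lam_le T
          have a3 : Real.exp (-T) ≤ Real.exp (-(T₁ - |C|)) := Real.exp_le_exp.2 (by linarith)
          linarith
        have e2 : Real.log (Lam T') ≤ ε / 2 := by
          have a1 := Real.log_le_sub_one_of_pos hL'
          have a2 := Lam_le T'
          have a3 : Real.exp (-T') ≤ Real.exp (-(T₁ - |C|)) := Real.exp_le_exp.2 (by linarith)
          linarith
        have e3 := Real.log_nonneg (one_le_Lam T)
        have e4 := Real.log_nonneg (one_le_Lam T')
        rw [abs_le]; constructor <;> linarith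
      · -- `T ≤ -T₁`
        rw [abs_of_neg hT0] at hcase
        have e1 : T₁ - |C| ≤ Lam T := by linarith [Lam_ge T]
        have e2 : T₁ - |C| ≤ Lam T' := by
          linarith [Lam_ge T', (abs_le.1 hTT').1, (abs_le.1 hTT').2]
        have e3 : 0 < T₁ - |C| := by linarith
        have e4 := Lam_lip T T'
        -- |log a - log b| ≤ |a - b| / min
        have e5 : ∀ a b : ℝ, T₁ - |C| ≤ a → T₁ - |C| ≤ b → |a - b| ≤ |C| →
            Real.log a - Real.log b ≤ ε / 2 := by
          intro a b ha hb hab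
          have hapos : 0 < a := by linarith
          have hbpos : 0 < b := by linarith
          rw [← Real.log_div hapos.ne' hbpos.ne']
          have f1 := Real.log_le_sub_one_of_pos (x := a / b) (by positivity)
          have f2 : a / b - 1 ≤ ε / 2 := by
            rw [div_sub_one hbpos.ne', div_le_iff₀ hbpos]
            have f3 : a - b ≤ |C| := (le_abs_self _).trans hab
            have f4 : ε / 2 * (T₁ - |C|) ≤ ε / 2 * b :=
              mul_le_mul_of_nonneg_left hb (by positivity)
            linarith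
          linarith
        have e6 := e5 _ _ e1 e2 (e4.trans hTT')
        have e7 := e5 _ _ e2 e1 (by rw [abs_sub_comm]; exact e4.trans hTT')
        rw [abs_le]; constructor <;> linarith
    calc _ ≤ _ := absdiff_log hx hx'
      _ ≤ _ := hlog
      _ ≤ ε := by linarith
  · -- `|T| < T₁`, hence `|u|` is large
    have hcoshT : Real.cosh T ≤ Real.cosh T₁ := by
      rw [Real.cosh_le_cosh, abs_of_pos (lt_of_le_of_lt hC0 hT1)]
      exact hcase.le
    have h1 : Real.exp |U₁| ≤ Real.cosh u := by
      have h2 : Real.cosh T₁ * Real.exp |U₁| ≤ Real.cosh T₁ * Real.cosh u :=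
        hM.trans (mul_le_mul_of_nonneg_right hcoshT (by linarith [Real.one_le_cosh u]))
      exact le_of_mul_le_mul_left h2 (Real.cosh_pos _)
    have h2 : |U₁| ≤ |u| := by
      have h3 : Real.cosh u ≤ Real.exp |u| := by
        rw [← Real.cosh_abs, Real.cosh_eq]
        have : Real.exp (-|u|) ≤ Real.exp |u| :=
          Real.exp_le_exp.2 (by linarith [abs_nonneg u])
        linarith
      exact Real.exp_le_exp.1 (h1.trans h3)
    have hU : U₁ ≤ |u| := (le_abs_self _).trans h2
    have hT'b : |T'| ≤ T₁ + |C| := by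
      have : |T'| ≤ |T| + |T - T'| := by
        have := abs_sub_abs_le_abs_sub T' T
        rw [abs_sub_comm] at this
        linarith
      linarith
    have hLb : Lam T ≤ 2 + T₁ + |C| := by
      have := Lam_le_of_abs hcase.le
      linarith
    have hLb' : Lam T' ≤ 2 + T₁ + |C| := by
      have := Lam_le_of_abs hT'b
      linarith
    have hexp0 : 0 < Real.exp (-(U₁ - (|C| + 2))) := Real.exp_pos _
    rcases le_or_gt 0 u with hu0 | hu0
    · rw [abs_of_nonneg hu0] at hU
      have hu' : U₁ - (|C| + 2) ≤ u' := by linarith [(abs_le.1 huu').2]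
      have hu'' : U₁ - (|C| + 2) ≤ u := by linarith
      apply absdiff_small hx hx'
      · have : Real.exp (-u) ≤ Real.exp (-(U₁ - (|C| + 2))) := Real.exp_le_exp.2 (by linarith)
        calc Lam T * Real.exp (-u) ≤ (2 + T₁ + |C|) * Real.exp (-(U₁ - (|C| + 2))) :=
              mul_le_mul hLb this (Real.exp_pos _).le (by linarith)
          _ ≤ ε := hU1
      · have : Real.exp (-u') ≤ Real.exp (-(U₁ - (|C| + 2))) := Real.exp_le_exp.2 (by linarith)
        calc Lam T' * Real.exp (-u') ≤ (2 + T₁ + |C|) * Real.exp (-(U₁ - (|C| + 2))) :=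
              mul_le_mul hLb' this (Real.exp_pos _).le (by linarith)
          _ ≤ ε := hU1
    · rw [abs_of_neg hu0] at hU
      have hu' : u' ≤ -(U₁ - (|C| + 2)) := by linarith [(abs_le.1 huu').1]
      have hu'' : u ≤ -(U₁ - (|C| + 2)) := by linarith
      have hone : Real.exp (-(U₁ - (|C| + 2))) ≤ ε := by
        have : 1 ≤ 2 + T₁ + |C| := by linarith
        nlinarith
      apply absdiff_large hx hx'
      · have e1 : 1 / (Lam T * Real.exp (-u)) ≤ Real.exp u := by
          rw [div_le_iff₀ hx]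
          have : Real.exp u * (Lam T * Real.exp (-u)) = Lam T := by
            rw [mul_left_comm, ← Real.exp_add]; simp
          rw [this]; exact one_le_Lam T
        have e2 : Real.exp u ≤ Real.exp (-(U₁ - (|C| + 2))) := Real.exp_le_exp.2 hu''
        linarith
      · have e1 : 1 / (Lam T' * Real.exp (-u')) ≤ Real.exp u' := by
          rw [div_le_iff₀ hx']
          have : Real.exp u' * (Lam T' * Real.exp (-u')) = Lam T' := by
            rw [mul_left_comm, ← Real.exp_add]; simp
          rw [this]; exact one_le_Lam T'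
        have e2 : Real.exp u' ≤ Real.exp (-(U₁ - (|C| + 2))) := Real.exp_le_exp.2 hu'
        linarith

end Pool.Agent.Helper56.EZ
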