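import Pool.Agent.Helper56.EZ.Defs

set_option autoImplicit false

open Set Filter Topology unitInterval

namespace Pool.Agent.Helper56.EZ

/-- a closed set that can be pushed off by small homotopies is a `Z`-set -/
theorem isZSet_of_push {X : Type} [MetricSpace X] {Z : Set X} (hZ : IsClosed Z)
    (H : X × ℝ → X) (hH : Continuous H) (h0 : ∀ x, H (x, 0) = x)
    (h1 : ∀ x t, 0 < t → t ≤ 1 → H (x, t) ∉ Z)
    (h2 : ∀ x t, 0 ≤ t → t ≤ 1 → dist (H (x, t)) x ≤ t) : IsZSet Z := by
  refine ⟨hZ, fun U hU => ?_⟩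
  obtain ⟨h, hcont, hle, hpos, hstay⟩ : ∃ h : X → ℝ, Continuous h ∧ (∀ x, h x ≤ 1) ∧
      (∀ x ∈ U, 0 < h x) ∧ ∀ x ∈ U, ∀ t, 0 ≤ t → t ≤ h x → H (x, t) ∈ U := by
    rcases (Uᶜ).eq_empty_or_nonempty with he | hne
    · refine ⟨fun _ => 1, continuous_const, fun _ => le_rfl, fun _ _ => one_pos, ?_⟩
      intro x _ t _ _
      rw [compl_empty_iff.1 he]
      trivial
    · refine ⟨fun x => min 1 (Metric.infDist x Uᶜ / 2), by fun_prop, fun x => min_le_left _ _,
        ?_, ?_⟩
      · intro x hx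
        have h3 : 0 < Metric.infDist x Uᶜ := by
          rw [← hU.isClosed_compl.notMem_iff_infDist_pos hne]
          simpa using hx
        exact lt_min one_pos (by linarith)
      · intro x hx t ht0 ht
        have h3 : 0 < Metric.infDist x Uᶜ := by
          rw [← hU.isClosed_compl.notMem_iff_infDist_pos hne]
          simpa using hx
        by_contra hcon
        have h4 : Metric.infDist x Uᶜ ≤ dist x (H (x, t)) := Metric.infDist_le_dist_of_mem hcon
        have h5 := h2 x t ht0 (ht.trans (min_le_left _ _))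
        rw [dist_comm] at h5
        have h6 := ht.trans (min_le_right _ _)
        linarith
  -- maps
  let f : C((U \ Z : Set X), U) := ⟨fun x => ⟨x.1, x.2.1⟩, by fun_prop⟩
  let g : C(U, (U \ Z : Set X)) := ⟨fun x => ⟨H (x.1, h x.1),
    ⟨hstay x.1 x.2 _ (hpos x.1 x.2).le le_rfl, h1 x.1 _ (hpos x.1 x.2) (hle x.1)⟩⟩, by
      apply Continuous.subtype_mk
      exact hH.comp (continuous_subtype_val.prodMk (hcont.comp continuous_subtype_val))⟩
  have hmemU : ∀ (t : I) (x : X), x ∈ U → H (x, t * h x) ∈ U := by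
    intro t x hx
    apply hstay x hx _ (mul_nonneg t.2.1 (hpos x hx).le)
    exact mul_le_of_le_one_left (hpos x hx).le t.2.2
  have hmemZ : ∀ (t : I) (x : X), x ∈ U \ Z → H (x, t * h x) ∈ U \ Z := by
    intro t x hx
    refine ⟨hmemU t x hx.1, ?_⟩
    rcases t.2.1.eq_or_lt with ht | ht
    · rw [← ht, zero_mul, h0]
      exact hx.2
    · apply h1 _ _ (mul_pos ht (hpos x hx.1))
      have := mul_le_mul t.2.2 (hle x) (hpos x hx.1).le zero_le_one
      linarith
  refine ⟨⟨f, g, ?_, ?_⟩, fun x => rfl⟩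
  · apply ContinuousMap.Homotopic.symm
    refine ⟨⟨⟨fun p => ⟨H (p.2.1, p.1 * h p.2.1), hmemZ p.1 p.2.1 p.2.2⟩, ?_⟩, ?_, ?_⟩⟩
    · apply Continuous.subtype_mk
      apply hH.comp
      have e : Continuous fun p : I × (U \ Z : Set X) => p.2.1 :=
        continuous_subtype_val.comp continuous_snd
      exact e.prodMk ((continuous_subtype_val.comp continuous_fst).mul (hcont.comp e))
    · intro x
      apply Subtype.ext
      show H (x.1, ((0 : I) : ℝ) * h x.1) = x.1
      rw [Set.Icc.coe_zero, zero_mul, h0]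
    · intro x
      apply Subtype.ext
      show H (x.1, ((1 : I) : ℝ) * h x.1) = H (x.1, h x.1)
      rw [Set.Icc.coe_one, one_mul]
  · apply ContinuousMap.Homotopic.symm
    refine ⟨⟨⟨fun p => ⟨H (p.2.1, p.1 * h p.2.1), hmemU p.1 p.2.1 p.2.2⟩, ?_⟩, ?_, ?_⟩⟩
    · apply Continuous.subtype_mk
      apply hH.comp
      have e : Continuous fun p : I × U => p.2.1 :=
        continuous_subtype_val.comp continuous_snd
      exact e.prodMk ((continuous_subtype_val.comp continuous_fst).mul (hcont.comp e))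
    · intro x
      apply Subtype.ext
      show H (x.1, ((0 : I) : ℝ) * h x.1) = x.1
      rw [Set.Icc.coe_zero, zero_mul, h0]
    · intro x
      apply Subtype.ext
      show H (x.1, ((1 : I) : ℝ) * h x.1) = H (x.1, h x.1)
      rw [Set.Icc.coe_one, one_mul]

/-- radial retraction of the plane to the disc -/
noncomputable def radial (z : ℂ) : ℂ := ((max 1 ‖z‖ : ℝ) : ℂ)⁻¹ * z

theorem continuous_radial : Continuous radial := by
  unfold radial
  apply Continuous.mul _ continuous_id
  apply Continuous.inv₀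
  · fun_prop
  · intro z
    have : (0 : ℝ) < max 1 ‖z‖ := lt_of_lt_of_le one_pos (le_max_left _ _)
    exact_mod_cast this.ne'

theorem norm_radial_le (z : ℂ) : ‖radial z‖ ≤ 1 := by
  have h : (0 : ℝ) < max 1 ‖z‖ := lt_of_lt_of_le one_pos (le_max_left _ _)
  rw [radial, norm_mul, norm_inv, Complex.norm_real, Real.norm_eq_abs, abs_of_pos h,
    inv_mul_le_iff₀ h, mul_one]
  exact le_max_right _ _

theorem radial_eq {z : ℂ} (hz : ‖z‖ ≤ 1) : radial z = z := by
  rw [radial, max_eq_left hz]; simp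

theorem isEuclideanRetract_disc {X : Type} [TopologicalSpace X]
    (e : X ≃ₜ Metric.closedBall (0 : ℂ) 1) : IsEuclideanRetract X := by
  have : CompactSpace (Metric.closedBall (0 : ℂ) 1) :=
    isCompact_iff_compactSpace.1 (isCompact_closedBall _ _)
  refine ⟨e.symm.compactSpace, 2,
    fun x => Complex.orthonormalBasisOneI.repr ((e x : Metric.closedBall (0 : ℂ) 1) : ℂ),
    ?_, fun y => e.symm ⟨radial (Complex.orthonormalBasisOneI.repr.symm y), by
      rw [mem_closedBall_zero_iff]; exact norm_radial_le _⟩, ?_, ?_⟩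
  · exact (Complex.orthonormalBasisOneI.repr.isometry.isEmbedding.comp
      Topology.IsEmbedding.subtypeVal).comp e.isEmbedding
  · apply e.symm.continuous.comp
    apply Continuous.subtype_mk
    exact continuous_radial.comp (LinearIsometryEquiv.continuous _)
  · intro x
    apply e.injective
    rw [e.apply_symm_apply]
    apply Subtype.ext
    show radial (Complex.orthonormalBasisOneI.repr.symm
      (Complex.orthonormalBasisOneI.repr ((e x : Metric.closedBall (0 : ℂ) 1) : ℂ))) = _
    rw [LinearIsometryEquiv.symm_apply_apply]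
    apply radial_eq
    exact mem_closedBall_zero_iff.1 (e x).2

theorem isZSet_disc {X : Type} [MetricSpace X] (e : X ≃ₜ Metric.closedBall (0 : ℂ) 1)
    (he : ∀ x y, dist x y = dist (e x) (e y)) :
    IsZSet {x : X | ‖((e x : Metric.closedBall (0 : ℂ) 1) : ℂ)‖ = 1} := by
  have hmem : ∀ (z : Metric.closedBall (0 : ℂ) 1) (t : ℝ),
      ((1 - max 0 (min t 1) : ℝ) : ℂ) * (z : ℂ) ∈ Metric.closedBall (0 : ℂ) 1 := by
    intro z t
    rw [mem_closedBall_zero_iff, norm_mul, Complex.norm_real, Real.norm_eq_abs]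
    have h1 : ‖(z : ℂ)‖ ≤ 1 := mem_closedBall_zero_iff.1 z.2
    have h2 : |1 - max 0 (min t 1)| ≤ 1 := by
      rw [abs_le]
      have h3 : 0 ≤ max 0 (min t 1) := le_max_left _ _
      have h4 : max 0 (min t 1) ≤ 1 := max_le zero_le_one (min_le_right _ _)
      constructor <;> linarith
    exact mul_le_one₀ h2 (norm_nonneg _) h1
  apply isZSet_of_push _
    (fun p : X × ℝ => e.symm ⟨((1 - max 0 (min p.2 1) : ℝ) : ℂ) * (e p.1 : ℂ), hmem _ _⟩)
  · apply e.symm.continuous.comp
    apply Continuous.subtype_mk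
    have : Continuous fun p : X × ℝ => ((e p.1 : Metric.closedBall (0 : ℂ) 1) : ℂ) :=
      continuous_subtype_val.comp (e.continuous.comp continuous_fst)
    apply Continuous.mul _ this
    fun_prop
  · intro x
    apply e.injective
    rw [e.apply_symm_apply]
    apply Subtype.ext
    simp
  · intro x t ht0 ht1 hx
    have h3 : ‖((e (e.symm ⟨((1 - max 0 (min t 1) : ℝ) : ℂ) * (e x : ℂ), hmem _ _⟩) :
      Metric.closedBall (0 : ℂ) 1) : ℂ)‖ = 1 := hx
    rw [e.apply_symm_apply] at h3
    simp only [norm_mul, Complex.norm_real, Real.norm_eq_abs] at h3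
    rw [min_eq_left ht1, max_eq_right ht0.le, abs_of_nonneg (by linarith)] at h3
    have h4 : ‖((e x : Metric.closedBall (0 : ℂ) 1) : ℂ)‖ ≤ 1 := mem_closedBall_zero_iff.1 (e x).2
    nlinarith [norm_nonneg ((e x : Metric.closedBall (0 : ℂ) 1) : ℂ)]
  · intro x t ht0 ht1
    rw [he, e.apply_symm_apply, Subtype.dist_eq, dist_eq_norm]
    show ‖((1 - max 0 (min t 1) : ℝ) : ℂ) * (e x : ℂ) - (e x : ℂ)‖ ≤ t
    have h4 : ‖((e x : Metric.closedBall (0 : ℂ) 1) : ℂ)‖ ≤ 1 := mem_closedBall_zero_iff.1 (e x).2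
    rw [min_eq_left ht1, max_eq_right ht0]
    have e1 : ((1 - t : ℝ) : ℂ) * (e x : ℂ) - (e x : ℂ) = ((-t : ℝ) : ℂ) * (e x : ℂ) := by
      push_cast; ring
    rw [e1, norm_mul, Complex.norm_real, Real.norm_eq_abs, abs_neg, abs_of_nonneg ht0]
    exact mul_le_of_le_one_right ht0 h4
  · have : Continuous fun x : X => ‖((e x : Metric.closedBall (0 : ℂ) 1) : ℂ)‖ :=
      (continuous_subtype_val.comp e.continuous).norm
    exact isClosed_eq this continuous_const

end Pool.Agent.Helper56.EZ
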