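import Pool.Agent.Helper56.EZ.Data
import Pool.Agent.Helper56.EZ.ZSet
import Pool.Agent.Helper56.EZ.Gromov
import Pool.Agent.Helper12.EZ.Cocompact

set_option autoImplicit false

open Set Filter Topology

namespace Pool.Agent.Helper56.EZ

/-- the `EZ`-structure of the blow-up -/
noncomputable def FData.ez (F : FData) : EZStructure F.Γ where
  carrier := F.Car
  metric := F.instMetric
  action := inferInstance
  cont := inferInstance
  bdry := F.Bdry
  isER := isEuclideanRetract_disc F.psiHomeo
  isZSet := by
    rw [F.bdry_eq]
    exact isZSet_disc F.psiHomeo (fun x y => rfl)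
  smul_mem := F.smul_mem_bdry
  covering := F.covering
  cocompact := F.cocompact
  null := F.null

theorem quat_hyperbolic : (∃ S : Finset quatGroup, Subgroup.closure (S : Set quatGroup) = ⊤) ∧
    ∀ S : Finset quatGroup, Subgroup.closure (S : Set quatGroup) = ⊤ →
      IsGromovHyperbolic (S : Set quatGroup) :=
  Pool.Agent.Helper12.EZ.hyperbolic_of_cocompact quatGroup
    Pool.Agent.Helper6.quatGroup_discrete Pool.Agent.Helper6.quatGroup_cocompact

end Pool.Agent.Helper56.EZ
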