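import Pool.Agent.Helper56.EZ.Cone

set_option autoImplicit false

open Set Filter Topology

namespace Pool.Agent.Helper56.EZ

/-- slowly growing function of the signed distance to the axis -/
noncomputable def lam (x : ℝ) : ℝ := 1 + Real.log (1 + Real.exp (-Real.arsinh x))

theorem one_le_lam (x : ℝ) : 1 ≤ lam x := by
  unfold lam
  have : 0 ≤ Real.log (1 + Real.exp (-Real.arsinh x)) :=
    Real.log_nonneg (by linarith [Real.exp_pos (-Real.arsinh x)])
  linarith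

theorem lam_pos (x : ℝ) : 0 < lam x := lt_of_lt_of_le one_pos (one_le_lam x)

theorem continuous_lam : Continuous lam := by
  unfold lam
  apply continuous_const.add
  apply Continuous.log
  · exact continuous_const.add (Real.continuous_exp.comp (Real.continuous_arsinh.neg))
  · intro x
    positivity

/-- the basic slowly varying function on the disc, precomposed with `A` -/
noncomputable def ss (A : SL2) (ζ : ℂ) : ℝ :=
  √(pp A ζ) / (√(pp A ζ) + √(rr A ζ) * lam (qq A ζ / √(1 - Complex.normSq ζ)))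

theorem ss_mem_Icc (A : SL2) (ζ : ℂ) : ss A ζ ∈ Icc (0 : ℝ) 1 := by
  unfold ss
  have h1 := lam_pos (qq A ζ / √(1 - Complex.normSq ζ))
  have h2 : 0 ≤ √(pp A ζ) := Real.sqrt_nonneg _
  have h3 : 0 ≤ √(rr A ζ) := Real.sqrt_nonneg _
  constructor
  · positivity
  · apply div_le_one_of_le₀
    · nlinarith [mul_nonneg h3 h1.le]
    · positivity

theorem continuousOn_ss (A : SL2) : ContinuousOn (ss A) (Metric.ball 0 1) := by
  unfold ss
  have hU : ContinuousOn (fun ζ => √(pp A ζ)) (Metric.ball 0 1) :=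
    (Real.continuous_sqrt.comp (continuous_pp A)).continuousOn
  have hW : ContinuousOn (fun ζ => √(rr A ζ)) (Metric.ball 0 1) :=
    (Real.continuous_sqrt.comp (continuous_rr A)).continuousOn
  have hD : ContinuousOn (fun ζ : ℂ => √(1 - Complex.normSq ζ)) (Metric.ball 0 1) :=
    (Real.continuous_sqrt.comp (continuous_const.sub Complex.continuous_normSq)).continuousOn
  have hQ : ContinuousOn (fun ζ => qq A ζ / √(1 - Complex.normSq ζ)) (Metric.ball 0 1) := by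
    apply (continuous_qq A).continuousOn.div hD
    intro ζ hζ
    have := disc_pos (ζ := ζ) (by simpa using hζ)
    positivity
  have hL := continuous_lam.comp_continuousOn hQ
  apply hU.div (hU.add (hW.mul hL))
  intro ζ hζ
  have h1 := pp_pos A (ζ := ζ) (by simpa using hζ)
  have h2 := lam_pos (qq A ζ / √(1 - Complex.normSq ζ))
  have h3 : 0 ≤ √(rr A ζ) := Real.sqrt_nonneg _
  have h4 : 0 < √(pp A ζ) := Real.sqrt_pos.2 h1
  have h5 := mul_nonneg h3 h2.le
  show √(pp A ζ) + √(rr A ζ) * lam (qq A ζ / √(1 - Complex.normSq ζ)) ≠ 0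
  linarith

/-- equivariance -/
theorem ss_mob (A B : SL2) {ζ : ℂ} (hζ : ‖ζ‖ < 1) : ss B (mob A ζ) = ss (B * A) ζ := by
  have htr := trace_pos A hζ.le
  have hD := one_sub_normSq_mob A hζ.le
  unfold ss
  rw [pp_mob A B hζ.le, rr_mob A B hζ.le, qq_mob A B hζ.le, hD]
  set l := 2 / (pp A ζ + rr A ζ) with hl
  have hlpos : 0 < l := by positivity
  have h4 : 4 * (1 - Complex.normSq ζ) / (pp A ζ + rr A ζ) ^ 2 =
      l ^ 2 * (1 - Complex.normSq ζ) := by
    rw [hl, div_pow, mul_div_right_comm]; norm_num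
  have hDp := disc_pos hζ
  rw [h4, Real.sqrt_mul (by positivity), Real.sqrt_mul (by positivity),
    Real.sqrt_mul (by positivity), Real.sqrt_sq hlpos.le, mul_div_mul_left _ _ hlpos.ne',
    mul_assoc, ← mul_add]
  rw [mul_div_mul_left _ _ (Real.sqrt_pos.2 hlpos).ne']

/-- diagonal relation -/
theorem ss_diag (K B : SL2) (h01 : K.1 0 1 = 0) (h10 : K.1 1 0 = 0) {ζ : ℂ} (hζ : ‖ζ‖ < 1) :
    ss (K * B) ζ * (ss B ζ + K.1 1 1 ^ 2 * (1 - ss B ζ)) = ss B ζ := by
  have hdet := K.det_eq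
  rw [h01, h10] at hdet
  have had : K.1 0 0 * K.1 1 1 = 1 := by linarith
  set a := K.1 0 0
  set d := K.1 1 1
  have hd : d ≠ 0 := fun h => by rw [h] at had; simp at had
  have ha : a ≠ 0 := fun h => by rw [h] at had; simp at had
  unfold ss
  rw [pp_mul, qq_mul, rr_mul, h01, h10]
  have e1 : K.1 0 0 ^ 2 * pp B ζ + 2 * K.1 0 0 * 0 * qq B ζ + 0 ^ 2 * rr B ζ =
      a ^ 2 * pp B ζ := by simp [a]
  have e2 : K.1 0 0 * 0 * pp B ζ + (K.1 0 0 * K.1 1 1 + 0 * 0) * qq B ζ + 0 * K.1 1 1 * rr B ζ =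
      qq B ζ := by
    have : K.1 0 0 * K.1 1 1 = 1 := had
    rw [this]; ring
  have e3 : (0 : ℝ) ^ 2 * pp B ζ + 2 * 0 * K.1 1 1 * qq B ζ + K.1 1 1 ^ 2 * rr B ζ =
      d ^ 2 * rr B ζ := by simp [d]
  rw [e1, e2, e3, Real.sqrt_mul (sq_nonneg a), Real.sqrt_mul (sq_nonneg d), Real.sqrt_sq_eq_abs,
    Real.sqrt_sq_eq_abs]
  have h1 := pp_pos B hζ
  set L := lam (qq B ζ / √(1 - Complex.normSq ζ))
  have hL : 0 < L := lam_pos _
  have hU : 0 < √(pp B ζ) := Real.sqrt_pos.2 h1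
  have hW : 0 ≤ √(rr B ζ) := Real.sqrt_nonneg _
  have hWL := mul_nonneg hW hL.le
  have hs : 0 < √(pp B ζ) + √(rr B ζ) * L := by linarith
  have hapos : 0 < |a| := abs_pos.2 ha
  have hdpos : 0 < |d| := abs_pos.2 hd
  have hs2 : 0 < |a| * √(pp B ζ) + |d| * √(rr B ζ) * L := by
    have : 0 ≤ |d| * √(rr B ζ) * L := by positivity
    have : 0 < |a| * √(pp B ζ) := by positivity
    linarith
  have habs : |a| * |d| = 1 := by rw [← abs_mul, had, abs_one]
  have hdd : d ^ 2 = |d| ^ 2 := (sq_abs d).symm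
  have key : |a| * √(pp B ζ) / (|a| * √(pp B ζ) + |d| * √(rr B ζ) * L) *
      (√(pp B ζ) / (√(pp B ζ) + √(rr B ζ) * L) + |d| ^ 2 *
      (1 - √(pp B ζ) / (√(pp B ζ) + √(rr B ζ) * L))) =
      √(pp B ζ) / (√(pp B ζ) + √(rr B ζ) * L) := by
    have hs' := hs.ne'
    have hs2' := hs2.ne'
    field_simp
    have : √(pp B ζ) + |d| ^ 2 * (√(pp B ζ) + √(rr B ζ) * L - √(pp B ζ)) =
        √(pp B ζ) + |d| ^ 2 * (√(rr B ζ) * L) := by ring
    linear_combination (|d| * √(rr B ζ) * L) * habs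
  rw [hdd]
  exact key

/-- the point of the disc with polar coordinates `ρ, θ` -/
noncomputable def pt (ρ θ : ℝ) : ℂ := ⟨ρ * Real.cos θ, ρ * Real.sin θ⟩

theorem pt_eq (ρ θ : ℝ) : pt ρ θ = ρ * Complex.exp (θ * Complex.I) := by
  rw [Complex.exp_mul_I]
  apply Complex.ext
  · simp [pt, Complex.cos_ofReal_re, Complex.sin_ofReal_re]
  · simp [pt, Complex.cos_ofReal_re, Complex.sin_ofReal_re]

theorem normSq_pt (ρ θ : ℝ) : Complex.normSq (pt ρ θ) = ρ ^ 2 := by
  simp only [pt, Complex.normSq_mk]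
  linear_combination (ρ ^ 2) * (Real.sin_sq_add_cos_sq θ)

theorem norm_pt {ρ : ℝ} (hρ : 0 ≤ ρ) (θ : ℝ) : ‖pt ρ θ‖ = ρ := by
  have h := normSq_pt ρ θ
  rw [Complex.normSq_eq_norm_sq] at h
  nlinarith [norm_nonneg (pt ρ θ)]

/-- slope constant -/
noncomputable def slopeC (A : SL2) : ℝ :=
  |A.1 0 0 * A.1 1 0 + A.1 0 1 * A.1 1 1| + 2 * (A.1 0 0 ^ 2 + A.1 0 1 ^ 2)
    + 2 * (A.1 1 0 ^ 2 + A.1 1 1 ^ 2)

theorem slopeC_nonneg (A : SL2) : 0 ≤ slopeC A := by unfold slopeC; positivity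

theorem hasDerivAt_pp (A : SL2) (ρ θ : ℝ) : HasDerivAt (fun θ => pp A (pt ρ θ))
    ((A.1 0 0 * A.1 1 0 + A.1 0 1 * A.1 1 1) * pp A (pt ρ θ)
      - (A.1 0 0 ^ 2 + A.1 0 1 ^ 2) * qq A (pt ρ θ)) θ := by
  have hdet := A.det_eq
  have h1 : HasDerivAt (fun θ => A.1 0 0 ^ 2 * (1 + ρ * Real.cos θ) +
      2 * A.1 0 0 * A.1 0 1 * (ρ * Real.sin θ) + A.1 0 1 ^ 2 * (1 - ρ * Real.cos θ))
      (A.1 0 0 ^ 2 * (ρ * (-Real.sin θ)) + 2 * A.1 0 0 * A.1 0 1 * (ρ * Real.cos θ)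
        + A.1 0 1 ^ 2 * (-(ρ * (-Real.sin θ)))) θ := by
    have hc := (Real.hasDerivAt_cos θ).const_mul ρ
    have hs := (Real.hasDerivAt_sin θ).const_mul ρ
    exact (((hc.const_add 1).const_mul _).add (hs.const_mul _)).add
      ((hc.const_sub 1).const_mul _)
  have h2 : (A.1 0 0 ^ 2 * (ρ * (-Real.sin θ)) + 2 * A.1 0 0 * A.1 0 1 * (ρ * Real.cos θ)
        + A.1 0 1 ^ 2 * (-(ρ * (-Real.sin θ)))) =
      ((A.1 0 0 * A.1 1 0 + A.1 0 1 * A.1 1 1) * pp A (pt ρ θ)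
      - (A.1 0 0 ^ 2 + A.1 0 1 ^ 2) * qq A (pt ρ θ)) := by
    simp only [pp, qq, pt]
    linear_combination (-(A.1 0 0 * A.1 0 1 * (1 + ρ * Real.cos θ) + (A.1 0 1 ^ 2 - A.1 0 0 ^ 2)
      * (ρ * Real.sin θ) - A.1 0 0 * A.1 0 1 * (1 - ρ * Real.cos θ))) * hdet
  rw [h2] at h1
  exact h1

theorem hasDerivAt_rr (A : SL2) (ρ θ : ℝ) : HasDerivAt (fun θ => rr A (pt ρ θ))
    ((A.1 1 0 ^ 2 + A.1 1 1 ^ 2) * qq A (pt ρ θ)
      - (A.1 0 0 * A.1 1 0 + A.1 0 1 * A.1 1 1) * rr A (pt ρ θ)) θ := by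
  have hdet := A.det_eq
  have h1 : HasDerivAt (fun θ => A.1 1 0 ^ 2 * (1 + ρ * Real.cos θ) +
      2 * A.1 1 0 * A.1 1 1 * (ρ * Real.sin θ) + A.1 1 1 ^ 2 * (1 - ρ * Real.cos θ))
      (A.1 1 0 ^ 2 * (ρ * (-Real.sin θ)) + 2 * A.1 1 0 * A.1 1 1 * (ρ * Real.cos θ)
        + A.1 1 1 ^ 2 * (-(ρ * (-Real.sin θ)))) θ := by
    have hc := (Real.hasDerivAt_cos θ).const_mul ρ
    have hs := (Real.hasDerivAt_sin θ).const_mul ρ
    exact (((hc.const_add 1).const_mul _).add (hs.const_mul _)).add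
      ((hc.const_sub 1).const_mul _)
  have h2 : (A.1 1 0 ^ 2 * (ρ * (-Real.sin θ)) + 2 * A.1 1 0 * A.1 1 1 * (ρ * Real.cos θ)
        + A.1 1 1 ^ 2 * (-(ρ * (-Real.sin θ)))) =
      ((A.1 1 0 ^ 2 + A.1 1 1 ^ 2) * qq A (pt ρ θ)
      - (A.1 0 0 * A.1 1 0 + A.1 0 1 * A.1 1 1) * rr A (pt ρ θ)) := by
    simp only [rr, qq, pt]
    linear_combination (-(A.1 1 0 * A.1 1 1 * (1 + ρ * Real.cos θ) + (A.1 1 1 ^ 2 - A.1 1 0 ^ 2)
      * (ρ * Real.sin θ) - A.1 1 0 * A.1 1 1 * (1 - ρ * Real.cos θ))) * hdet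
  rw [h2] at h1
  exact h1

theorem hasDerivAt_qq (A : SL2) (ρ θ : ℝ) : HasDerivAt (fun θ => qq A (pt ρ θ))
    (((A.1 1 0 ^ 2 + A.1 1 1 ^ 2) * pp A (pt ρ θ)
      - (A.1 0 0 ^ 2 + A.1 0 1 ^ 2) * rr A (pt ρ θ)) / 2) θ := by
  have hdet := A.det_eq
  have h1 : HasDerivAt (fun θ => A.1 0 0 * A.1 1 0 * (1 + ρ * Real.cos θ) +
      (A.1 0 0 * A.1 1 1 + A.1 0 1 * A.1 1 0) * (ρ * Real.sin θ)
      + A.1 0 1 * A.1 1 1 * (1 - ρ * Real.cos θ))
      (A.1 0 0 * A.1 1 0 * (ρ * (-Real.sin θ)) +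
        (A.1 0 0 * A.1 1 1 + A.1 0 1 * A.1 1 0) * (ρ * Real.cos θ)
        + A.1 0 1 * A.1 1 1 * (-(ρ * (-Real.sin θ)))) θ := by
    have hc := (Real.hasDerivAt_cos θ).const_mul ρ
    have hs := (Real.hasDerivAt_sin θ).const_mul ρ
    exact (((hc.const_add 1).const_mul _).add (hs.const_mul _)).add
      ((hc.const_sub 1).const_mul _)
  have h2 : (A.1 0 0 * A.1 1 0 * (ρ * (-Real.sin θ)) +
        (A.1 0 0 * A.1 1 1 + A.1 0 1 * A.1 1 0) * (ρ * Real.cos θ)
        + A.1 0 1 * A.1 1 1 * (-(ρ * (-Real.sin θ)))) =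
      (((A.1 1 0 ^ 2 + A.1 1 1 ^ 2) * pp A (pt ρ θ)
      - (A.1 0 0 ^ 2 + A.1 0 1 ^ 2) * rr A (pt ρ θ)) / 2) := by
    simp only [rr, pp, pt]
    linear_combination (-((A.1 0 1 * A.1 1 1 - A.1 0 0 * A.1 1 0) * (ρ * Real.sin θ)
      + (A.1 0 0 * A.1 1 1 + A.1 0 1 * A.1 1 0) * (ρ * Real.cos θ))) * hdet
  rw [h2] at h1
  exact h1

theorem slope_ineq (k1 k2 k3 P Q R U W L l : ℝ) (hk2p : 0 ≤ k2) (hk3p : 0 ≤ k3)
    (hPp : 0 < P) (hRp : 0 < R) (hUp : 0 < U) (hWp : 0 < W) (hUU : U * U = P) (hWW : W * W = R)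
    (hL1 : 1 ≤ L) (hl0 : 0 ≤ l) (hl1 : l ≤ 1) (htanh : L * (Q / (U * W)) ≤ 2) :
    -(|k1| + 2 * k2 + 2 * k3) * (U + W * L) ^ 2 ≤
      L * k1 * (U * W) - L * (Q / (U * W)) * (k2 * R + k3 * P) / 2
        + l * (k3 * P - k2 * R) / 2 := by
  have hsq : (U + W * L) ^ 2 = P + R * L ^ 2 + 2 * (U * W) * L := by
    rw [← hUU, ← hWW]; ring
  rw [hsq]
  set M := L * (Q / (U * W)) with hM
  have hUW : 0 < U * W := by positivity
  have hUWL : 0 < U * W * L := by positivity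
  have h1 : -(|k1| * (U * W * L)) ≤ L * k1 * (U * W) := by
    have := mul_le_mul_of_nonneg_right (neg_abs_le k1) hUWL.le
    linarith
  have hN : 0 ≤ k2 * R + k3 * P := by positivity
  have h2 : -(k2 * R + k3 * P) ≤ -(M * (k2 * R + k3 * P) / 2) := by
    have := mul_le_mul_of_nonneg_right htanh hN
    linarith
  have h13 : 0 ≤ k2 * R := by positivity
  have h14 : 0 ≤ k3 * P := by positivity
  have h3 : -(k2 * R) / 2 ≤ l * (k3 * P - k2 * R) / 2 := by
    have ha := mul_nonneg hl0 h14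
    have hb := mul_le_mul_of_nonneg_right hl1 h13
    linarith
  have hL2 : 1 ≤ L ^ 2 := one_le_pow₀ hL1
  have e4 : R ≤ R * L ^ 2 := by
    have := mul_le_mul_of_nonneg_left hL2 hRp.le
    linarith
  have e11 : k2 * R ≤ k2 * (R * L ^ 2) := mul_le_mul_of_nonneg_left e4 hk2p
  have e5 : 0 ≤ |k1| * P := by positivity
  have e6 : 0 ≤ |k1| * (R * L ^ 2) := by positivity
  have e7 : 0 ≤ k2 * P := by positivity
  have e8 : 0 ≤ k2 * (U * W * L) := by positivity
  have e9 : 0 ≤ k3 * (R * L ^ 2) := by positivity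
  have e10 : 0 ≤ k3 * (U * W * L) := by positivity
  have e15 : 0 ≤ |k1| * (U * W * L) := by positivity
  have expand : -(|k1| + 2 * k2 + 2 * k3) * (P + R * L ^ 2 + 2 * (U * W) * L) =
      -(|k1| * P) - |k1| * (R * L ^ 2) - 2 * (|k1| * (U * W * L)) - 2 * (k2 * P)
      - 2 * (k2 * (R * L ^ 2)) - 4 * (k2 * (U * W * L)) - 2 * (k3 * P)
      - 2 * (k3 * (R * L ^ 2)) - 4 * (k3 * (U * W * L)) := by ring
  rw [expand]
  linarith

/-- lower bound for the angular derivative of `ss A`. -/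
theorem ss_slope (A : SL2) {ρ : ℝ} (h0 : 0 ≤ ρ) (h1 : ρ < 1) :
    Monotone (fun θ : ℝ => ss A (pt ρ θ) + slopeC A * θ) := by
  set k1 := A.1 0 0 * A.1 1 0 + A.1 0 1 * A.1 1 1 with hk1
  set k2 := A.1 0 0 ^ 2 + A.1 0 1 ^ 2 with hk2
  set k3 := A.1 1 0 ^ 2 + A.1 1 1 ^ 2 with hk3
  have hk2p : 0 ≤ k2 := by rw [hk2]; positivity
  have hk3p : 0 ≤ k3 := by rw [hk3]; positivity
  set D := 1 - ρ ^ 2 with hD
  have hDpos : 0 < D := by rw [hD]; nlinarith
  have hsD : 0 < √D := Real.sqrt_pos.2 hDpos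
  have hDeq : ∀ θ, 1 - Complex.normSq (pt ρ θ) = D := fun θ => by rw [normSq_pt]
  have hpr : ∀ θ, pp A (pt ρ θ) * rr A (pt ρ θ) = D + qq A (pt ρ θ) ^ 2 := fun θ => by
    have := disc_eq A (pt ρ θ)
    rw [hDeq] at this
    linarith
  have hp : ∀ θ, 0 < pp A (pt ρ θ) := fun θ => pp_pos A (by rw [norm_pt h0]; exact h1)
  have hr : ∀ θ, 0 < rr A (pt ρ θ) := fun θ => rr_pos A (by rw [norm_pt h0]; exact h1)
  -- the derivative
  have hder : ∀ θ, ∃ s' : ℝ, HasDerivAt (fun θ => ss A (pt ρ θ)) s' θ ∧ -slopeC A ≤ s' := by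
    intro θ
    set P := pp A (pt ρ θ) with hP
    set Q := qq A (pt ρ θ) with hQ
    set R := rr A (pt ρ θ) with hR
    have hPp : 0 < P := hp θ
    have hRp : 0 < R := hr θ
    set U := √P with hU
    set W := √R with hW
    have hUp : 0 < U := Real.sqrt_pos.2 hPp
    have hWp : 0 < W := Real.sqrt_pos.2 hRp
    have hUU : U * U = P := Real.mul_self_sqrt hPp.le
    have hWW : W * W = R := Real.mul_self_sqrt hRp.le
    have hPR : P * R = D + Q ^ 2 := hpr θ
    have hUd : HasDerivAt (fun θ => √(pp A (pt ρ θ))) ((k1 * P - k2 * Q) / (2 * U)) θ :=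
      (hasDerivAt_pp A ρ θ).sqrt hPp.ne'
    have hWd : HasDerivAt (fun θ => √(rr A (pt ρ θ))) ((k3 * Q - k1 * R) / (2 * W)) θ :=
      (hasDerivAt_rr A ρ θ).sqrt hRp.ne'
    have hQd : HasDerivAt (fun θ => qq A (pt ρ θ) / √D) ((k3 * P - k2 * R) / 2 / √D) θ :=
      (hasDerivAt_qq A ρ θ).div_const _
    have hTd : HasDerivAt (fun θ => Real.arsinh (qq A (pt ρ θ) / √D))
        ((k3 * P - k2 * R) / 2 / (U * W)) θ := by
      have h := (Real.hasDerivAt_arsinh (Q / √D)).comp θ hQd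
      have h2 : (√(1 + (Q / √D) ^ 2))⁻¹ * ((k3 * P - k2 * R) / 2 / √D) =
          (k3 * P - k2 * R) / 2 / (U * W) := by
        have h3 : √(1 + (Q / √D) ^ 2) * √D = U * W := by
          rw [hU, hW, ← Real.sqrt_mul hPp.le, hPR, ← Real.sqrt_mul (by positivity)]
          congr 1
          rw [div_pow, Real.sq_sqrt hDpos.le]
          field_simp
        rw [← h3]
        have h4 : √(1 + (Q / √D) ^ 2) ≠ 0 := by positivity
        field_simp
      rw [h2] at h
      exact h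
    set T := Real.arsinh (Q / √D) with hT
    set l := Real.exp (-T) / (1 + Real.exp (-T)) with hl
    have hl0 : 0 ≤ l := by rw [hl]; positivity
    have hl1 : l ≤ 1 := by
      rw [hl, div_le_one (by positivity)]; linarith [Real.exp_pos (-T)]
    have hLd : HasDerivAt (fun θ => lam (qq A (pt ρ θ) / √D))
        (-(l * ((k3 * P - k2 * R) / 2 / (U * W)))) θ := by
      have h5 := ((hTd.neg.exp).const_add 1).log (by positivity)
      have h6 := h5.const_add 1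
      have h7 : Real.exp (-T) * -((k3 * P - k2 * R) / 2 / (U * W)) / (1 + Real.exp (-T)) =
          -(l * ((k3 * P - k2 * R) / 2 / (U * W))) := by
        rw [hl]; ring
      exact h6.congr_deriv h7
    set L := lam (Q / √D) with hL
    have hL1 : 1 ≤ L := one_le_lam _
    have hden : 0 < U + W * L := by positivity
    have hsd : HasDerivAt (fun θ => √(pp A (pt ρ θ)) / (√(pp A (pt ρ θ)) +
        √(rr A (pt ρ θ)) * lam (qq A (pt ρ θ) / √D)))
        (((k1 * P - k2 * Q) / (2 * U) * (U + W * L) - U * ((k1 * P - k2 * Q) / (2 * U) +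
          ((k3 * Q - k1 * R) / (2 * W) * L + W * (-(l * ((k3 * P - k2 * R) / 2 / (U * W)))))))
          / (U + W * L) ^ 2) θ :=
      hUd.div (hUd.add (hWd.mul hLd)) hden.ne'
    have hfun : (fun θ => ss A (pt ρ θ)) = (fun θ => √(pp A (pt ρ θ)) / (√(pp A (pt ρ θ)) +
        √(rr A (pt ρ θ)) * lam (qq A (pt ρ θ) / √D))) := by
      funext θ
      unfold ss
      rw [hDeq]
    rw [← hfun] at hsd
    refine ⟨_, hsd, ?_⟩
    · -- numerator
      have hnum : (k1 * P - k2 * Q) / (2 * U) * (U + W * L) - U * ((k1 * P - k2 * Q) / (2 * U) +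
          ((k3 * Q - k1 * R) / (2 * W) * L + W * (-(l * ((k3 * P - k2 * R) / 2 / (U * W)))))) =
          L * k1 * (U * W) - L * (Q / (U * W)) * (k2 * R + k3 * P) / 2
            + l * (k3 * P - k2 * R) / 2 := by
        field_simp
        rw [← hUU, ← hWW]
        ring
      rw [hnum, le_div_iff₀ (by positivity)]
      have htanh : L * (Q / (U * W)) ≤ 2 := by
        rcases le_or_gt Q 0 with hQ0 | hQ0
        · have : Q / (U * W) ≤ 0 := div_nonpos_of_nonpos_of_nonneg hQ0 (by positivity)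
          nlinarith
        · have h7 : Q / (U * W) ≤ 1 := by
            rw [div_le_one (by positivity)]
            have : Q ^ 2 ≤ (U * W) ^ 2 := by
              have : (U * W) ^ 2 = P * R := by rw [← hUU, ← hWW]; ring
              rw [this, hPR]; linarith
            exact le_of_sq_le_sq this (by positivity)
          have h8 : L ≤ 2 := by
            rw [hL]
            unfold lam
            have hT0 : 0 ≤ T := by
              rw [hT, Real.arsinh_nonneg_iff]; positivity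
            have h9 : Real.exp (-T) ≤ 1 := by
              rw [Real.exp_le_one_iff]; linarith
            have h10 : Real.log (1 + Real.exp (-T)) ≤ Real.log 2 :=
              Real.log_le_log (by positivity) (by linarith)
            have h11 : Real.log 2 ≤ 1 := by
              have := Real.log_two_lt_d9
              linarith
            linarith
          have h12 : 0 ≤ Q / (U * W) := by positivity
          nlinarith
      have hbound : slopeC A = |k1| + 2 * k2 + 2 * k3 := rfl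
      rw [hbound]
      exact slope_ineq k1 k2 k3 P Q R U W L l hk2p hk3p hPp hRp hUp hWp hUU hWW hL1 hl0 hl1
        htanh
  choose s' hs' hs'' using hder
  apply monotone_of_deriv_nonneg
  · intro θ
    exact ((hs' θ).add ((hasDerivAt_id θ).const_mul (slopeC A))).differentiableAt
  · intro θ
    have h := ((hs' θ).add ((hasDerivAt_id θ).const_mul (slopeC A))).deriv
    have h2 : deriv (fun θ => ss A (pt ρ θ) + slopeC A * θ) θ = s' θ + slopeC A * 1 := h
    rw [h2]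
    linarith [hs'' θ]

end Pool.Agent.Helper56.EZ
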