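import Pool.Agent.Helper56.EZ.SFun
import Pool.Agent.Helper56.EZ.Higson

set_option autoImplicit false

open Set Filter Topology

namespace Pool.Agent.Helper56.EZ

theorem lam_eq (x : ℝ) : lam x = Lam (Real.arsinh x) := rfl

theorem tendsto_arsinh_atTop : Tendsto Real.arsinh atTop atTop :=
  Real.arsinh_strictMono.monotone.tendsto_atTop_atTop fun b =>
    ⟨Real.sinh b, by rw [Real.arsinh_sinh]⟩

theorem tendsto_arsinh_atBot : Tendsto Real.arsinh atBot atBot :=
  Real.arsinh_strictMono.monotone.tendsto_atBot_atBot fun b =>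
    ⟨Real.sinh b, by rw [Real.arsinh_sinh]⟩

theorem tendsto_lam_atTop : Tendsto lam atTop (𝓝 1) := by
  have h1 : Tendsto Lam atTop (𝓝 1) := by
    apply tendsto_of_tendsto_of_tendsto_of_le_of_le (g := fun _ => (1 : ℝ))
      (h := fun T => 1 + Real.exp (-T))
    · exact tendsto_const_nhds
    · have := Real.tendsto_exp_neg_atTop_nhds_zero.const_add 1
      simpa using this
    · exact fun T => one_le_Lam T
    · exact fun T => Lam_le T
  exact h1.comp tendsto_arsinh_atTop

theorem tendsto_lam_atBot : Tendsto lam atBot atTop := by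
  have h1 : Tendsto Lam atBot atTop := by
    apply tendsto_atTop_mono (f := fun T => 1 - T) (fun T => Lam_ge T)
    exact tendsto_const_nhds.add_atTop tendsto_neg_atBot_atTop
  exact h1.comp tendsto_arsinh_atBot

/-- `ss A` has a limit at every boundary point at which `rr A` does not vanish. -/
theorem ss_boundary_limit (A : SL2) {η : ℂ} (hη : ‖η‖ = 1) (hr : rr A η ≠ 0) :
    ∃ ℓ : ℝ, Tendsto (ss A) (𝓝[Metric.ball 0 1] η) (𝓝 ℓ) := by
  have hr0 : 0 < rr A η := lt_of_le_of_ne (rr_nonneg A hη.le) (Ne.symm hr)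
  have hD : Tendsto (fun ζ : ℂ => √(1 - Complex.normSq ζ)) (𝓝[Metric.ball 0 1] η)
      (𝓝[>] 0) := by
    rw [tendsto_nhdsWithin_iff]
    constructor
    · have h1 : Continuous (fun ζ : ℂ => √(1 - Complex.normSq ζ)) :=
        Real.continuous_sqrt.comp (continuous_const.sub Complex.continuous_normSq)
      have h2 := h1.tendsto η
      have h3 : √(1 - Complex.normSq η) = 0 := by
        rw [Complex.normSq_eq_norm_sq, hη]; simp
      rw [h3] at h2
      exact h2.mono_left nhdsWithin_le_nhds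
    · filter_upwards [self_mem_nhdsWithin] with ζ hζ
      have := disc_pos (ζ := ζ) (by simpa using hζ)
      exact Real.sqrt_pos.2 this
  have hDinv : Tendsto (fun ζ : ℂ => (√(1 - Complex.normSq ζ))⁻¹) (𝓝[Metric.ball 0 1] η)
      atTop := tendsto_inv_nhdsGT_zero.comp hD
  have hp' : Tendsto (fun ζ => √(pp A ζ)) (𝓝[Metric.ball 0 1] η) (𝓝 √(pp A η)) :=
    ((Real.continuous_sqrt.comp (continuous_pp A)).tendsto η).mono_left nhdsWithin_le_nhds
  have hr' : Tendsto (fun ζ => √(rr A ζ)) (𝓝[Metric.ball 0 1] η) (𝓝 √(rr A η)) :=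
    ((Real.continuous_sqrt.comp (continuous_rr A)).tendsto η).mono_left nhdsWithin_le_nhds
  have hq' : Tendsto (fun ζ => qq A ζ) (𝓝[Metric.ball 0 1] η) (𝓝 (qq A η)) :=
    ((continuous_qq A).tendsto η).mono_left nhdsWithin_le_nhds
  have hsr : 0 < √(rr A η) := Real.sqrt_pos.2 hr0
  rcases lt_trichotomy (qq A η) 0 with hq | hq | hq
  · -- `q < 0`: limit `0`
    refine ⟨0, ?_⟩
    have h1 : Tendsto (fun ζ => qq A ζ / √(1 - Complex.normSq ζ)) (𝓝[Metric.ball 0 1] η)
        atBot := by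
      simp only [div_eq_mul_inv]
      exact hq'.neg_mul_atTop hq hDinv
    have h2 := tendsto_lam_atBot.comp h1
    have h3 : Tendsto (fun ζ => √(pp A ζ) + √(rr A ζ) *
        lam (qq A ζ / √(1 - Complex.normSq ζ))) (𝓝[Metric.ball 0 1] η) atTop :=
      hp'.add_atTop (hr'.pos_mul_atTop hsr h2)
    exact hp'.div_atTop h3
  · -- `q = 0`: then `p = 0`, limit `0`
    have hpη : pp A η = 0 := by
      have h1 := disc_eq A η
      rw [Complex.normSq_eq_norm_sq, hη, hq] at h1
      have h2 : pp A η * rr A η = 0 := by linarith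
      rcases mul_eq_zero.1 h2 with h | h
      · exact h
      · exact absurd h hr
    refine ⟨0, ?_⟩
    rw [hpη, Real.sqrt_zero] at hp'
    have h1 : Tendsto (fun ζ => √(pp A ζ) / √(rr A ζ)) (𝓝[Metric.ball 0 1] η) (𝓝 0) := by
      have := hp'.div hr' hsr.ne'
      rw [zero_div] at this
      exact this
    apply squeeze_zero' _ _ h1
    · exact Eventually.of_forall fun ζ => (ss_mem_Icc A ζ).1
    · filter_upwards [self_mem_nhdsWithin] with ζ hζ
      have hrp := rr_pos A (ζ := ζ) (by simpa using hζ)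
      have h2 : 0 < √(rr A ζ) := Real.sqrt_pos.2 hrp
      have h3 := one_le_lam (qq A ζ / √(1 - Complex.normSq ζ))
      have h4 : 0 ≤ √(pp A ζ) := Real.sqrt_nonneg _
      unfold ss
      apply div_le_div_of_nonneg_left h4 h2
      nlinarith
  · -- `q > 0`
    refine ⟨√(pp A η) / (√(pp A η) + √(rr A η) * 1), ?_⟩
    have h1 : Tendsto (fun ζ => qq A ζ / √(1 - Complex.normSq ζ)) (𝓝[Metric.ball 0 1] η)
        atTop := by
      simp only [div_eq_mul_inv]
      exact hq'.pos_mul_atTop hq hDinv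
    have h2 := tendsto_lam_atTop.comp h1
    have h3 : Tendsto (fun ζ => √(pp A ζ) + √(rr A ζ) *
        lam (qq A ζ / √(1 - Complex.normSq ζ))) (𝓝[Metric.ball 0 1] η)
        (𝓝 (√(pp A η) + √(rr A η) * 1)) :=
      hp'.add (hr'.mul h2)
    refine hp'.div h3 ?_
    have : 0 ≤ √(pp A η) := Real.sqrt_nonneg _
    linarith

/-- Fermi coordinates -/
theorem fermi (A : SL2) {ζ : ℂ} (hζ : ‖ζ‖ < 1) :
    ∃ u T : ℝ, ss A ζ = 1 / (1 + Lam T * Real.exp (-u)) ∧
      Real.cosh T * Real.exp u = pp A ζ / √(1 - Complex.normSq ζ) ∧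
      Real.cosh T * Real.exp (-u) = rr A ζ / √(1 - Complex.normSq ζ) ∧
      Real.sinh T = qq A ζ / √(1 - Complex.normSq ζ) := by
  have hp := pp_pos A hζ
  have hr := rr_pos A hζ
  have hD := disc_pos hζ
  have hd := disc_eq A ζ
  set P := pp A ζ
  set Q := qq A ζ
  set R := rr A ζ
  set D := 1 - Complex.normSq ζ
  have hU : 0 < √P := Real.sqrt_pos.2 hp
  have hW : 0 < √R := Real.sqrt_pos.2 hr
  have hsD : 0 < √D := Real.sqrt_pos.2 hD
  refine ⟨Real.log (√P / √R), Real.arsinh (Q / √D), ?_, ?_, ?_, ?_⟩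
  · rw [Real.exp_neg, Real.exp_log (by positivity), inv_div]
    unfold ss
    rw [lam_eq]
    have hL := Lam_pos (Real.arsinh (Q / √D))
    show √P / (√P + √R * Lam (Real.arsinh (Q / √D))) = _
    field_simp
  · rw [Real.exp_log (by positivity), Real.cosh_arsinh]
    have h1 : √(1 + (Q / √D) ^ 2) = √P * √R / √D := by
      rw [← Real.sqrt_mul hp.le, ← Real.sqrt_div (by positivity)]
      congr 1
      rw [div_pow, Real.sq_sqrt hD.le]
      field_simp
      linarith
    rw [h1]
    field_simp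
    rw [Real.sq_sqrt hp.le]
  · rw [Real.exp_neg, Real.exp_log (by positivity), inv_div, Real.cosh_arsinh]
    have h1 : √(1 + (Q / √D) ^ 2) = √P * √R / √D := by
      rw [← Real.sqrt_mul hp.le, ← Real.sqrt_div (by positivity)]
      congr 1
      rw [div_pow, Real.sq_sqrt hD.le]
      field_simp
      linarith
    rw [h1]
    field_simp
    rw [Real.sq_sqrt hr.le]
  · rw [Real.sinh_arsinh]

/-- slow variation -/
theorem ss_higson (C ε : ℝ) (hε : 0 < ε) : ∃ M : ℝ, ∀ (A : SL2) (ζ ζ' : ℂ), ‖ζ‖ < 1 →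
    ‖ζ'‖ < 1 → 1 - ζ.re * ζ'.re - ζ.im * ζ'.im ≤
      C * (√(1 - Complex.normSq ζ) * √(1 - Complex.normSq ζ')) →
    M * √(1 - Complex.normSq ζ) ≤ pp A ζ + rr A ζ → |ss A ζ - ss A ζ'| ≤ ε := by
  obtain ⟨M, hM⟩ := higson_real C ε hε
  refine ⟨2 * M, ?_⟩
  intro A ζ ζ' hζ hζ' hC hbig
  obtain ⟨u, T, hs, h1, h2, h3⟩ := fermi A hζ
  obtain ⟨u', T', hs', h1', h2', h3'⟩ := fermi A hζ'
  have hD : 0 < √(1 - Complex.normSq ζ) := Real.sqrt_pos.2 (disc_pos hζ)
  have hD' : 0 < √(1 - Complex.normSq ζ') := Real.sqrt_pos.2 (disc_pos hζ')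
  rw [hs, hs']
  apply hM
  · have e1 : Real.cosh T * Real.cosh T' * Real.cosh (u - u') =
        ((Real.cosh T * Real.exp u) * (Real.cosh T' * Real.exp (-u')) +
          (Real.cosh T * Real.exp (-u)) * (Real.cosh T' * Real.exp u')) / 2 := by
      rw [Real.cosh_eq (u - u'), neg_sub, Real.exp_sub, Real.exp_sub, Real.exp_neg, Real.exp_neg]
      have := Real.exp_ne_zero u
      have := Real.exp_ne_zero u'
      field_simp
    have e2 := bb_inv A ζ ζ'
    unfold bb at e2
    rw [e1, h1, h2, h1', h2', h3, h3']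
    have e3 : ((pp A ζ / √(1 - Complex.normSq ζ)) * (rr A ζ' / √(1 - Complex.normSq ζ')) +
        (rr A ζ / √(1 - Complex.normSq ζ)) * (pp A ζ' / √(1 - Complex.normSq ζ'))) / 2 -
        qq A ζ / √(1 - Complex.normSq ζ) * (qq A ζ' / √(1 - Complex.normSq ζ')) =
        (1 - ζ.re * ζ'.re - ζ.im * ζ'.im) /
          (√(1 - Complex.normSq ζ) * √(1 - Complex.normSq ζ')) := by
      rw [← e2]
      field_simp
    rw [e3, div_le_iff₀ (by positivity)]
    exact hC
  · have e1 : Real.cosh T * Real.cosh u =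
        (Real.cosh T * Real.exp u + Real.cosh T * Real.exp (-u)) / 2 := by
      rw [Real.cosh_eq u]; ring
    rw [e1, h1, h2]
    rw [← add_div, div_div, le_div_iff₀ (by positivity)]
    linarith

end Pool.Agent.Helper56.EZ
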